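import Pool.Agent.H118.CAB.Sum

/-!
# The asymptotic value of the sum of the traces of a pencil
-/

set_option autoImplicit false
set_option linter.all false

open Polynomial NumberField

namespace Pool.Agent.H118.CAB

open Pool.Agent.R410.NG (Wt IsWt sT sR sT_eq sR_eq polyEquiv Asy Ff)
open Pool.Agent.R410.BS (cF cB cF_le cB_nonneg)

theorem Asy.bound {T : Ff} {e : ℕ} {r : ℝ} (h : Asy T e r) : ∃ (C : ℝ) (N : ℕ), 0 ≤ C ∧ N ≠ 0 ∧
    ∀ (F : Type) [Field F] [Finite F], ((N : ℕ) : F) ≠ 0 → |T F| ≤ C * (Nat.card F : ℝ) ^ e := by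
  obtain ⟨κ, i1, L, i2, i3, a, ha, C, N, hC, hN, h1⟩ := h
  refine ⟨C + cB L a, N, add_nonneg hC (cB_nonneg L a), hN, fun F _ _ hF => ?_⟩
  have h2 := h1 F hF
  have hq1 : (1 : ℝ) ≤ Nat.card F := by exact_mod_cast Nat.card_pos
  have hs1 : 1 ≤ √(Nat.card F : ℝ) := Real.one_le_sqrt.2 hq1
  have h3 : |T F - cF L a F * (Nat.card F : ℝ) ^ e| ≤ C * (Nat.card F : ℝ) ^ e :=
    (le_mul_of_one_le_right (abs_nonneg _) hs1).trans h2
  have h4 : |cF L a F * (Nat.card F : ℝ) ^ e| ≤ cB L a * (Nat.card F : ℝ) ^ e := by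
    rw [abs_mul, abs_of_nonneg (by positivity : (0 : ℝ) ≤ (Nat.card F : ℝ) ^ e)]
    exact mul_le_mul_of_nonneg_right (cF_le L a F) (by positivity)
  calc |T F| = |(T F - cF L a F * (Nat.card F : ℝ) ^ e) + cF L a F * (Nat.card F : ℝ) ^ e| := by
        rw [sub_add_cancel]
    _ ≤ |T F - cF L a F * (Nat.card F : ℝ) ^ e| + |cF L a F * (Nat.card F : ℝ) ^ e| := abs_add_le _ _
    _ ≤ _ := by
        rw [add_mul]
        exact add_le_add h3 h4

section
variable {A M : Type} [CommRing A] [Field M] [Algebra A M] [IsDomain A] [IsFractionRing A M]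
  [Algebra.FiniteType ℤ A] [CharZero M] {m n : ℕ}

theorem asy_e {d : ℕ} (hd : Algebra.trdeg ℚ M = d) {eA : A[X][X]} (he0 : bi A M eA ≠ 0) :
    ∃ u : A, u ≠ 0 ∧ ∀ u' : A, u ∣ u' → u' ≠ 0 →
      Asy (fun F _ _ => Na (Ideal.span {eA}) u' F) (d + 1) (Nat.card (Comp (bi A M eA))) := by
  classical
  set e := bi A M eA with he
  have hfin : Finite (Comp e) := Comp.finite he0
  let _ : Fintype (Comp e) := Fintype.ofFinite _
  have hpr : ∀ j : Comp e, (Ideal.span {j.f}).IsPrime := fun j =>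
    (Ideal.span_singleton_prime j.prime.ne_zero).2 j.prime
  have hmap : (Ideal.span {eA}).map (bi A M) = Ideal.span {e} := by
    rw [Ideal.map_span, Set.image_singleton]
  have h1 := asy_alg (A := A) (J := Ideal.span {eA}) hd (t := 1) (fun j : Comp e => Ideal.span {j.f})
    (fun j => trdeg_comp j.f j.irr) (fun i j hij => by
      refine (Comp.inj j i ?_).symm
      exact Ideal.mem_span_singleton.1 (hij (Ideal.subset_span rfl))) (fun i => by
      rw [← Ideal.map_le_iff_le_comap, hmap, Ideal.span_singleton_le_span_singleton]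
      exact i.dvd) (by
      intro Q hQ hQ2
      rw [hmap] at hQ2
      have h2 : e ∈ Q := hQ2 (Ideal.subset_span rfl)
      have h3 := UniqueFactorizationMonoid.factors_prod he0
      have h4 : (UniqueFactorizationMonoid.factors e).prod ∈ Q := by
        obtain ⟨v, hv⟩ := h3.symm
        rw [← hv]
        exact Q.mul_mem_right _ h2
      obtain ⟨g, hg, hgQ⟩ := (hQ.multiset_prod_mem_iff_exists_mem _).1 h4
      have hgp := UniqueFactorizationMonoid.prime_of_factor g hg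
      obtain ⟨j, hj⟩ := Comp.cover hgp (UniqueFactorizationMonoid.dvd_of_mem_factors hg)
      refine ⟨j, ?_⟩
      rw [Ideal.span_singleton_le_iff_mem]
      obtain ⟨v, hv⟩ := hj
      rw [← hv]
      exact Q.mul_mem_right _ hgQ)
  exact h1

theorem asy_Fe {d : ℕ} (hd : Algebra.trdeg ℚ M = d) {fA eA : A[X][X]} (hF : (bi A M fA).Monic)
    (hrel : IsRelPrime (bi A M fA) (bi A M eA)) :
    ∃ u : A, u ≠ 0 ∧ ∀ u' : A, u ∣ u' → u' ≠ 0 →
      Asy (fun F _ _ => Na (Ideal.span {fA, eA}) u' F) d (Nat.card (Bp (bi A M fA) (bi A M eA))) := by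
  classical
  have hfin : Finite (Bp (bi A M fA) (bi A M eA)) := Bp.finite hF hrel
  let _ : Fintype (Bp (bi A M fA) (bi A M eA)) := Fintype.ofFinite _
  have hpr : ∀ j : Bp (bi A M fA) (bi A M eA), (j.1).IsPrime := fun j => j.2.1
  have hmap : (Ideal.span {fA, eA}).map (bi A M) = Ideal.span {bi A M fA, bi A M eA} := by
    rw [Ideal.map_span, Set.image_pair]
  have hle : ∀ Q : Ideal M[X][X], Ideal.span {bi A M fA, bi A M eA} ≤ Q ↔
      bi A M fA ∈ Q ∧ bi A M eA ∈ Q := by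
    intro Q
    rw [Ideal.span_le]
    constructor
    · intro h
      exact ⟨h (Or.inl rfl), h (Or.inr rfl)⟩
    · rintro ⟨h1, h2⟩ z (rfl | rfl)
      · exact h1
      · exact h2
  have h1 := asy_alg (A := A) (J := Ideal.span {fA, eA}) hd (t := 0)
    (fun j : Bp (bi A M fA) (bi A M eA) => j.1)
    (fun j => trdeg_bp hF hrel j.1 j.2.2.1 j.2.2.2) (fun i j hij => Bp.inc hF hrel i j hij) (fun i => by
      rw [← Ideal.map_le_iff_le_comap, hmap, hle]
      exact ⟨i.2.2.1, i.2.2.2⟩) (by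
      intro Q hQ hQ2
      rw [hmap, hle] at hQ2
      exact ⟨⟨Q, hQ, hQ2.1, hQ2.2⟩, le_rfl⟩)
  exact h1

theorem asy_sum {d : ℕ} (hd : Algebra.trdeg ℚ M = d) (hm : 0 < m) {cA eA : A[X][X]}
    (hc : Low m n (m * n) cA) (he : Low m n (m * n) eA) (he0 : bi A M eA ≠ 0)
    (hrel : IsRelPrime (bi A M (cab m n cA)) (bi A M eA)) :
    ∃ u : A, u ≠ 0 ∧
      Asy (fun F _ _ => sT (wc m n) (enc m n (GB (cab m n cA) eA)) (C u) F) (d + 1)
        ((Nat.card (Bp (bi A M (cab m n cA)) (bi A M eA)) : ℝ) - Nat.card (Comp (bi A M eA))) ∧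
      ∃ (B : ℝ) (N : ℕ), 0 ≤ B ∧ N ≠ 0 ∧ ∀ (F : Type) [Field F] [Finite F], ((N : ℕ) : F) ≠ 0 →
        (Nat.card F : ℝ) * Na (Ideal.span {cab m n cA, eA}) u F + Na (Ideal.span {eA}) u F ≤
          B * (Nat.card F : ℝ) ^ (d + 1) := by
  have hF : (bi A M (cab m n cA)).Monic := (cab_monic hm hc).1.map _
  obtain ⟨u1, hu1, h1⟩ := asy_e hd he0
  obtain ⟨u2, hu2, h2⟩ := asy_Fe hd hF hrel
  have hu : u1 * u2 ≠ 0 := mul_ne_zero hu1 hu2
  have t1 := h1 (u1 * u2) (dvd_mul_right _ _) hu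
  have t2 := (h2 (u1 * u2) (dvd_mul_left _ _) hu).mulq
  refine ⟨u1 * u2, hu, ?_, ?_⟩
  · have t3 := t2.add t1.neg
    rw [← sub_eq_add_neg] at t3
    refine t3.congr m hm.ne' fun F _ _ hmF => ?_
    let _ := Fintype.ofFinite F
    have hfA : Finite (A →+* F) := inferInstance
    have hfX : Finite (A[X] →+* F) := Finite.of_equiv _ (polyEquiv (A := A) (F := F)).symm
    rw [sT_GB hm hc he _ hmF, sub_eq_add_neg]
  · have t3 := t2.add t1
    obtain ⟨B, N, hB, hN, h3⟩ := Asy.bound t3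
    exact ⟨B, N, hB, hN, fun F _ _ hF => (le_abs_self _).trans (h3 F hF)⟩

open Classical in
theorem sR_bound (hm : 0 < m) {c e : A[X][X]} (hc : Low m n (m * n) c) (he : Low m n (m * n) e) (u : A)
    {O : Type} [CommRing O] {F : Type} [Field F] [Finite F] (hmF : ((m : ℕ) : F) ≠ 0) (ρ₀ : O →+* A)
    (ψ₀ : O →+* F) :
    |sR (wc m n) (C.comp ρ₀) (enc m n (GB (cab m n c) e)) (C u) F ψ₀| ≤
      (Nat.card F : ℝ) * Na (Ideal.span {cab m n c, e}) u F + Na (Ideal.span {e}) u F := by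
  let _ := Fintype.ofFinite F
  have hfA : Finite (A →+* F) := inferInstance
  let _ := Fintype.ofFinite (A →+* F)
  have hfX : Finite (A[X] →+* F) := Finite.of_equiv _ (polyEquiv (A := A) (F := F)).symm
  rw [sR_GB hm hc he u hmF, Na_pair, Na_one, Finset.mul_sum, ← Finset.sum_add_distrib]
  refine (Finset.abs_sum_le_sum_abs _ _).trans (Finset.sum_le_sum fun ψ _ => ?_)
  by_cases h : ψ.comp ρ₀ = ψ₀
  · rw [if_pos h]
    by_cases h2 : ψ u ≠ 0
    · rw [if_pos h2, if_pos h2, if_pos h2]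
      unfold fb
      refine (abs_sub _ _).trans ?_
      rw [abs_of_nonneg (by positivity), abs_of_nonneg (by positivity)]
    · rw [if_neg h2, if_neg h2, if_neg h2, abs_zero, mul_zero, add_zero]
  · rw [if_neg h, abs_zero]
    by_cases h2 : ψ u ≠ 0
    · rw [if_pos h2, if_pos h2]
      positivity
    · rw [if_neg h2, if_neg h2, mul_zero, add_zero]

end

end Pool.Agent.H118.CAB
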