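import Pool.Agent.H118.CAB.Inst

/-!
# The points over the base points, and the rank
-/

set_option autoImplicit false
set_option linter.all false
set_option maxHeartbeats 1000000

open Polynomial

namespace Pool.Agent.H118.CAB

open Pool.Agent.R410.NG (phA phA_apply phA_inj phA_frac gen_line)

theorem exists_field {A : Type} [CommRing A] (𝔭 : Ideal A) [𝔭.IsPrime] :
    ∃ (E : Type) (_ : Field E) (Λ : A →+* E), RingHom.ker Λ = 𝔭 := by
  refine ⟨FractionRing (A ⧸ 𝔭), inferInstance, algebraMap A (FractionRing (A ⧸ 𝔭)), ?_⟩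
  ext x
  rw [RingHom.mem_ker, IsScalarTower.algebraMap_apply A (A ⧸ 𝔭) (FractionRing (A ⧸ 𝔭)),
    map_eq_zero_iff _ (IsFractionRing.injective (A ⧸ 𝔭) (FractionRing (A ⧸ 𝔭))),
    Ideal.Quotient.algebraMap_eq, Ideal.Quotient.eq_zero_iff_mem]

theorem wc_enc {R : Type} [CommRing R] {m n : ℕ} (hm : 0 < m) {c : R[X][X]} (hc : Low m n (m * n) c)
    {G : R[X][X]} (hG : G = cab m n c) {F : Type} [Field F] (hmF : ((m : ℕ) : F) ≠ 0) (φ : R →+* F) :
    wc m n F (fun j => (enc m n G j).map φ) =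
      -((Nat.card F : ℝ) - Nat.card {z : F × F // evalEval z.1 z.2 (G.map (mapRingHom φ)) = 0}) := by
  classical
  subst hG
  have h1 := hc.map φ
  have h3 := cab_monic hm h1
  rw [enc_map, cab_map]
  unfold wc
  rw [dec_enc h3.1 h3.2, if_pos ⟨hmF, _, h1, rfl⟩]
  unfold pts
  ring

section
variable {M : Type} [Field M] {m n : ℕ} {c e : M[X][X]} [CharZero M] {K : Type} [Field K] [CharZero K]
  [Algebra M K] {ω : K}

theorem coeff_mem (hω : Transcendental M ω) (hm : 0 < m) (hc : Low m n (m * n) c)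
    (hrel : IsRelPrime (cab m n c) e) (𝔭 : Ideal (CR m n c e ω)) [𝔭.IsPrime]
    (he𝔭 : cio m n c e ω e ∈ 𝔭) (Q : M[X][X][X])
    (h : Q.eval₂ (cio m n c e ω) (cka m n c e ω ω) ∈ 𝔭) (j : ℕ) :
    cio m n c e ω (Q.coeff j) ∈ 𝔭 := by
  classical
  set io := cio m n c e ω with hio
  set ka := cka m n c e ω with hka
  set F := cab m n c with hF
  obtain ⟨hFm, hFd⟩ := cab_monic hm hc
  have hF𝔭 : io F ∈ 𝔭 := by
    have h1 : io F = -(ka ω * io e) := eq_neg_of_add_eq_zero_left (c_rel ω)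
    rw [h1]
    exact 𝔭.neg_mem (𝔭.mul_mem_left _ he𝔭)
  obtain ⟨E, iE, Λ, hΛ⟩ := exists_field 𝔭
  have hz : ∀ a, Λ a = 0 ↔ a ∈ 𝔭 := fun a => by rw [← hΛ, RingHom.mem_ker]
  let _ : Algebra M E := (Λ.comp (ka.comp (algebraMap M K))).toAlgebra
  have hME : ∀ a : M, algebraMap M E a = Λ (ka (algebraMap M K a)) := fun a => rfl
  set x : E := Λ (ka ω) with hx
  have hxt : Transcendental M x := by
    rintro ⟨p, hp, hp2⟩
    have h1 : aeval x p = Λ (ka (aeval ω p)) := by
      have h2 : ((aeval x : M[X] →ₐ[M] E) : M[X] →+* E) =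
          (Λ.comp ka).comp ((aeval ω : M[X] →ₐ[M] K) : M[X] →+* K) := by
        apply Polynomial.ringHom_ext
        · intro a
          show aeval x (C a) = Λ (ka (aeval ω (C a)))
          rw [aeval_C, aeval_C]
          rfl
        · show aeval x X = Λ (ka (aeval ω X))
          rw [aeval_X, aeval_X]
      exact congrArg (fun φ => φ p) h2
    rw [h1] at hp2
    have h3 : (Λ.comp ka) (aeval ω p) = 0 := hp2
    rw [map_eq_zero] at h3
    exact hω ⟨p, hp, h3⟩
  -- the values are algebraic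
  obtain ⟨r, hr, hr2⟩ := exists_r hFm hrel
  have hint : ∀ g : M[X][X], IsIntegral M ((Λ.comp io) g) := by
    refine fun g => int_gen (Λ.comp io) (fun a => ?_) hr ?_ hFm ?_ g
    · show Λ (io (C (C a))) = _
      rw [hME, c_compat ω a]
    · have h1 : Ideal.span ({F, e} : Set M[X][X]) ≤ RingHom.ker (Λ.comp io) := by
        rw [Ideal.span_le]
        rintro z (rfl | rfl)
        · exact (hz _).2 hF𝔭
        · exact (hz _).2 he𝔭
      exact h1 hr2
    · exact (hz _).2 hF𝔭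
  let S : IntermediateField M E := algebraicClosure M E
  have hS : ∀ g : M[X][X], (Λ.comp io) g ∈ S := fun g => (mem_algebraicClosure_iff.2 (hint g).isAlgebraic)
  let lam : M[X][X] →+* S := (Λ.comp io).codRestrict S hS
  have hxS : Transcendental S x := fun h1 => hxt (IsAlgebraic.restrictScalars M h1)
  have h2 : aeval x (Q.map lam) = 0 := by
    rw [aeval_def, eval₂_map]
    have h3 : (algebraMap S E).comp lam = Λ.comp io := RingHom.ext fun g => rfl
    rw [h3, hx, ← hom_eval₂]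
    exact (hz _).2 h
  have h4 : Q.map lam = 0 := by
    by_contra h5
    exact hxS ⟨_, h5, h2⟩
  have h6 : lam (Q.coeff j) = 0 := by
    rw [← coeff_map, h4, coeff_zero]
  have h7 : Λ (io (Q.coeff j)) = 0 := congrArg (algebraMap S E) h6 |>.trans (map_zero _)
  exact (hz _).1 h7

theorem eval_mem {R S : Type} [CommRing R] [CommRing S] (f : R →+* S) (x : S) (I : Ideal S) (Q : R[X])
    (h : ∀ j, f (Q.coeff j) ∈ I) : Q.eval₂ f x ∈ I := by
  rw [eval₂_eq_sum, Polynomial.sum]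
  exact I.sum_mem fun j _ => I.mul_mem_right _ (h j)

theorem le_of_comap (hω : Transcendental M ω) (htop : IntermediateField.adjoin M {ω} = ⊤) (hm : 0 < m)
    (hc : Low m n (m * n) c) (hrel : IsRelPrime (cab m n c) e) (𝔭 𝔭' : Ideal (CR m n c e ω)) [𝔭.IsPrime]
    (he𝔭 : cio m n c e ω e ∈ 𝔭) (h : 𝔭.comap (cio m n c e ω) ≤ 𝔭'.comap (cio m n c e ω)) : 𝔭 ≤ 𝔭' := by
  intro a ha
  obtain ⟨q, hq, Q, hQ⟩ := c_gen (m := m) (n := n) (c := c) (e := e) hω htop a
  have h1 : Q.eval₂ (cio m n c e ω) (cka m n c e ω ω) ∈ 𝔭 := by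
    rw [← hQ]
    exact 𝔭.mul_mem_left _ ha
  have h2 : Q.eval₂ (cio m n c e ω) (cka m n c e ω ω) ∈ 𝔭' :=
    eval_mem _ _ _ _ fun j => h (coeff_mem hω hm hc hrel 𝔭 he𝔭 Q h1 j)
  rw [← hQ] at h2
  have h3 : IsUnit (cka m n c e ω (aeval ω q)) := (isUnit_iff_ne_zero.2 hq).map _
  obtain ⟨v, hv⟩ := h3
  have h4 := 𝔭'.mul_mem_left (v⁻¹ : (CR m n c e ω)ˣ).1 h2
  rw [← hv, ← mul_assoc, Units.inv_mul, one_mul] at h4
  exact h4

theorem exists_prime (hω : Transcendental M ω) (htop : IntermediateField.adjoin M {ω} = ⊤)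
    (P : Ideal M[X][X]) [P.IsPrime] (hF : cab m n c ∈ P) (he : e ∈ P) :
    ∃ 𝔭 : Ideal (CR m n c e ω), 𝔭.IsPrime ∧ 𝔭.comap (cio m n c e ω) = P := by
  let L := FractionRing (FF P)[X]
  let i : (FF P)[X] →+* L := algebraMap (FF P)[X] L
  have hi : Function.Injective i := IsFractionRing.injective (FF P)[X] L
  let j : M[X][X] →+* L := (i.comp C).comp (Th P)
  have hj : ∀ g, j g = 0 ↔ g ∈ P := by
    intro g
    show i (C (Th P g)) = 0 ↔ _
    rw [map_eq_zero_iff _ hi, C_eq_zero, th_zero]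
  let _ : Algebra M L := (j.comp (C.comp C)).toAlgebra
  have hw : Transcendental M (i X) := by
    rintro ⟨p, hp, hp2⟩
    have h1 : aeval (i X) p = i (p.map (algebraMap M (FF P))) := by
      have h2 : ((aeval (i X) : M[X] →ₐ[M] L) : M[X] →+* L) =
          i.comp (mapRingHom (algebraMap M (FF P))) := by
        apply Polynomial.ringHom_ext
        · intro a
          show aeval (i X) (C a) = i ((C a).map _)
          rw [aeval_C, Polynomial.map_C]
          show i (C (Th P (C (C a)))) = _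
          rw [th_CC]
        · show aeval (i X) X = i (X.map _)
          rw [aeval_X, Polynomial.map_X]
      exact congrArg (fun φ => φ p) h2
    rw [h1, map_eq_zero_iff _ hi] at hp2
    exact hp ((Polynomial.map_eq_zero_iff (algebraMap M (FF P)).injective).1 hp2)
  obtain ⟨κ, hκ, hκω⟩ := lift_K hω htop hw
  obtain ⟨Ψ, hΨ, -⟩ := lift_CR (m := m) (n := n) (c := c) (e := e) κ j hκ ω (by
    rw [(hj _).2 hF, (hj _).2 he, mul_zero, add_zero])
  refine ⟨RingHom.ker Ψ, RingHom.ker_isPrime Ψ, ?_⟩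
  ext g
  rw [Ideal.mem_comap, RingHom.mem_ker, hΨ, hj]

theorem card_Pr (hω : Transcendental M ω) (htop : IntermediateField.adjoin M {ω} = ⊤) (hm : 0 < m)
    (hn : 0 < n) (hcop : Nat.Coprime m n) (hc : Low m n (m * n) c) (he : Low m n (m * n) e)
    (he0 : e ≠ 0) (hrel : IsRelPrime (cab m n c) e) [IsDedekindDomain (CR m n c e ω)] :
    Nat.card (pen (K := K) hω htop hm hn hcop hc he he0).Pr = Nat.card (Bp (cab m n c) e) := by
  let f : (pen (K := K) hω htop hm hn hcop hc he he0).Pr → Bp (cab m n c) e := fun 𝔭 =>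
    ⟨𝔭.1.comap (cio m n c e ω), by
      have := 𝔭.2.1
      exact Ideal.comap_isPrime _ _, by
      have h1 : cio m n c e ω (cab m n c) = -(cka m n c e ω ω * cio m n c e ω e) :=
        eq_neg_of_add_eq_zero_left (c_rel ω)
      rw [Ideal.mem_comap, h1]
      exact 𝔭.1.neg_mem (𝔭.1.mul_mem_left _ 𝔭.2.2), 𝔭.2.2⟩
  refine Nat.card_congr (Equiv.ofBijective f ⟨?_, ?_⟩)
  · intro 𝔭 𝔭' h
    have h1 : 𝔭.1.comap (cio m n c e ω) = 𝔭'.1.comap (cio m n c e ω) := congrArg Subtype.val h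
    have i1 := 𝔭.2.1
    have i2 := 𝔭'.2.1
    exact Subtype.ext (le_antisymm (le_of_comap hω htop hm hc hrel 𝔭.1 𝔭'.1 𝔭.2.2 h1.le)
      (le_of_comap hω htop hm hc hrel 𝔭'.1 𝔭.1 𝔭'.2.2 h1.ge))
  · intro P
    have := P.2.1
    obtain ⟨𝔭, h1, h2⟩ := exists_prime hω htop P.1 P.2.2.1 P.2.2.2
    refine ⟨⟨𝔭, h1, ?_⟩, Subtype.ext h2⟩
    have h3 : e ∈ 𝔭.comap (cio m n c e ω) := by
      rw [h2]
      exact P.2.2.2
    exact h3

/-- **The rank of the class group of the generic member of a pencil.** -/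
theorem rank_cab (hω : Transcendental M ω) (htop : IntermediateField.adjoin M {ω} = ⊤) (hm : 0 < m)
    (hn : 0 < n) (hcop : Nat.Coprime m n) (hc : Low m n (m * n) c) (he : Low m n (m * n) e)
    (he0 : e ≠ 0) (hrel : IsRelPrime (cab m n c) e) [IsDedekindDomain (CR m n c e ω)] :
    Nat.card (Comp e) ≤ Nat.card (Bp (cab m n c) e) ∧
      Module.rank ℤ (Additive (ClassGroup (CR m n c e ω))) =
        ((Nat.card (Bp (cab m n c) e) - Nat.card (Comp e) : ℕ) : Cardinal) := by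
  obtain ⟨hFm, hFd⟩ := cab_monic hm hc
  have hed : e.natDegree < m := (natDegree_lt_iff_degree_lt he0).2 (low_natDegree hm he)
  have h1 := (pen (K := K) hω htop hm hn hcop hc he he0).rank_class hrel hω hFm hFd hed he0 hm
    (fun z => gen_line htop z hω) (fun r hr p p' hp hp' h h' =>
      fib_prime hm hcop hc he hrel r hr p p' hp hp' h h')
  rw [card_Pr hω htop hm hn hcop hc he he0 hrel] at h1
  exact h1

end

end Pool.Agent.H118.CAB
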