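import Mathlib

/-!
# The degree of a resultant

Copied from `Pool.Agent.H470.Ext`.
-/

set_option autoImplicit false
set_option linter.all false

open Polynomial

namespace Pool.Agent.H118.CAB

/-- the degree of a determinant -/
theorem natDegree_det_le' {R : Type*} [CommRing R] {n : ℕ} (A : Matrix (Fin n) (Fin n) R[X]) (d : ℕ)
    (hA : ∀ i j, (A i j).natDegree ≤ d) : A.det.natDegree ≤ n * d := by
  classical
  rw [Matrix.det_apply]
  refine natDegree_sum_le_of_forall_le _ _ fun σ _ => ?_
  have h1 : (∏ i, A (σ i) i).natDegree ≤ n * d := by
    refine (natDegree_prod_le _ _).trans ?_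
    calc ∑ i, (A (σ i) i).natDegree ≤ ∑ _i : Fin n, d := Finset.sum_le_sum fun i _ => hA _ _
      _ = n * d := by simp
  rcases Int.units_eq_one_or (Equiv.Perm.sign σ) with h | h
  · rw [h, one_smul]; exact h1
  · rw [h, Units.neg_smul, one_smul, natDegree_neg]; exact h1

/-- A nonzero element of small degree in the ideal generated by a separable polynomial and its
derivative. -/
theorem exists_bezout {F : Type*} [Field F] {K : Type*} [Field K] (i : F[X] →+* K)
    (hinj : Function.Injective i) (f : F[X][X]) (hf : f.Monic) (hn : 0 < f.natDegree) (d : ℕ)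
    (hd : ∀ i, (f.coeff i).natDegree ≤ d) (hsep : (f.map i).Separable) :
    ∃ (A B : F[X][X]) (D : F[X]), A * f + B * derivative f = C D ∧ D ≠ 0 ∧
      D.natDegree ≤ 2 * f.natDegree * d := by
  obtain ⟨p, q, -, -, h⟩ := exists_mul_add_mul_eq_C_resultant f (derivative f) le_rfl
    (le_refl (derivative f).natDegree) (Or.inl hn.ne')
  refine ⟨p, q, f.resultant (derivative f), ?_, ?_, ?_⟩
  · rw [← h]; ring
  · intro h0
    have h1 : (f.map i).resultant (derivative (f.map i))
        f.natDegree (derivative f).natDegree = 0 := by
      rw [derivative_map, resultant_map_map, h0, map_zero]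
    have h2 : (f.map i).natDegree = f.natDegree := hf.natDegree_map _
    have h3 : (derivative (f.map i)).natDegree = (derivative f).natDegree := by
      rw [derivative_map, natDegree_map_eq_of_injective hinj]
    rw [← h2, ← h3, resultant_eq_zero_iff] at h1
    exact h1.2 hsep
  · have h4 : (derivative f).natDegree ≤ f.natDegree := (natDegree_derivative_le f).trans (by omega)
    unfold resultant
    refine (natDegree_det_le' _ d ?_).trans ?_
    · intro i j
      unfold sylvester
      rw [Matrix.of_apply]
      refine Fin.addCases (fun j₁ => ?_) (fun j₁ => ?_) j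
      · rw [Fin.addCases_left]
        split_ifs
        · rw [coeff_derivative]
          refine natDegree_mul_le.trans ?_
          have h5 : ((((i : ℕ) - (j₁ : ℕ) : ℕ) : F[X]) + 1).natDegree = 0 := by
            rw [← Nat.cast_succ, natDegree_natCast]
          rw [h5, add_zero]
          exact hd _
        · simp
      · rw [Fin.addCases_right]
        split_ifs
        · exact hd _
        · simp
    · exact Nat.mul_le_mul_right _ (by omega)

end Pool.Agent.H118.CAB
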