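import Pool.Agent.R410.NG.Asy

/-!
# The number of the points of a union of irreducible closed sets
-/

set_option autoImplicit false
set_option linter.all false

open Polynomial NumberField

namespace Pool.Agent.H118.CAB

open Pool.Agent.R410.NG (Asy Ff)
open Pool.Agent.R410.BS (good_le landau_all cF)
open Pool.Agent.R410.LW (FG frac_of_closure ft_int)

section
variable {T L : Type} [CommRing T] [Field L]

theorem fg_of_closure [Algebra.FiniteType ℤ T] (θ : T →+* L) (h : Subfield.closure (Set.range θ) = ⊤) :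
    FG L := by
  classical
  obtain ⟨G, hG⟩ := (inferInstance : Algebra.FiniteType ℤ T).out
  refine ⟨G.image θ, ?_⟩
  rw [eq_top_iff, ← h, Subfield.closure_le]
  rintro _ ⟨t, rfl⟩
  have ht : t ∈ Algebra.adjoin ℤ (G : Set T) := by rw [hG]; trivial
  show θ t ∈ Subfield.closure _
  induction ht using Algebra.adjoin_induction with
  | mem x hx => exact Subfield.subset_closure (by rw [Finset.coe_image]; exact ⟨x, hx, rfl⟩)
  | algebraMap r =>
    rw [eq_intCast (algebraMap ℤ T) r, map_intCast]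
    exact intCast_mem _ r
  | add x y _ _ hx hy => rw [map_add]; exact add_mem hx hy
  | mul x y _ _ hx hy => rw [map_mul]; exact mul_mem hx hy

/-- the homomorphisms of the quotient -/
noncomputable def quoEquiv (θ : T →+* L) (F : Type) [Field F] (p : (T →+* F) → Prop) :
    {φ : T ⧸ RingHom.ker θ →+* F // p (φ.comp (Ideal.Quotient.mk _))} ≃
      {φ : T →+* F // RingHom.ker θ ≤ RingHom.ker φ ∧ p φ} where
  toFun φ := ⟨φ.1.comp (Ideal.Quotient.mk _), by
    intro x hx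
    rw [RingHom.mem_ker, RingHom.comp_apply, Ideal.Quotient.eq_zero_iff_mem.2 hx, map_zero], φ.2⟩
  invFun φ := ⟨Ideal.Quotient.lift _ φ.1 (fun a ha => φ.2.1 ha), by
    have : (Ideal.Quotient.lift (RingHom.ker θ) φ.1 (fun a ha => φ.2.1 ha)).comp
      (Ideal.Quotient.mk (RingHom.ker θ)) = φ.1 := by
      ext x
      rfl
    rw [this]
    exact φ.2.2⟩
  left_inv φ := by
    apply Subtype.ext
    apply Ideal.Quotient.ringHom_ext
    ext x
    rfl
  right_inv φ := by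
    apply Subtype.ext
    ext x
    rfl

variable [CharZero L]

theorem asy_one [Algebra.FiniteType ℤ T] (θ : T →+* L) (h : Subfield.closure (Set.range θ) = ⊤) {e : ℕ}
    (htr : Algebra.trdeg ℚ L = e) {u : T} (hu : θ u ≠ 0) :
    Asy (fun F _ _ => (Nat.card {φ : T →+* F // RingHom.ker θ ≤ RingHom.ker φ ∧ φ u ≠ 0} : ℝ)) e 1 := by
  have hFG := fg_of_closure θ h
  obtain ⟨K, iK, nK, hK⟩ := landau_all hFG htr
  have hp : (RingHom.ker θ).IsPrime := RingHom.ker_isPrime θ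
  have hft0 : @Algebra.FiniteType ℤ (T ⧸ RingHom.ker θ) _ _ (Ideal.Quotient.algebra ℤ) := inferInstance
  have hft := ft_int _ hft0
  let _ : Algebra (T ⧸ RingHom.ker θ) L := (RingHom.kerLift θ).toAlgebra
  have hfr : IsFractionRing (T ⧸ RingHom.ker θ) L := by
    refine frac_of_closure (RingHom.kerLift_injective θ) ?_
    rw [eq_top_iff, ← h]
    apply Subfield.closure_mono
    rintro _ ⟨t, rfl⟩
    exact ⟨Ideal.Quotient.mk _ t, RingHom.kerLift_mk θ t⟩
  have hu' : Ideal.Quotient.mk (RingHom.ker θ) u ≠ 0 := by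
    rw [Ne, Ideal.Quotient.eq_zero_iff_mem]
    exact hu
  obtain ⟨C, N, hC, hN, h1⟩ := hK (T ⧸ RingHom.ker θ) _ hu'
  refine ⟨Unit, inferInstance, fun _ => K, fun _ => iK, fun _ => nK, fun _ => 1, by simp, C, N, hC,
    hN, ?_⟩
  intro F _ _ hF
  have h2 := h1 F hF
  have h3 : cF (fun _ : Unit => K) (fun _ => 1) F = (Nat.card (𝓞 K →+* F) : ℝ) := by
    unfold cF
    simp
  have h4 := Nat.card_congr (quoEquiv θ F (fun φ => φ u ≠ 0))
  have h5 : Nat.card {φ : T →+* F // RingHom.ker θ ≤ RingHom.ker φ ∧ φ u ≠ 0} =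
      Nat.card {φ : T ⧸ RingHom.ker θ →+* F // φ (Ideal.Quotient.mk _ u) ≠ 0} := h4.symm
  rw [h3]
  simp only [h5]
  exact h2

theorem two_le [Algebra.FiniteType ℤ T] (θ : T →+* L) {e : ℕ}
    (htr : Algebra.trdeg ℚ L = e) {v : T} (hv : θ v ≠ 0) :
    ∃ (C : ℝ) (N : ℕ), 0 ≤ C ∧ N ≠ 0 ∧ ∀ (F : Type) [Field F] [Finite F], ((N : ℕ) : F) ≠ 0 →
      (Nat.card {φ : T →+* F // RingHom.ker θ ≤ RingHom.ker φ ∧ φ v = 0} : ℝ) * Nat.card F ≤
        C * (Nat.card F : ℝ) ^ e := by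
  have hp : (RingHom.ker θ).IsPrime := RingHom.ker_isPrime θ
  have hft0 : @Algebra.FiniteType ℤ (T ⧸ RingHom.ker θ) _ _ (Ideal.Quotient.algebra ℤ) := inferInstance
  have hft := ft_int _ hft0
  let _ : Algebra (T ⧸ RingHom.ker θ) L := (RingHom.kerLift θ).toAlgebra
  have hv' : Ideal.Quotient.mk (RingHom.ker θ) v ≠ 0 := by
    rw [Ne, Ideal.Quotient.eq_zero_iff_mem]
    exact hv
  obtain ⟨C, N, hC, hN, h1⟩ := good_le (R := T ⧸ RingHom.ker θ) (K := L) (RingHom.kerLift_injective θ)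
    htr.le hv'
  refine ⟨C, N, hC, hN, fun F _ _ hF => ?_⟩
  have h4 := Nat.card_congr (quoEquiv θ F (fun φ => φ v = 0))
  have h5 : Nat.card {φ : T →+* F // RingHom.ker θ ≤ RingHom.ker φ ∧ φ v = 0} =
      Nat.card {φ : T ⧸ RingHom.ker θ →+* F // φ (Ideal.Quotient.mk _ v) = 0} := h4.symm
  rw [h5]
  exact (h1 F hF).2

end

section
variable {T : Type} [CommRing T] [Algebra.FiniteType ℤ T] {I : Type} (L : I → Type) [∀ i, Field (L i)]
  [∀ i, CharZero (L i)] (θ : ∀ i, T →+* L i)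

/-- the points of a union -/
abbrev Un (s : Finset I) (u : T) (F : Type) [Field F] : Type :=
  {φ : T →+* F // (∃ i ∈ s, RingHom.ker (θ i) ≤ RingHom.ker φ) ∧ φ u ≠ 0}

theorem asy_union (h : ∀ i, Subfield.closure (Set.range (θ i)) = ⊤) {e : ℕ}
    (htr : ∀ i, Algebra.trdeg ℚ (L i) = e) (hinc : ∀ i j, i ≠ j → ∃ v, θ i v = 0 ∧ θ j v ≠ 0) {u : T}
    (hu : ∀ i, θ i u ≠ 0) (s : Finset I) :
    Asy (fun F _ _ => (Nat.card (Un L θ s u F) : ℝ)) e s.card := by
  classical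
  induction s using Finset.induction_on with
  | empty =>
    rw [Finset.card_empty, Nat.cast_zero]
    refine (Asy.zero e).congr 1 one_ne_zero fun F _ _ _ => ?_
    have : IsEmpty (Un L θ ∅ u F) := ⟨fun φ => by
      obtain ⟨i, hi, -⟩ := φ.2.1
      exact Finset.notMem_empty i hi⟩
    rw [Nat.card_of_isEmpty, Nat.cast_zero]
  | insert i s hi ih =>
    have h1 := ih.add (asy_one (θ i) (h i) (htr i) (hu i))
    have e1 : ((insert i s).card : ℝ) = (s.card : ℝ) + 1 := by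
      rw [Finset.card_insert_of_notMem hi, Nat.cast_add, Nat.cast_one]
    rw [e1]
    refine h1.near ?_
    have h2 : ∀ j, ∃ v, j ≠ i → θ j v = 0 ∧ θ i v ≠ 0 := by
      intro j
      by_cases hj : j = i
      · exact ⟨0, fun h => (h hj).elim⟩
      · obtain ⟨v, hv⟩ := hinc j i hj
        exact ⟨v, fun _ => hv⟩
    choose v hv using h2
    have h3 : ∀ j, ∃ (C : ℝ) (N : ℕ), j ≠ i → 0 ≤ C ∧ N ≠ 0 ∧ ∀ (F : Type) [Field F] [Finite F],
        ((N : ℕ) : F) ≠ 0 →
        (Nat.card {φ : T →+* F // RingHom.ker (θ i) ≤ RingHom.ker φ ∧ φ (v j) = 0} : ℝ) * Nat.card F ≤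
        C * (Nat.card F : ℝ) ^ e := by
      intro j
      by_cases hj : j = i
      · exact ⟨0, 0, fun h => (h hj).elim⟩
      · obtain ⟨C, N, hC⟩ := two_le (θ i) (htr i) (hv j hj).2
        exact ⟨C, N, fun _ => hC⟩
    choose C N hCN using h3
    have hne : ∀ j ∈ s, j ≠ i := fun j hj hji => hi (hji ▸ hj)
    refine ⟨∑ j ∈ s, C j, ∏ j ∈ s, N j, Finset.sum_nonneg fun j hj => (hCN j (hne j hj)).1,
      Finset.prod_ne_zero_iff.2 fun j hj => (hCN j (hne j hj)).2.1, ?_⟩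
    intro F _ _ hF
    have hfin : Finite (T →+* F) := inferInstance
    let _ := Fintype.ofFinite (T →+* F)
    have hcd : ∀ (p : (T →+* F) → Prop) [DecidablePred p],
        Nat.card {φ : T →+* F // p φ} = (Finset.univ.filter p).card :=
      fun p _ => by rw [Nat.card_eq_fintype_card, Fintype.card_subtype]
    set A : Finset (T →+* F) := Finset.univ.filter
      (fun φ => (∃ i ∈ s, RingHom.ker (θ i) ≤ RingHom.ker φ) ∧ φ u ≠ 0) with hA
    set B : Finset (T →+* F) := Finset.univ.filter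
      (fun φ => RingHom.ker (θ i) ≤ RingHom.ker φ ∧ φ u ≠ 0) with hB
    have e2 : Nat.card (Un L θ (insert i s) u F) = (A ∪ B).card := by
      rw [hcd (fun φ : T →+* F => (∃ j ∈ insert i s, RingHom.ker (θ j) ≤ RingHom.ker φ) ∧ φ u ≠ 0)]
      congr 1
      ext φ
      rw [Finset.mem_union, hA, hB, Finset.mem_filter, Finset.mem_filter, Finset.mem_filter]
      constructor
      · rintro ⟨-, ⟨j, hj, hj2⟩, h0⟩
        rcases Finset.mem_insert.1 hj with rfl | hj
        · exact Or.inr ⟨Finset.mem_univ _, hj2, h0⟩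
        · exact Or.inl ⟨Finset.mem_univ _, ⟨j, hj, hj2⟩, h0⟩
      · rintro (⟨-, ⟨j, hj, hj2⟩, h0⟩ | ⟨-, h2, h0⟩)
        · exact ⟨Finset.mem_univ _, ⟨j, Finset.mem_insert_of_mem hj, hj2⟩, h0⟩
        · exact ⟨Finset.mem_univ _, ⟨i, Finset.mem_insert_self _ _, h2⟩, h0⟩
    have e3 : Nat.card (Un L θ s u F) = A.card :=
      hcd (fun φ => (∃ i ∈ s, RingHom.ker (θ i) ≤ RingHom.ker φ) ∧ φ u ≠ 0)
    have e4 : Nat.card {φ : T →+* F // RingHom.ker (θ i) ≤ RingHom.ker φ ∧ φ u ≠ 0} = B.card :=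
      hcd (fun φ => RingHom.ker (θ i) ≤ RingHom.ker φ ∧ φ u ≠ 0)
    have e5 := Finset.card_union_add_card_inter A B
    have e6 : (A ∩ B).card ≤ ∑ j ∈ s,
        Nat.card {φ : T →+* F // RingHom.ker (θ i) ≤ RingHom.ker φ ∧ φ (v j) = 0} := by
      simp only [hcd]
      refine (Finset.card_le_card ?_).trans Finset.card_biUnion_le
      intro φ hφ
      rw [Finset.mem_inter, hA, hB, Finset.mem_filter, Finset.mem_filter] at hφ
      obtain ⟨⟨-, ⟨j, hj, hj2⟩, -⟩, -, h2, -⟩ := hφ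
      rw [Finset.mem_biUnion]
      exact ⟨j, hj, Finset.mem_filter.2 ⟨Finset.mem_univ _, h2, hj2 (hv j (hne j hj)).1⟩⟩
    rw [e2, e3, e4]
    have e7 : |((A ∪ B).card : ℝ) - ((A.card : ℝ) + (B.card : ℝ))| = ((A ∩ B).card : ℝ) := by
      have : ((A ∪ B).card : ℝ) + ((A ∩ B).card : ℝ) = (A.card : ℝ) + (B.card : ℝ) := by
        exact_mod_cast e5
      rw [← this, sub_add_cancel_left, abs_neg, abs_of_nonneg (Nat.cast_nonneg _)]
    rw [e7]
    have hq1 : (1 : ℝ) ≤ Nat.card F := by exact_mod_cast Nat.card_pos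
    have hs : √(Nat.card F : ℝ) ≤ Nat.card F := by
      rw [Real.sqrt_le_left (by linarith)]
      nlinarith
    have hF' : ∀ j ∈ s, ((N j : ℕ) : F) ≠ 0 := by
      intro j hj h0
      apply hF
      rw [Nat.cast_prod]
      exact Finset.prod_eq_zero hj h0
    calc ((A ∩ B).card : ℝ) * √(Nat.card F : ℝ) ≤ ((A ∩ B).card : ℝ) * Nat.card F :=
          mul_le_mul_of_nonneg_left hs (Nat.cast_nonneg _)
      _ ≤ (∑ j ∈ s, (Nat.card {φ : T →+* F // RingHom.ker (θ i) ≤ RingHom.ker φ ∧ φ (v j) = 0} : ℝ)) *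
          Nat.card F := by
          refine mul_le_mul_of_nonneg_right ?_ (Nat.cast_nonneg _)
          exact_mod_cast e6
      _ = ∑ j ∈ s, (Nat.card {φ : T →+* F // RingHom.ker (θ i) ≤ RingHom.ker φ ∧ φ (v j) = 0} : ℝ) *
          Nat.card F := by rw [Finset.sum_mul]
      _ ≤ ∑ j ∈ s, C j * (Nat.card F : ℝ) ^ e :=
          Finset.sum_le_sum fun j hj => (hCN j (hne j hj)).2.2 F (hF' j hj)
      _ = _ := by rw [Finset.sum_mul]

end

end Pool.Agent.H118.CAB
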