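import Pool.Agent.H118.CAB.Cnt

/-!
# The number of the points of a closed subset of the plane over a ring
-/

set_option autoImplicit false
set_option linter.all false

open Polynomial NumberField

namespace Pool.Agent.H118.CAB

open Pool.Agent.R410.NG (Asy Ff)
open Pool.Agent.R410.LW (FG frac_of_closure ft_int)

section
variable (A M : Type) [CommRing A] [Field M] [Algebra A M]

/-- the extension of the coefficients -/
noncomputable def bi : A[X][X] →+* M[X][X] := mapRingHom (mapRingHom (algebraMap A M))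

theorem bi_CC (a : A) : bi A M (C (C a)) = C (C (algebraMap A M a)) := by
  unfold bi
  rw [coe_mapRingHom, Polynomial.map_C, coe_mapRingHom, Polynomial.map_C]

variable [IsDomain A] [IsFractionRing A M]

theorem bi_inj : Function.Injective (bi A M) :=
  Polynomial.map_injective _ (Polynomial.map_injective _ (IsFractionRing.injective A M))

attribute [local instance] Polynomial.algebra Polynomial.isLocalization in
theorem clear_ideal (I : Ideal A[X][X]) (g : A[X][X]) (h : bi A M g ∈ I.map (bi A M)) :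
    ∃ s : A, s ≠ 0 ∧ C (C s) * g ∈ I := by
  have h1 : IsLocalization ((nonZeroDivisors A).map (C : A →+* A[X])) M[X] :=
    Polynomial.isLocalization _ _
  have h2 : IsLocalization (((nonZeroDivisors A).map (C : A →+* A[X])).map (C : A[X] →+* A[X][X]))
    M[X][X] := Polynomial.isLocalization _ _
  have h3 := (IsLocalization.mem_map_algebraMap_iff
    (((nonZeroDivisors A).map (C : A →+* A[X])).map (C : A[X] →+* A[X][X])) M[X][X] (I := I)
    (z := bi A M g)).1 h
  obtain ⟨⟨x, y⟩, hxy⟩ := h3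
  obtain ⟨z, hz, hz2⟩ := y.2
  obtain ⟨s, hs, hs2⟩ := hz
  refine ⟨s, nonZeroDivisors.ne_zero hs, ?_⟩
  have h4 : C (C s) * g = x.1 := by
    apply bi_inj A M
    rw [map_mul, mul_comm]
    have h5 : (y : A[X][X]) = C (C s) := by rw [← hz2, ← hs2]
    have h6 : bi A M g * bi A M (y : A[X][X]) = bi A M x.1 := hxy
    rw [h5] at h6
    exact h6
  rw [h4]
  exact x.2

attribute [local instance] Polynomial.algebra Polynomial.isLocalization in
theorem clear_elem (p : M[X][X]) : ∃ s : A, s ≠ 0 ∧ ∃ q : A[X][X], bi A M q = bi A M (C (C s)) * p := by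
  have h1 : IsLocalization ((nonZeroDivisors A).map (C : A →+* A[X])) M[X] :=
    Polynomial.isLocalization _ _
  have h2 : IsLocalization (((nonZeroDivisors A).map (C : A →+* A[X])).map (C : A[X] →+* A[X][X]))
    M[X][X] := Polynomial.isLocalization _ _
  obtain ⟨⟨x, y⟩, hxy⟩ := IsLocalization.surj
    (((nonZeroDivisors A).map (C : A →+* A[X])).map (C : A[X] →+* A[X][X])) p
  obtain ⟨z, hz, hz2⟩ := y.2
  obtain ⟨s, hs, hs2⟩ := hz
  refine ⟨s, nonZeroDivisors.ne_zero hs, x, ?_⟩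
  have h5 : (y : A[X][X]) = C (C s) := by rw [← hz2, ← hs2]
  have h6 : p * bi A M (y : A[X][X]) = bi A M x := hxy
  rw [h5] at h6
  rw [← h6, mul_comm]

variable {A M} [Algebra.FiniteType ℤ A] {I : Type} [Fintype I] {J : Ideal A[X][X]}

theorem prod_comap {R S : Type} [CommRing R] [CommRing S] (f : R →+* S) (P : I → Ideal S)
    (s : Finset I) : ∏ i ∈ s, (P i).comap f ≤ (∏ i ∈ s, P i).comap f := by
  classical
  induction s using Finset.induction_on with
  | empty =>
    rw [Finset.prod_empty, Finset.prod_empty, Ideal.one_eq_top, Ideal.one_eq_top, Ideal.comap_top]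
  | insert i s hi ih =>
    rw [Finset.prod_insert hi, Finset.prod_insert hi]
    exact (Ideal.mul_mono le_rfl ih).trans (Ideal.le_comap_mul f)

theorem cover_A (P : I → Ideal M[X][X])
    (hcov : ∀ Q : Ideal M[X][X], Q.IsPrime → J.map (bi A M) ≤ Q → ∃ i, P i ≤ Q) :
    ∃ u : A, u ≠ 0 ∧ ∀ (F : Type) [Field F] (φ : A[X][X] →+* F), (∀ g ∈ J, φ g = 0) →
      φ (C (C u)) ≠ 0 → ∃ i, (P i).comap (bi A M) ≤ RingHom.ker φ := by
  classical
  have hN : IsNoetherianRing A := Algebra.FiniteType.isNoetherianRing ℤ A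
  have h1 : ∏ i, P i ≤ (J.map (bi A M)).radical := by
    rw [Ideal.radical_eq_sInf]
    refine le_sInf fun Q hQ => ?_
    obtain ⟨i, hi⟩ := hcov Q hQ.2 hQ.1
    exact (Ideal.IsPrime.prod_le hQ.2).2 ⟨i, Finset.mem_univ i, hi⟩
  obtain ⟨k, hk⟩ := Ideal.exists_pow_le_of_le_radical_of_fg h1 ((isNoetherianRing_iff_ideal_fg _).1 inferInstance _)
  obtain ⟨G, hG⟩ : ((∏ i, (P i).comap (bi A M)) ^ k).FG :=
    (isNoetherianRing_iff_ideal_fg _).1 inferInstance _
  have h2 : (∏ i, (P i).comap (bi A M)) ^ k ≤ (J.map (bi A M)).comap (bi A M) := by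
    refine (Ideal.pow_right_mono (prod_comap (bi A M) P Finset.univ) k).trans ?_
    exact (Ideal.le_comap_pow (bi A M) k).trans (Ideal.comap_mono hk)
  have h3 : ∀ g : A[X][X], ∃ s : A, s ≠ 0 ∧ (g ∈ G → C (C s) * g ∈ J) := by
    intro g
    by_cases hg : g ∈ G
    · obtain ⟨s, hs, hs2⟩ := clear_ideal A M J g (h2 (hG ▸ Ideal.subset_span hg))
      exact ⟨s, hs, fun _ => hs2⟩
    · exact ⟨1, one_ne_zero, fun h => (hg h).elim⟩
  choose s hs0 hs using h3
  refine ⟨∏ g ∈ G, s g, Finset.prod_ne_zero_iff.2 fun g _ => hs0 g, ?_⟩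
  intro F _ φ hφ hu
  rw [map_prod, map_prod, map_prod, Finset.prod_ne_zero_iff] at hu
  have hp : (RingHom.ker φ).IsPrime := RingHom.ker_isPrime φ
  have h4 : (∏ i, (P i).comap (bi A M)) ^ k ≤ RingHom.ker φ := by
    rw [← hG, Ideal.span_le]
    intro g hg
    have h5 := hφ _ (hs g hg)
    rw [map_mul] at h5
    exact (mul_eq_zero.1 h5).resolve_left (hu g hg)
  obtain ⟨i, -, hi⟩ := (Ideal.IsPrime.prod_le hp).1 (hp.le_of_pow_le h4)
  exact ⟨i, hi⟩

end

theorem ft_poly (B : Type) [CommRing B] [Algebra.FiniteType ℤ B] :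
    @Algebra.FiniteType ℤ B[X] _ _ (Ring.toIntAlgebra B[X]) :=
  ft_int _ (inferInstance : Algebra.FiniteType ℤ B[X])

section
variable {A M : Type} [CommRing A] [Field M] [Algebra A M] [IsDomain A] [IsFractionRing A M]
  [Algebra.FiniteType ℤ A] {I : Type} [Fintype I] {J : Ideal A[X][X]} [CharZero M]

/-- the function field -/
abbrev FF {M : Type} [Field M] (P : Ideal M[X][X]) [P.IsPrime] : Type := FractionRing (M[X][X] ⧸ P)

/-- the map to the function field -/
noncomputable def Th {M : Type} [Field M] (P : Ideal M[X][X]) [P.IsPrime] : M[X][X] →+* FF P :=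
  algebraMap M[X][X] (FF P)

theorem th_zero {M : Type} [Field M] (P : Ideal M[X][X]) [P.IsPrime] (p : M[X][X]) :
    Th P p = 0 ↔ p ∈ P := by
  unfold Th
  rw [IsScalarTower.algebraMap_apply M[X][X] (M[X][X] ⧸ P) (FF P),
    map_eq_zero_iff _ (IsFractionRing.injective (M[X][X] ⧸ P) (FF P)), Ideal.Quotient.algebraMap_eq,
    Ideal.Quotient.eq_zero_iff_mem]

theorem th_CC {M : Type} [Field M] (P : Ideal M[X][X]) [P.IsPrime] (a : M) :
    Th P (C (C a)) = algebraMap M (FF P) a := by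
  rw [IsScalarTower.algebraMap_apply M M[X][X] (FF P)]
  rfl

theorem asy_alg {d : ℕ} (hd : Algebra.trdeg ℚ M = d) {t : ℕ} (P : I → Ideal M[X][X])
    [∀ i, (P i).IsPrime] (htr : ∀ i, Algebra.trdeg M (FF (P i)) = t)
    (hinc : ∀ i j, P i ≤ P j → i = j)
    (hJ : ∀ i, J ≤ (P i).comap (bi A M))
    (hcov : ∀ Q : Ideal M[X][X], Q.IsPrime → J.map (bi A M) ≤ Q → ∃ i, P i ≤ Q) :
    ∃ u : A, u ≠ 0 ∧ ∀ u' : A, u ∣ u' → u' ≠ 0 →
      Asy (fun F _ _ => (Nat.card {φ : A[X][X] →+* F // (∀ g ∈ J, φ g = 0) ∧ φ (C (C u')) ≠ 0} : ℝ))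
        (d + t) (Nat.card I) := by
  classical
  obtain ⟨u, hu, hcu⟩ := cover_A (A := A) P hcov
  refine ⟨u, hu, fun u' huu' hu' => ?_⟩
  have hc0 : ∀ i, CharZero (FF (P i)) := fun i =>
    charZero_of_injective_algebraMap (algebraMap M (FF (P i))).injective
  let θ : ∀ i, A[X][X] →+* FF (P i) := fun i => (Th (P i)).comp (bi A M)
  have hker : ∀ i, RingHom.ker (θ i) = (P i).comap (bi A M) := by
    intro i
    ext p
    rw [RingHom.mem_ker, Ideal.mem_comap]
    exact th_zero (P i) _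
  have hθC : ∀ i (a : A), θ i (C (C a)) = algebraMap M (FF (P i)) (algebraMap A M a) := by
    intro i a
    show Th (P i) (bi A M (C (C a))) = _
    rw [bi_CC, th_CC]
  have hθC0 : ∀ i (a : A), a ≠ 0 → θ i (C (C a)) ≠ 0 := by
    intro i a ha
    rw [hθC, Ne, map_eq_zero, map_eq_zero_iff _ (IsFractionRing.injective A M)]
    exact ha
  have hcl : ∀ i, Subfield.closure (Set.range (θ i)) = ⊤ := by
    intro i
    have h1 : ∀ p : M[X][X], Th (P i) p ∈ Subfield.closure (Set.range (θ i)) := by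
      intro p
      obtain ⟨s, hs, q, hq⟩ := clear_elem A M p
      have h2 : Th (P i) p = θ i q / θ i (C (C s)) := by
        rw [eq_div_iff (hθC0 i s hs)]
        show _ * Th (P i) (bi A M (C (C s))) = Th (P i) (bi A M q)
        rw [hq, map_mul, mul_comm]
      rw [h2]
      exact div_mem (Subfield.subset_closure ⟨_, rfl⟩) (Subfield.subset_closure ⟨_, rfl⟩)
    rw [eq_top_iff]
    intro z _
    obtain ⟨x, y, -, rfl⟩ := IsFractionRing.div_surjective (A := M[X][X] ⧸ P i) z
    obtain ⟨x, rfl⟩ := Ideal.Quotient.mk_surjective x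
    obtain ⟨y, rfl⟩ := Ideal.Quotient.mk_surjective y
    refine div_mem ?_ ?_
    · have h2 := h1 x
      unfold Th at h2
      rw [IsScalarTower.algebraMap_apply M[X][X] (M[X][X] ⧸ P i) (FF (P i))] at h2
      exact h2
    · have h2 := h1 y
      unfold Th at h2
      rw [IsScalarTower.algebraMap_apply M[X][X] (M[X][X] ⧸ P i) (FF (P i))] at h2
      exact h2
  have htrQ : ∀ i, Algebra.trdeg ℚ (FF (P i)) = (d + t : ℕ) := by
    intro i
    have h1 := trdeg_add_eq ℚ M (A := FF (P i))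
    rw [htr, hd] at h1
    rw [← h1]
    push_cast
    rfl
  have hinc' : ∀ i j, i ≠ j → ∃ v, θ i v = 0 ∧ θ j v ≠ 0 := by
    intro i j hij
    obtain ⟨p, hp, hp2⟩ := Set.not_subset.1 (fun h : (P i : Set M[X][X]) ⊆ P j => hij (hinc i j h))
    obtain ⟨s, hs, q, hq⟩ := clear_elem A M p
    refine ⟨q, ?_, ?_⟩
    · show Th (P i) (bi A M q) = 0
      rw [hq, th_zero]
      exact (P i).mul_mem_left _ hp
    · have h1 : θ j q = θ j (C (C s)) * Th (P j) p := by
        show Th (P j) (bi A M q) = Th (P j) (bi A M (C (C s))) * _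
        rw [hq, map_mul]
      rw [h1]
      refine mul_ne_zero (hθC0 j s hs) ?_
      rw [Ne, th_zero]
      exact hp2
  have hf1 := ft_poly A
  have hf2 := ft_poly A[X]
  have h3 := asy_union (fun i => FF (P i)) θ hcl htrQ hinc' (u := C (C u')) (fun i => hθC0 i u' hu')
    Finset.univ
  have e1 : (Nat.card I : ℝ) = ((Finset.univ : Finset I).card : ℝ) := by
    rw [Nat.card_eq_fintype_card, Finset.card_univ]
  rw [e1]
  refine h3.congr 1 one_ne_zero fun F _ _ _ => ?_
  congr 1
  refine Nat.card_congr (Equiv.subtypeEquivRight fun φ => ?_)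
  constructor
  · rintro ⟨hg, h0⟩
    refine ⟨?_, h0⟩
    obtain ⟨w, hw⟩ := huu'
    have h4 : φ (C (C u)) ≠ 0 := by
      intro h5
      apply h0
      rw [hw, map_mul, map_mul, map_mul, h5, zero_mul]
    obtain ⟨i, hi⟩ := hcu F φ hg h4
    exact ⟨i, Finset.mem_univ i, by rw [hker]; exact hi⟩
  · rintro ⟨⟨i, -, hi⟩, h0⟩
    refine ⟨fun g hg => hi ?_, h0⟩
    rw [hker]
    exact hJ i hg

end

end Pool.Agent.H118.CAB
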