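import Mathlib

/-!
# Factorizations over a given family of primes, and the rank of a group with a presentation
-/

set_option autoImplicit false

namespace Pool.Agent.H118.CAB

section
variable {α : Type} [CommMonoidWithZero α] [IsCancelMulZero α] [UniqueFactorizationMonoid α] [Nontrivial α]
  {I : Type} [Fintype I] {p : I → α}

theorem mult_mul {q a b : α} (hq : Prime q) (ha : a ≠ 0) (hb : b ≠ 0) :
    multiplicity q (a * b) = multiplicity q a + multiplicity q b :=
  multiplicity_mul hq (FiniteMultiplicity.of_prime_left hq (mul_ne_zero ha hb))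

theorem mult_pos {q a : α} (hq : Prime q) (ha : a ≠ 0) (h : q ∣ a) : multiplicity q a ≠ 0 := by
  obtain ⟨b, rfl⟩ := h
  rw [mult_mul hq hq.ne_zero (right_ne_zero_of_mul ha), multiplicity_self]
  omega

theorem mult_zero {q a : α} (h : ¬ q ∣ a) : multiplicity q a = 0 := multiplicity_eq_zero.2 h

theorem mult_prod (hp : ∀ i, Prime (p i)) (hinj : ∀ i j, p i ∣ p j → i = j) (k : I → ℕ) (i : I) :
    multiplicity (p i) (∏ l, p l ^ k l) = k i := by
  classical
  have hne : ∀ l, p l ^ k l ≠ 0 := fun l => pow_ne_zero _ (hp l).ne_zero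
  have h1 : ∀ s : Finset I, multiplicity (p i) (∏ l ∈ s, p l ^ k l) = if i ∈ s then k i else 0 := by
    intro s
    induction s using Finset.induction_on with
    | empty =>
      rw [Finset.prod_empty, if_neg (Finset.notMem_empty i)]
      exact mult_zero fun h => (hp i).not_unit (isUnit_of_dvd_one h)
    | insert l s hl ih =>
      rw [Finset.prod_insert hl, mult_mul (hp i) (hne l) (Finset.prod_ne_zero_iff.2 fun j _ => hne j), ih]
      by_cases hil : i = l
      · subst hil
        rw [if_neg hl, if_pos (Finset.mem_insert_self _ _), multiplicity_pow_self_of_prime (hp i),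
          add_zero]
      · have h2 : multiplicity (p i) (p l ^ k l) = 0 := by
          refine mult_zero fun h => hil ?_
          exact hinj i l ((hp i).dvd_of_dvd_pow h)
        rw [h2, zero_add]
        by_cases his : i ∈ s
        · rw [if_pos his, if_pos (Finset.mem_insert_of_mem his)]
        · rw [if_neg his, if_neg]
          rw [Finset.mem_insert]
          rintro (h | h)
          · exact hil h
          · exact his h
  rw [h1 Finset.univ, if_pos (Finset.mem_univ i)]

/-- an element all of whose prime divisors belong to the family -/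
theorem assoc_prod (hp : ∀ i, Prime (p i)) (hinj : ∀ i j, p i ∣ p j → i = j) (x : α) (hx : x ≠ 0)
    (h : ∀ q, Prime q → q ∣ x → ∃ i, Associated q (p i)) :
    Associated x (∏ i, p i ^ multiplicity (p i) x) := by
  classical
  induction x using UniqueFactorizationMonoid.induction_on_prime with
  | h₁ => exact absurd rfl hx
  | h₂ x hu =>
    have h1 : ∀ i, multiplicity (p i) x = 0 := fun i =>
      mult_zero fun h => (hp i).not_unit (isUnit_of_dvd_unit h hu)
    have h2 : ∏ i, p i ^ multiplicity (p i) x = 1 := by
      refine Finset.prod_eq_one fun i _ => ?_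
      rw [h1, pow_zero]
    rw [h2]
    exact associated_one_iff_isUnit.2 hu
  | h₃ a q ha hq ih =>
    obtain ⟨l, hl⟩ := h q hq (dvd_mul_right q a)
    have h1 := ih ha fun r hr hra => h r hr (hra.mul_left q)
    have h2 : ∀ i, multiplicity (p i) (q * a) = (if i = l then 1 else 0) + multiplicity (p i) a := by
      intro i
      rw [mult_mul (hp i) hq.ne_zero ha]
      congr 1
      by_cases hil : i = l
      · rw [if_pos hil, hil]
        have h3 : multiplicity (p l) q = multiplicity (p l) (p l) := by
          unfold multiplicity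
          rw [emultiplicity_eq_of_associated_right hl]
        rw [h3, multiplicity_self]
      · rw [if_neg hil]
        exact mult_zero fun h3 => hil (hinj i l (h3.trans hl.dvd))
    have h3 : ∏ i, p i ^ multiplicity (p i) (q * a) = p l * ∏ i, p i ^ multiplicity (p i) a := by
      have e1 : ∀ i, p i ^ multiplicity (p i) (q * a) =
          (if i = l then p l else 1) * p i ^ multiplicity (p i) a := by
        intro i
        rw [h2 i, pow_add]
        by_cases hil : i = l
        · rw [if_pos hil, if_pos hil, pow_one, hil]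
        · rw [if_neg hil, if_neg hil, pow_zero]
      rw [Finset.prod_congr rfl fun i _ => e1 i, Finset.prod_mul_distrib, Finset.prod_ite_eq',
        if_pos (Finset.mem_univ l)]
    rw [h3]
    exact hl.mul_mul h1

end

section
variable {G I J : Type} [AddCommGroup G] [Fintype I] [Fintype J]

theorem rank_of' {G' : Type} [AddCommGroup G'] (v : J → G') (hli : LinearIndependent ℤ v)
    (ht : ∀ x : G', ∃ n : ℕ, n ≠ 0 ∧ (n : ℤ) • x ∈ Submodule.span ℤ (Set.range v)) :
    Module.rank ℤ G' = Fintype.card J := by
  have h1 := rank_quotient_add_rank_of_isDomain (Submodule.span ℤ (Set.range v))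
  have h2 : Module.rank ℤ (Submodule.span ℤ (Set.range v)) = Fintype.card J :=
    rank_eq_card_basis (Module.Basis.span hli)
  have h3 : Module.rank ℤ (G' ⧸ Submodule.span ℤ (Set.range v)) = 0 := by
    rw [rank_eq_zero_iff]
    intro x
    obtain ⟨y, rfl⟩ := Submodule.Quotient.mk_surjective _ x
    obtain ⟨n, hn, h⟩ := ht y
    refine ⟨n, by exact_mod_cast hn, ?_⟩
    rw [← Submodule.Quotient.mk_smul, Submodule.Quotient.mk_eq_zero]
    exact h
  rw [← h1, h2, h3, zero_add]

/-- the rank of a group with generators `I` and, up to torsion, independent relations `J` -/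
theorem rank_pres (φ : (I → ℤ) →ₗ[ℤ] G) (hs : Function.Surjective φ) (v : J → I → ℤ)
    (hv : ∀ j, φ (v j) = 0) (hli : LinearIndependent ℤ v)
    (ht : ∀ x, φ x = 0 → ∃ n : ℕ, n ≠ 0 ∧ (n : ℤ) • x ∈ Submodule.span ℤ (Set.range v)) :
    Fintype.card J ≤ Fintype.card I ∧
      Module.rank ℤ G = ((Fintype.card I - Fintype.card J : ℕ) : Cardinal) := by
  let w : J → LinearMap.ker φ := fun j => ⟨v j, hv j⟩
  have hw : LinearIndependent ℤ w := by
    refine LinearIndependent.of_comp (LinearMap.ker φ).subtype ?_
    exact hli
  have h1 : Module.rank ℤ (LinearMap.ker φ) = Fintype.card J := by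
    refine rank_of' w hw fun x => ?_
    obtain ⟨n, hn, h⟩ := ht x.1 x.2
    refine ⟨n, hn, ?_⟩
    have h2 : (LinearMap.ker φ).subtype ((n : ℤ) • x) ∈
        Submodule.map (LinearMap.ker φ).subtype (Submodule.span ℤ (Set.range w)) := by
      rw [Submodule.map_span, ← Set.range_comp]
      exact h
    obtain ⟨y, hy, hyx⟩ := h2
    have h3 : y = (n : ℤ) • x := Subtype.ext hyx
    rwa [h3] at hy
  have h2 := rank_quotient_add_rank_of_isDomain (LinearMap.ker φ)
  have h3 : Module.rank ℤ (I → ℤ) = Fintype.card I := rank_fun'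
  have h4 : Module.rank ℤ ((I → ℤ) ⧸ LinearMap.ker φ) = Module.rank ℤ G :=
    (φ.quotKerEquivOfSurjective hs).rank_eq
  rw [h1, h3, h4] at h2
  have h5 : Module.rank ℤ G < Cardinal.aleph0 := by
    refine lt_of_le_of_lt ?_ (Cardinal.natCast_lt_aleph0 (n := Fintype.card I))
    rw [← h2]
    exact self_le_add_right _ _
  obtain ⟨r, hr⟩ := Cardinal.lt_aleph0.1 h5
  rw [hr] at h2 ⊢
  have h6 : r + Fintype.card J = Fintype.card I := by exact_mod_cast h2
  refine ⟨by omega, ?_⟩
  congr 1
  omega

end

end Pool.Agent.H118.CAB
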