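import Pool.Agent.H118.CAB.Rank
import Pool.Agent.H118.CAB.Cnt2

/-!
# The function fields of the components and of the base points
-/

set_option autoImplicit false
set_option linter.all false

open Polynomial

namespace Pool.Agent.H118.CAB

section
variable {M : Type} [Field M]

/-- the base points of the pencil -/
def Bp (F e : M[X][X]) : Type := {P : Ideal M[X][X] // P.IsPrime ∧ F ∈ P ∧ e ∈ P}

variable {F e : M[X][X]}

theorem exists_r (hF : F.Monic) (hrel : IsRelPrime F e) : ∃ r : M[X], r ≠ 0 ∧
    C r ∈ Ideal.span ({F, e} : Set M[X][X]) := by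
  classical
  have hfin : Module.Finite M[X] (AdjoinRoot F) := hF.finite_adjoinRoot
  have hint : IsIntegral M[X] (AdjoinRoot.mk F e) := Algebra.IsIntegral.isIntegral _
  obtain ⟨p, hp, hp2⟩ := hint
  obtain ⟨i, hi, hi2⟩ := Ideal.exists_coeff_ne_zero_mem_comap_of_non_zero_divisor_root_mem
    (f := algebraMap M[X] (AdjoinRoot F)) (r := AdjoinRoot.mk F e)
    (I := Ideal.span {AdjoinRoot.mk F e}) (by
      intro x hx
      obtain ⟨g, rfl⟩ := AdjoinRoot.mk_surjective x
      rw [← map_mul, AdjoinRoot.mk_eq_zero] at hx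
      rw [AdjoinRoot.mk_eq_zero]
      exact hrel.dvd_of_dvd_mul_right hx)
    (Ideal.subset_span rfl) hp.ne_zero hp2
  refine ⟨p.coeff i, hi, ?_⟩
  rw [Ideal.mem_comap, Ideal.mem_span_singleton] at hi2
  obtain ⟨t, ht⟩ := hi2
  obtain ⟨g, rfl⟩ := AdjoinRoot.mk_surjective t
  have h1 : AdjoinRoot.mk F (C (p.coeff i) - e * g) = 0 := by
    rw [map_sub, map_mul, ← ht, sub_eq_zero]
    rfl
  rw [AdjoinRoot.mk_eq_zero] at h1
  obtain ⟨u, hu⟩ := h1
  rw [Ideal.mem_span_pair]
  exact ⟨u, g, by rw [mul_comm u, ← hu]; ring⟩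

/-- the values are integral if both coordinates are -/
theorem int_gen {B : Type} [CommRing B] [Algebra M B] (q : M[X][X] →+* B)
    (hqM : ∀ a : M, q (C (C a)) = algebraMap M B a) {r : M[X]} (hr : r ≠ 0) (hrP : q (C r) = 0)
    (hF : F.Monic) (hFP : q F = 0) (p : M[X][X]) : IsIntegral M (q p) := by
  classical
  let A' : Subalgebra M B := integralClosure M B
  have hC : ∀ g : M[X], q (C g) = aeval (q (C X)) g := by
    intro g
    have h1 : (q.comp C) = ((aeval (q (C X)) : M[X] →ₐ[M] B) : M[X] →+* B) := by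
      apply Polynomial.ringHom_ext
      · intro a
        show q (C (C a)) = aeval (q (C X)) (C a)
        rw [aeval_C, hqM]
      · show q (C X) = aeval (q (C X)) X
        rw [aeval_X]
    exact congrArg (fun φ => φ g) h1
  have hx : q (C X) ∈ A' := by
    have h1 : IsAlgebraic M (q (C X)) := by
      refine ⟨r, hr, ?_⟩
      rw [← hC]
      exact hrP
    exact h1.isIntegral
  have hCm' : ∀ g : M[X], ((aeval (⟨q (C X), hx⟩ : A') g : A') : B) = q (C g) := by
    intro g
    rw [aeval_subalgebra_coe g A' ⟨_, hx⟩]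
    exact (hC g).symm
  have hCm : ∀ g : M[X], q (C g) ∈ A' := by
    intro g
    rw [← hCm']
    exact Subtype.property _
  have hy : IsIntegral M (q X) := by
    have h1 : IsIntegral A' (q X) := by
      let φ : M[X] →+* A' := (aeval (⟨q (C X), hx⟩ : A') : M[X] →ₐ[M] A')
      refine ⟨F.map φ, hF.map φ, ?_⟩
      rw [eval₂_map]
      have h2 : (algebraMap A' B).comp φ = q.comp C := RingHom.ext hCm'
      rw [h2, ← hom_eval₂, eval₂_C_X]
      exact hFP
    exact isIntegral_trans (R := M) (A := A') _ h1
  show q p ∈ A'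
  induction p using Polynomial.induction_on' with
  | add p p' hp hp' => rw [map_add]; exact add_mem hp hp'
  | monomial k a =>
    rw [← C_mul_X_pow_eq_monomial, map_mul, map_pow]
    exact mul_mem (hCm a) (pow_mem hy k)

theorem alg_bp (hF : F.Monic) (hrel : IsRelPrime F e) (P : Ideal M[X][X]) [P.IsPrime] (hFP : F ∈ P)
    (heP : e ∈ P) (p : M[X][X]) : IsIntegral M (Th P p) := by
  obtain ⟨r, hr, hr2⟩ := exists_r hF hrel
  have h1 : C r ∈ P := by
    refine (Ideal.span_le.2 ?_) hr2
    rintro z (rfl | rfl)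
    · exact hFP
    · exact heP
  exact int_gen (Th P) (th_CC P) hr ((th_zero P _).2 h1) hF ((th_zero P _).2 hFP) p

theorem bp_inc (hF : F.Monic) (hrel : IsRelPrime F e) (P P' : Ideal M[X][X]) [P.IsPrime] [P'.IsPrime]
    (hFP : F ∈ P) (heP : e ∈ P) (h : P ≤ P') : P = P' := by
  refine le_antisymm h fun p hp => ?_
  by_contra hpP
  have h1 := alg_bp hF hrel P hFP heP p
  have h2 : Th P p ≠ 0 := fun h0 => hpP ((th_zero P p).1 h0)
  have h3 := minpoly.coeff_zero_ne_zero h1 h2
  set μ := minpoly M (Th P p) with hμ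
  have h4 : ∀ (Q : Ideal M[X][X]) [Q.IsPrime], Th Q (μ.eval₂ (C.comp C) p) = aeval (Th Q p) μ := by
    intro Q _
    rw [hom_eval₂, aeval_def]
    congr 1
  have h5 : μ.eval₂ (C.comp C) p ∈ P' := by
    apply h
    rw [← th_zero, h4 P]
    exact minpoly.aeval _ _
  rw [← th_zero, h4 P', (th_zero P' p).2 hp] at h5
  rw [aeval_def, eval₂_at_zero] at h5
  exact h3 ((map_eq_zero _).1 h5)

theorem Bp.inc (hF : F.Monic) (hrel : IsRelPrime F e) (P P' : Bp F e) (h : P.1 ≤ P'.1) : P = P' := by
  have h1 := P.2.1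
  have h2 := P'.2.1
  exact Subtype.ext (bp_inc hF hrel P.1 P'.1 P.2.2.1 P.2.2.2 h)

theorem Bp.finite (hF : F.Monic) (hrel : IsRelPrime F e) : Finite (Bp F e) := by
  have h1 : (Ideal.span ({F, e} : Set M[X][X])).minimalPrimes.Finite :=
    Ideal.finite_minimalPrimes_of_isNoetherianRing _ _
  refine Set.Finite.subset (s := (Ideal.span ({F, e} : Set M[X][X])).minimalPrimes) h1 ?_ |>.to_subtype
  rintro P ⟨hP, hFP, heP⟩
  refine ⟨⟨hP, ?_⟩, ?_⟩
  · rw [Ideal.span_le]
    rintro z (rfl | rfl)
    · exact hFP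
    · exact heP
  · rintro Q ⟨hQ, hQ2⟩ hQP
    have h2 := Bp.inc hF hrel ⟨Q, hQ, hQ2 (Ideal.subset_span (Or.inl rfl)),
      hQ2 (Ideal.subset_span (Or.inr rfl))⟩ ⟨P, hP, hFP, heP⟩ hQP
    have h3 : Q = P := congrArg Subtype.val h2
    exact h3.ge

/-- a field generated by the coordinates -/
theorem alg_gen (P : Ideal M[X][X]) [P.IsPrime] (E : IntermediateField M (FF P))
    (hx : IsAlgebraic E (Th P (C X))) (hy : IsAlgebraic E (Th P X)) : Algebra.IsAlgebraic E (FF P) := by
  have h1 : ∀ p : M[X][X], IsAlgebraic E (Th P p) := by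
    have hCC : ∀ a : M, IsAlgebraic E (Th P (C (C a))) := by
      intro a
      rw [th_CC, IsScalarTower.algebraMap_apply M E (FF P)]
      exact isAlgebraic_algebraMap _
    have hC : ∀ g : M[X], IsAlgebraic E (Th P (C g)) := by
      intro g
      induction g using Polynomial.induction_on' with
      | add p q hp hq => rw [map_add, map_add]; exact hp.add hq
      | monomial n a =>
        rw [← C_mul_X_pow_eq_monomial, map_mul, map_mul, map_pow, map_pow]
        exact (hCC a).mul (hx.pow n)
    intro p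
    induction p using Polynomial.induction_on' with
    | add p q hp hq => rw [map_add]; exact hp.add hq
    | monomial n a =>
      rw [← C_mul_X_pow_eq_monomial, map_mul, map_pow]
      exact (hC a).mul (hy.pow n)
  refine ⟨fun z => ?_⟩
  obtain ⟨x, y, -, rfl⟩ := IsFractionRing.div_surjective (A := M[X][X] ⧸ P) z
  obtain ⟨x, rfl⟩ := Ideal.Quotient.mk_surjective x
  obtain ⟨y, rfl⟩ := Ideal.Quotient.mk_surjective y
  rw [div_eq_mul_inv]
  refine IsAlgebraic.mul ?_ (IsAlgebraic.inv ?_)
  · have h2 := h1 x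
    unfold Th at h2
    rw [IsScalarTower.algebraMap_apply M[X][X] (M[X][X] ⧸ P) (FF P)] at h2
    exact h2
  · have h2 := h1 y
    unfold Th at h2
    rw [IsScalarTower.algebraMap_apply M[X][X] (M[X][X] ⧸ P) (FF P)] at h2
    exact h2

theorem th_C (P : Ideal M[X][X]) [P.IsPrime] (g : M[X]) : Th P (C g) = aeval (Th P (C X)) g := by
  have h1 : ((Th P).comp C) = ((aeval (Th P (C X)) : M[X] →ₐ[M] FF P) : M[X] →+* FF P) := by
    apply Polynomial.ringHom_ext
    · intro a
      show Th P (C (C a)) = aeval (Th P (C X)) (C a)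
      rw [aeval_C, th_CC]
    · show Th P (C X) = aeval (Th P (C X)) X
      rw [aeval_X]
  exact congrArg (fun φ => φ g) h1

theorem trdeg_bp (hF : F.Monic) (hrel : IsRelPrime F e) (P : Ideal M[X][X]) [P.IsPrime] (hFP : F ∈ P)
    (heP : e ∈ P) : Algebra.trdeg M (FF P) = (0 : ℕ) := by
  have h3 : ∀ p : M[X][X], IsAlgebraic M (Th P p) := fun p => (alg_bp hF hrel P hFP heP p).isAlgebraic
  have h6 : Algebra.IsAlgebraic (⊥ : IntermediateField M (FF P)) (FF P) :=
    alg_gen P ⊥ (IsAlgebraic.tower_top (K := M) _ (h3 _)) (IsAlgebraic.tower_top (K := M) _ (h3 _))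
  have h7 : Algebra.IsAlgebraic M (FF P) := by
    have h8 : Algebra.IsAlgebraic M (⊥ : IntermediateField M (FF P)) := by
      refine ⟨fun z => ?_⟩
      obtain ⟨a, ha⟩ := IntermediateField.mem_bot.1 z.2
      have : z = algebraMap M _ a := Subtype.ext ha.symm
      rw [this]
      exact isAlgebraic_algebraMap _
    exact Algebra.IsAlgebraic.trans M (⊥ : IntermediateField M (FF P)) (FF P)
  have h9 : Algebra.trdeg M (FF P) = 0 := trdeg_eq_zero
  rw [h9]
  rfl

theorem trdeg_comp (f : M[X][X]) (hf : Irreducible f) [hP : (Ideal.span {f}).IsPrime] :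
    Algebra.trdeg M (FF (Ideal.span {f})) = (1 : ℕ) := by
  classical
  set P : Ideal M[X][X] := Ideal.span {f} with hPd
  have hz : ∀ p : M[X][X], Th P p = 0 ↔ f ∣ p := fun p => by
    rw [th_zero, hPd, Ideal.mem_span_singleton]
  rw [Nat.cast_one]
  by_cases hx : Transcendental M (Th P (C X))
  · have hE : Algebra.IsAlgebraic (IntermediateField.adjoin M {Th P (C X)}) (FF P) := by
      refine alg_gen P _ ?_ ?_
      · have : Th P (C X) = algebraMap (IntermediateField.adjoin M {Th P (C X)}) (FF P)
            ⟨Th P (C X), IntermediateField.mem_adjoin_simple_self M _⟩ := rfl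
        rw [this]
        exact isAlgebraic_algebraMap _
      · set E := IntermediateField.adjoin M {Th P (C X)} with hEd
        let φ : M[X] →+* E := (aeval (⟨Th P (C X), IntermediateField.mem_adjoin_simple_self M _⟩ : E) :
          M[X] →ₐ[M] E)
        have hφ : ∀ g : M[X], ((φ g : E) : FF P) = Th P (C g) := by
          intro g
          rw [th_C]
          have h2 : (algebraMap E (FF P)).comp φ =
              ((aeval (Th P (C X)) : M[X] →ₐ[M] FF P) : M[X] →+* FF P) := by
            apply Polynomial.ringHom_ext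
            · intro a
              show ((aeval _ (C a) : E) : FF P) = aeval _ (C a)
              rw [aeval_C, aeval_C]
              rfl
            · show ((aeval _ X : E) : FF P) = aeval _ X
              rw [aeval_X, aeval_X]
          exact congrArg (fun ψ => ψ g) h2
        refine ⟨f.map φ, ?_, ?_⟩
        · intro h0
          apply hf.ne_zero
          ext1 i
          have h3 := congrArg (fun p => p.coeff i) h0
          simp only [coeff_map, coeff_zero] at h3
          rw [coeff_zero]
          have h4 := hφ (f.coeff i)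
          rw [h3, th_C] at h4
          have h5 : aeval (Th P (C X)) (f.coeff i) = 0 := h4.symm
          by_contra h6
          exact hx ⟨_, h6, h5⟩
        · rw [aeval_def, eval₂_map]
          have h7 : (algebraMap E (FF P)).comp φ = (Th P).comp C := RingHom.ext hφ
          rw [h7, ← hom_eval₂, eval₂_C_X, hz]
    exact Pool.Agent.R410.LW.trdeg_one _ hx
  · have hx' : IsAlgebraic M (Th P (C X)) := not_not.1 hx
    obtain ⟨r, hr, hr2⟩ := hx'
    rw [← th_C, hz] at hr2
    have h1 : f.natDegree = 0 := by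
      have := natDegree_le_of_dvd hr2 (C_ne_zero.2 hr)
      rw [natDegree_C] at this
      omega
    obtain ⟨g, hg⟩ := natDegree_eq_zero.1 h1
    have hgu : ¬ IsUnit g := fun h => hf.not_isUnit (hg ▸ h.map C)
    have hy : Transcendental M (Th P X) := by
      rintro ⟨q, hq, hq2⟩
      have h2 : aeval (Th P X) q = Th P (q.map C) := by
        have h3 : ((aeval (Th P X) : M[X] →ₐ[M] FF P) : M[X] →+* FF P) =
            (Th P).comp (mapRingHom C) := by
          apply Polynomial.ringHom_ext
          · intro a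
            show aeval (Th P X) (C a) = Th P ((C a).map C)
            rw [aeval_C, Polynomial.map_C, th_CC]
          · show aeval (Th P X) X = Th P (X.map C)
            rw [aeval_X, Polynomial.map_X]
        exact congrArg (fun φ => φ q) h3
      rw [h2, hz, ← hg, C_dvd_iff_dvd_coeff] at hq2
      have h4 := hq2 q.natDegree
      rw [coeff_map] at h4
      exact hgu (isUnit_of_dvd_unit h4 ((isUnit_iff_ne_zero.2 (leadingCoeff_ne_zero.2 hq)).map C))
    have hE : Algebra.IsAlgebraic (IntermediateField.adjoin M {Th P X}) (FF P) := by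
      refine alg_gen P _ ?_ ?_
      · refine IsAlgebraic.tower_top (K := M) _ ?_
        exact not_not.1 hx
      · have : Th P X = algebraMap (IntermediateField.adjoin M {Th P X}) (FF P)
            ⟨Th P X, IntermediateField.mem_adjoin_simple_self M _⟩ := rfl
        rw [this]
        exact isAlgebraic_algebraMap _
    exact Pool.Agent.R410.LW.trdeg_one _ hy

end

end Pool.Agent.H118.CAB
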