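import Pool.Agent.H118.CAB.Ring

/-!
# Homogenization: the fibres of the pencil
-/

set_option autoImplicit false

open Polynomial

namespace Pool.Agent.H118.CAB

section
variable {P S : Type} [CommRing P] [CommRing S]

/-- the polynomial `Q`, at `w = - F / e`, times `e^d` -/
noncomputable def HQ (F e : P) (Q : P[X]) (d : ℕ) : P :=
  ∑ j ∈ Finset.range (d + 1), Q.coeff j * (-F) ^ j * e ^ (d - j)

theorem HQ_eq (ι : P →+* S) (w : S) {F e : P} (h : ι F + w * ι e = 0) (Q : P[X]) {d : ℕ}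
    (hd : Q.natDegree ≤ d) : ι (HQ F e Q d) = Q.eval₂ ι w * ι e ^ d := by
  rw [eval₂_eq_sum_range' ι (Nat.lt_succ_of_le hd) w, HQ, map_sum, Finset.sum_mul]
  refine Finset.sum_congr rfl fun j hj => ?_
  rw [Finset.mem_range] at hj
  have h1 : ι (-F) = w * ι e := by
    rw [map_neg]
    linear_combination -h
  have h2 : ι e ^ d = ι e ^ j * ι e ^ (d - j) := by rw [← pow_add]; congr 1; omega
  rw [map_mul, map_mul, map_pow, map_pow, h1, h2, mul_pow]
  ring

theorem HQ_split (F e : P) (Q : P[X]) (d : ℕ) : HQ F e Q d = Q.coeff d * (-F) ^ d +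
    ∑ j ∈ Finset.range d, Q.coeff j * (-F) ^ j * e ^ (d - j) := by
  rw [HQ, Finset.sum_range_succ, Nat.sub_self, pow_zero, mul_one, add_comm]

theorem dvd_rest (F e : P) (Q : P[X]) (d : ℕ) :
    e ∣ ∑ j ∈ Finset.range d, Q.coeff j * (-F) ^ j * e ^ (d - j) := by
  refine Finset.dvd_sum fun j hj => ?_
  rw [Finset.mem_range] at hj
  exact (dvd_pow_self e (by omega)).mul_left _

end

section
variable {M : Type} [Field M]

/-- the polynomials with constant coefficients -/
noncomputable def emb : M[X] →+* M[X][X][X] := mapRingHom (C.comp C)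

theorem emb_natDegree (q : M[X]) : (emb q).natDegree = q.natDegree := by
  unfold emb
  rw [coe_mapRingHom]
  have h1 : Function.Injective ((C : M[X] →+* M[X][X]).comp (C : M →+* M[X])) := by
    intro a b hab
    exact C_injective (C_injective hab)
  exact natDegree_map_eq_of_injective h1 q

theorem emb_coeff (q : M[X]) (j : ℕ) : (emb q).coeff j = C (C (q.coeff j)) := by
  unfold emb
  rw [coe_mapRingHom, coeff_map]
  rfl

theorem emb_eval {S : Type} [CommRing S] (ι : M[X][X] →+* S) (w : S) (q : M[X]) :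
    (emb q).eval₂ ι w = q.eval₂ (ι.comp (C.comp C)) w := by
  unfold emb
  rw [coe_mapRingHom, eval₂_map]

/-- the fibre over the zeros of `q` -/
noncomputable def Hq (F e : M[X][X]) (q : M[X]) : M[X][X] := HQ F e (emb q) q.natDegree

theorem Hq_eq {S : Type} [CommRing S] (ι : M[X][X] →+* S) (w : S) {F e : M[X][X]}
    (h : ι F + w * ι e = 0) (q : M[X]) :
    ι (Hq F e q) = q.eval₂ (ι.comp (C.comp C)) w * ι e ^ q.natDegree := by
  unfold Hq
  rw [HQ_eq ι w h _ (emb_natDegree q).le, emb_eval]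

variable {m n : ℕ} {c e : M[X][X]}

theorem low_natDegree (hm : 0 < m) {h : M[X][X]} (hh : Low m n (m * n) h) : h.degree < m := by
  rw [degree_lt_iff_coeff_zero]
  intro i hi
  ext j
  rw [coeff_zero]
  by_contra h4
  have h5 := hh i j h4
  have h6 : n * m ≤ n * i := Nat.mul_le_mul_left _ hi
  rw [mul_comm m n] at h5
  omega

theorem Hq_split (F e : M[X][X]) (q : M[X]) : Hq F e q = C (C (q.coeff q.natDegree)) * (-F) ^ q.natDegree +
    ∑ j ∈ Finset.range q.natDegree, (emb q).coeff j * (-F) ^ j * e ^ (q.natDegree - j) := by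
  unfold Hq
  rw [HQ_split, emb_coeff]

theorem rest_deg {F e : M[X][X]} {q : M[X]} {d N : ℕ} (hN : m * d ≤ N) (hfd : F.natDegree = m)
    (hed : e.natDegree < m) :
    (∑ j ∈ Finset.range d, (emb q).coeff j * (-F) ^ j * e ^ (d - j)).coeff N = 0 := by
  rw [finsetSum_coeff]
  refine Finset.sum_eq_zero fun j hj => ?_
  rw [Finset.mem_range] at hj
  apply coeff_eq_zero_of_natDegree_lt
  rw [emb_coeff]
  have e1 : (C (C (q.coeff j)) * (-F) ^ j * e ^ (d - j)).natDegree ≤
      0 + j * m + (d - j) * e.natDegree := by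
    refine natDegree_mul_le.trans (add_le_add (natDegree_mul_le.trans (add_le_add ?_ ?_)) ?_)
    · rw [natDegree_C]
    · refine natDegree_pow_le.trans ?_
      rw [natDegree_neg, hfd]
    · exact natDegree_pow_le
  obtain ⟨k, hk⟩ := Nat.exists_eq_add_of_lt hj
  have e2 : d - j = k + 1 := by omega
  rw [e2] at e1 ⊢
  have e3 : (k + 1) * e.natDegree < (k + 1) * m := Nat.mul_lt_mul_of_pos_left hed (Nat.succ_pos k)
  have e4 : m * d = j * m + (k + 1) * m := by rw [hk]; ring
  omega

theorem top_coeff {F : M[X][X]} (hf : F.Monic) (hfd : F.natDegree = m) (a : M) (d : ℕ) :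
    (C (C a) * (-F) ^ d).coeff (m * d) = C (a * (-1) ^ d) := by
  have e1 : (-F) ^ d = C (C ((-1) ^ d)) * F ^ d := by
    rw [neg_pow F d, map_pow, map_pow, map_neg, map_neg, map_one, map_one]
  rw [e1, ← mul_assoc, ← C_mul, ← C_mul, coeff_C_mul]
  have e2 : (F ^ d).coeff (m * d) = 1 := by
    have := (hf.pow d).coeff_natDegree
    rw [hf.natDegree_pow, hfd, mul_comm] at this
    exact this
  rw [e2, mul_one]

theorem Hq_deg {F : M[X][X]} (hf : F.Monic) (hfd : F.natDegree = m) (hed : e.natDegree < m)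
    {q : M[X]} (hq : q ≠ 0) : Hq F e q ≠ 0 ∧ (Hq F e q).natDegree = m * q.natDegree := by
  have h4 : (Hq F e q).coeff (m * q.natDegree) = C (q.coeff q.natDegree * (-1) ^ q.natDegree) := by
    rw [Hq_split, coeff_add, rest_deg le_rfl hfd hed, top_coeff hf hfd, add_zero]
  have h6 : q.coeff q.natDegree ≠ 0 := leadingCoeff_ne_zero.2 hq
  have h5 : (Hq F e q).coeff (m * q.natDegree) ≠ 0 := by
    rw [h4]
    exact C_ne_zero.2 (mul_ne_zero h6 (pow_ne_zero _ (neg_ne_zero.2 one_ne_zero)))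
  refine ⟨fun h0 => h5 (by rw [h0, coeff_zero]), natDegree_eq_of_le_of_coeff_ne_zero ?_ h5⟩
  rw [natDegree_le_iff_coeff_eq_zero]
  intro N hN
  rw [Hq_split, coeff_add, rest_deg hN.le hfd hed, add_zero]
  apply coeff_eq_zero_of_natDegree_lt
  refine lt_of_le_of_lt (natDegree_C_mul_le _ _) (lt_of_le_of_lt natDegree_pow_le ?_)
  rw [natDegree_neg, hfd, mul_comm]
  exact hN

/-- a common factor of `e` and of a fibre divides `F` -/
theorem not_dvd {F : M[X][X]} (hrel : IsRelPrime F e) {q : M[X]} (hq : q ≠ 0) {g : M[X][X]}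
    (hg : Prime g) (h1 : g ∣ e) : ¬ g ∣ Hq F e q := by
  intro h2
  rw [Hq_split] at h2
  have h4 := h1.trans (dvd_rest F e (emb q) q.natDegree)
  have h5 := (dvd_add_left h4).1 h2
  rcases hg.dvd_or_dvd h5 with h6 | h6
  · have h7 : IsUnit (C (C (q.coeff q.natDegree)) : M[X][X]) := by
      rw [isUnit_C, isUnit_C]
      exact isUnit_iff_ne_zero.2 (leadingCoeff_ne_zero.2 hq)
    exact hg.not_unit (isUnit_of_dvd_unit h6 h7)
  · have h7 := hg.dvd_of_dvd_pow h6
    have h8 : g ∣ F := by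
      obtain ⟨z, hz⟩ := h7
      exact ⟨-z, by linear_combination -hz⟩
    exact hg.not_unit (hrel h8 h1)

end

end Pool.Agent.H118.CAB
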