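import Pool.Agent.H118.CAB.Rank

/-!
# The rank of the class group: the presentation
-/

set_option autoImplicit false
set_option maxHeartbeats 1000000

open Polynomial

namespace Pool.Agent.H118.CAB

theorem mult_pow {α : Type} [CommMonoidWithZero α] [IsCancelMulZero α] [UniqueFactorizationMonoid α]
    [Nontrivial α] {q a : α} (hq : Prime q) (ha : a ≠ 0) (d : ℕ) :
    multiplicity q (a ^ d) = d * multiplicity q a := by
  induction d with
  | zero => rw [pow_zero, zero_mul]; exact mult_zero fun h => hq.not_unit (isUnit_of_dvd_one h)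
  | succ d ih => rw [pow_succ, mult_mul hq (pow_ne_zero _ ha) ha, ih, Nat.succ_mul]

namespace Pen

section
variable {M K A : Type} [Field M] [Field K] [Algebra M K] [CommRing A] [IsDedekindDomain A]
  {F e : M[X][X]} {ω : K} (D : Pen M K A F e ω) {m : ℕ}

theorem ideal_eq (he0 : e ≠ 0) [Fintype D.Pr] (B : Ideal A) (hB : B ≠ 0)
    (h : ∀ 𝔮 : Ideal A, 𝔮.IsPrime → B ≤ 𝔮 → D.io e ∈ 𝔮) : B = ∏ i : D.Pr, i.1 ^ multiplicity i.1 B := by
  have h1 := assoc_prod (p := fun i : D.Pr => i.1) (fun i => i.prime he0) (fun i j hij => Pr.inj he0 i j hij)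
    B hB (fun q hq hqB => ⟨⟨q, Ideal.isPrime_of_prime hq, h q (Ideal.isPrime_of_prime hq)
      (Ideal.dvd_iff_le.1 hqB)⟩, Associated.refl _⟩)
  exact associated_iff_eq.1 h1

/-- divisors of a power of `e` -/
theorem dv_dvd (hω : Transcendental M ω) (hF : F.Monic) (hFm : F.natDegree = m) (hem : e.natDegree < m)
    (he0 : e ≠ 0)
    (hfib : ∀ r : M[X], Irreducible r → ∀ p p' : M[X][X], Prime p → Prime p' → p ∣ Hq F e r →
      p' ∣ Hq F e r → Associated p p') {u : A} {N : ℕ} (hu : u ∣ D.io e ^ N) : D.Dv u ∈ D.NN := by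
  obtain ⟨t, ht⟩ := hu
  have hne0 : D.io e ^ N ≠ 0 := pow_ne_zero _ (D.io_ne he0)
  have hu0 : u ≠ 0 := by
    rintro rfl
    rw [zero_mul] at ht
    exact hne0 ht
  obtain ⟨q1, hq1, G1, d1, hG1⟩ := D.clear u
  obtain ⟨q2, hq2, G2, d2, hG2⟩ := D.clear t
  have hq1' : q1 ≠ 0 := by rintro rfl; exact hq1 (map_zero _)
  have hq2' : q2 ≠ 0 := by rintro rfl; exact hq2 (map_zero _)
  have hG10 : G1 ≠ 0 := by
    rintro rfl
    rw [map_zero] at hG1
    exact (mul_ne_zero (mul_ne_zero (D.ka_unit hq1).ne_zero hu0) (pow_ne_zero _ (D.io_ne he0))) hG1.symm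
  have key : G1 * (G2 * e ^ (q1 * q2).natDegree) = Hq F e (q1 * q2) * e ^ (N + d1 + d2) := by
    apply D.inj
    simp only [map_mul, map_pow, hG1, hG2, D.hq]
    have e1 : D.io e ^ (N + d1 + d2) = D.io e ^ N * D.io e ^ d1 * D.io e ^ d2 := by
      rw [pow_add, pow_add]
    rw [e1, ht]
    ring
  have hdvd : ∀ p : M[X][X], Prime p → p ∣ G1 → D.Dv (D.io p) ∈ D.NN := by
    intro p hp hpG
    have h1 : p ∣ Hq F e (q1 * q2) * e ^ (N + d1 + d2) := by
      rw [← key]
      exact hpG.mul_right _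
    rcases hp.dvd_or_dvd h1 with h2 | h2
    · exact D.dv_fibre hω hF hFm hem he0 hfib _ (mul_ne_zero hq1' hq2') p hp h2
    · exact D.dv_of_dvd_e he0 hp (hp.dvd_of_dvd_pow h2)
  have h1 := D.dv_prod he0 G1 hG10 hdvd
  rw [hG1, D.Dv_mul he0 (mul_ne_zero (D.ka_unit hq1).ne_zero hu0) (pow_ne_zero _ (D.io_ne he0)),
    D.Dv_mul he0 (D.ka_unit hq1).ne_zero hu0, D.Dv_unit he0 (D.ka_unit hq1), zero_add,
    D.Dv_pow he0 (D.io_ne he0)] at h1
  have h2 : D.Dv u = (D.Dv u + (d1 : ℤ) • D.Dv (D.io e)) - (d1 : ℤ) • D.Dv (D.io e) := by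
    rw [add_sub_cancel_right]
  rw [h2]
  exact Submodule.sub_mem _ h1 (Submodule.smul_mem _ _ (D.dv_e he0))

/-- the classes -/
noncomputable def cls (he0 : e ≠ 0) (i : D.Pr) : ClassGroup A :=
  ClassGroup.mk0 ⟨i.1, mem_nonZeroDivisors_of_ne_zero (i.ne he0)⟩

/-- the map onto the class group -/
noncomputable def phi (he0 : e ≠ 0) [Fintype D.Pr] : (D.Pr → ℤ) →ₗ[ℤ] Additive (ClassGroup A) :=
  Fintype.linearCombination ℤ (fun i => Additive.ofMul (D.cls he0 i))

theorem phi_nat (he0 : e ≠ 0) [Fintype D.Pr] (k : D.Pr → ℕ)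
    (h0 : (∏ i : D.Pr, i.1 ^ k i) ∈ nonZeroDivisors (Ideal A)) :
    D.phi he0 (fun i => (k i : ℤ)) = Additive.ofMul (ClassGroup.mk0 ⟨∏ i : D.Pr, i.1 ^ k i, h0⟩) := by
  unfold phi
  rw [Fintype.linearCombination_apply]
  have h1 : (⟨∏ i : D.Pr, i.1 ^ k i, h0⟩ : nonZeroDivisors (Ideal A)) =
      ∏ i : D.Pr, (⟨i.1, mem_nonZeroDivisors_of_ne_zero (i.ne he0)⟩ : nonZeroDivisors (Ideal A)) ^ k i := by
    apply Subtype.ext
    rw [Submonoid.coe_finsetProd]
    rfl
  rw [h1, map_prod, ofMul_prod]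
  refine Finset.sum_congr rfl fun i _ => ?_
  rw [map_pow, ofMul_pow, natCast_zsmul]
  rfl

theorem phi_surj (hF : F.Monic) (hFm : F.natDegree = m) (hem : e.natDegree < m)
    (he0 : e ≠ 0) [Fintype D.Pr] : Function.Surjective (D.phi he0) := by
  classical
  let H : Subgroup (ClassGroup A) :=
    { carrier := {c | Additive.ofMul c ∈ LinearMap.range (D.phi he0)}
      mul_mem' := fun {x y} hx hy => by
        rw [Set.mem_ofPred_eq, ofMul_mul]
        exact Submodule.add_mem _ hx hy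
      one_mem' := by
        rw [Set.mem_ofPred_eq, ofMul_one]
        exact Submodule.zero_mem _
      inv_mem' := fun {x} hx => by
        rw [Set.mem_ofPred_eq, ofMul_inv]
        exact Submodule.neg_mem _ hx }
  have hI : ∀ i : D.Pr, D.cls he0 i ∈ H := by
    intro i
    refine ⟨Pi.single i 1, ?_⟩
    unfold phi
    rw [Fintype.linearCombination_apply_single, one_smul]
  have hp : ∀ (𝔮 : Ideal A) (h0 : 𝔮 ∈ nonZeroDivisors (Ideal A)), 𝔮.IsPrime →
      ClassGroup.mk0 ⟨𝔮, h0⟩ ∈ H := by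
    intro 𝔮 h0 hq
    have hbot : 𝔮 ≠ ⊥ := nonZeroDivisors.ne_zero h0
    by_cases hqe : D.io e ∈ 𝔮
    · exact hI ⟨𝔮, hq, hqe⟩
    · obtain ⟨π, J, N, hπ, hJ, hJN⟩ := D.prime_class hF hFm hem he0 𝔮 hq hbot hqe
      have hJ0 : J ≠ ⊥ := by
        rintro rfl
        rw [Ideal.mul_bot] at hJ
        exact D.io_ne hπ (Ideal.span_singleton_eq_bot.1 hJ)
      have hJ' : J ∈ nonZeroDivisors (Ideal A) := mem_nonZeroDivisors_of_ne_zero hJ0
      have h1 : ClassGroup.mk0 ⟨J, hJ'⟩ ∈ H := by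
        refine Pool.Agent.R410.CB.mem_of_primes H J hJ' fun 𝔯 h0' hr hle => ?_
        have h2 : D.io e ∈ 𝔯 := by
          have h3 : 𝔯 ∣ Ideal.span {D.io e} ^ N := (Ideal.dvd_iff_le.2 hle).trans hJN
          have h4 : Prime 𝔯 := Ideal.prime_of_isPrime (nonZeroDivisors.ne_zero h0') hr
          exact Ideal.dvd_span_singleton.1 (h4.dvd_of_dvd_pow h3)
        exact hI ⟨𝔯, hr, h2⟩
      have h2 : ClassGroup.mk0 ⟨𝔮, h0⟩ * ClassGroup.mk0 ⟨J, hJ'⟩ = 1 := by
        rw [← map_mul, ClassGroup.mk0_eq_one_iff]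
        have h3 : ((⟨𝔮, h0⟩ * ⟨J, hJ'⟩ : nonZeroDivisors (Ideal A)) : Ideal A) =
          Ideal.span {D.io π} := hJ.symm
        rw [h3]
        exact ⟨⟨D.io π, rfl⟩⟩
      rw [eq_inv_of_mul_eq_one_left h2]
      exact H.inv_mem h1
  intro x
  obtain ⟨⟨B, hB⟩, hBx⟩ := ClassGroup.mk0_surjective (Additive.toMul x)
  have h1 : ClassGroup.mk0 ⟨B, hB⟩ ∈ H :=
    Pool.Agent.R410.CB.mem_of_primes H B hB fun 𝔯 h0' hr _ => hp 𝔯 h0' hr
  rw [hBx] at h1
  exact h1

theorem phi_dv (he0 : e ≠ 0) [Fintype D.Pr] {a : A} (ha : a ≠ 0)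
    (h : ∀ 𝔮 : Ideal A, 𝔮.IsPrime → a ∈ 𝔮 → D.io e ∈ 𝔮) : D.phi he0 (D.Dv a) = 0 := by
  have h1 := D.ideal_eq he0 (Ideal.span {a}) (span_ne ha) fun 𝔮 hq hle =>
    h 𝔮 hq (hle (Ideal.mem_span_singleton_self a))
  have h0 : (∏ i : D.Pr, i.1 ^ multiplicity i.1 (Ideal.span {a})) ∈ nonZeroDivisors (Ideal A) := by
    rw [← h1]
    exact mem_nonZeroDivisors_of_ne_zero (span_ne ha)
  have h2 := D.phi_nat he0 (fun i => multiplicity i.1 (Ideal.span {a})) h0
  have h3 : ClassGroup.mk0 ⟨∏ i : D.Pr, i.1 ^ multiplicity i.1 (Ideal.span {a}), h0⟩ = 1 := by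
    rw [ClassGroup.mk0_eq_one_iff, ← h1]
    exact ⟨⟨a, rfl⟩⟩
  rw [h3, ofMul_one] at h2
  exact h2

theorem phi_ker (hω : Transcendental M ω) (hF : F.Monic) (hFm : F.natDegree = m) (hem : e.natDegree < m)
    (he0 : e ≠ 0)
    (hfib : ∀ r : M[X], Irreducible r → ∀ p p' : M[X][X], Prime p → Prime p' → p ∣ Hq F e r →
      p' ∣ Hq F e r → Associated p p') [Fintype D.Pr] (x : D.Pr → ℤ) (hx : D.phi he0 x = 0) :
    x ∈ D.NN := by
  classical
  set N : ℕ := ∑ i : D.Pr, (x i).natAbs with hN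
  set y : D.Pr → ℤ := x + (N : ℤ) • D.Dv (D.io e) with hy
  have hmem : ∀ i : D.Pr, 1 ≤ D.Dv (D.io e) i := by
    intro i
    have h1 : multiplicity i.1 (Ideal.span {D.io e}) ≠ 0 := mult_pos (i.prime he0) (span_ne (D.io_ne he0))
      (Ideal.dvd_span_singleton.2 i.2.2)
    unfold Dv
    exact_mod_cast Nat.one_le_iff_ne_zero.2 h1
  have hy0 : ∀ i, 0 ≤ y i := by
    intro i
    have h1 : (x i).natAbs ≤ N := Finset.single_le_sum (f := fun i => (x i).natAbs)
      (fun _ _ => Nat.zero_le _) (Finset.mem_univ i)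
    have h2 := hmem i
    have h3 : y i = x i + (N : ℤ) * D.Dv (D.io e) i := rfl
    rw [h3]
    have h4 : (N : ℤ) ≤ (N : ℤ) * D.Dv (D.io e) i := le_mul_of_one_le_right (by positivity) h2
    have h5 : -((x i).natAbs : ℤ) ≤ x i := by omega
    have h6 : ((x i).natAbs : ℤ) ≤ (N : ℤ) := by exact_mod_cast h1
    linarith
  set k : D.Pr → ℕ := fun i => (y i).toNat with hk
  have hky : (fun i => (k i : ℤ)) = y := by
    funext i
    exact Int.toNat_of_nonneg (hy0 i)
  have hphiy : D.phi he0 y = 0 := by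
    rw [hy, map_add, map_smul, hx, D.phi_dv he0 (D.io_ne he0) (fun _ _ h => h), smul_zero, add_zero]
  have hne : (∏ i : D.Pr, i.1 ^ k i) ≠ 0 :=
    Finset.prod_ne_zero_iff.2 fun i _ => pow_ne_zero _ (i.prime he0).ne_zero
  have h0 : (∏ i : D.Pr, i.1 ^ k i) ∈ nonZeroDivisors (Ideal A) := mem_nonZeroDivisors_of_ne_zero hne
  rw [← hky, D.phi_nat he0 k h0, ofMul_eq_zero, ClassGroup.mk0_eq_one_iff] at hphiy
  obtain ⟨u, hu⟩ := hphiy.principal
  have hu' : (∏ i : D.Pr, i.1 ^ k i) = Ideal.span {u} := hu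
  have hDu : D.Dv u = y := by
    rw [← hky]
    funext i
    unfold Dv
    rw [← hu', mult_prod (p := fun i : D.Pr => i.1) (fun i => i.prime he0)
      (fun i j hij => Pr.inj he0 i j hij)]
  have hdvd : u ∣ D.io e ^ (∑ i : D.Pr, k i) := by
    rw [← Ideal.mem_span_singleton, ← hu']
    have h1 : (∏ i : D.Pr, i.1 ^ k i) ∣ ∏ i : D.Pr, Ideal.span {D.io e} ^ k i :=
      Finset.prod_dvd_prod_of_dvd _ _ fun i _ => pow_dvd_pow_of_dvd
        (Ideal.dvd_span_singleton.2 i.2.2) _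
    rw [Finset.prod_pow_eq_pow_sum, Ideal.span_singleton_pow] at h1
    exact Ideal.dvd_span_singleton.1 h1
  have h1 := D.dv_dvd hω hF hFm hem he0 hfib hdvd
  rw [hDu] at h1
  have h2 : x = y - (N : ℤ) • D.Dv (D.io e) := by rw [hy, add_sub_cancel_right]
  rw [h2]
  exact Submodule.sub_mem _ h1 (Submodule.smul_mem _ _ (D.dv_e he0))

/-- **The relations are independent.** -/
theorem vv_indep (hrel : IsRelPrime F e) (hF : F.Monic) (hFm : F.natDegree = m) (hem : e.natDegree < m)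
    (he0 : e ≠ 0) (hm : 0 < m) (hL : ∀ z : K, ∃ p q : M[X], aeval ω q ≠ 0 ∧ z * aeval ω q = aeval ω p)
    [Fintype D.Pr] [Fintype (Comp e)] : LinearIndependent ℤ D.vv := by
  classical
  rw [Fintype.linearIndependent_iff]
  intro g hg
  set a : Comp e → ℕ := fun j => (g j).toNat with ha
  set b : Comp e → ℕ := fun j => (-g j).toNat with hb
  have hgab : ∀ j, g j = (a j : ℤ) - b j := fun j => by
    simp only [ha, hb]
    omega
  have hfne : ∀ j : Comp e, D.io j.f ≠ 0 := fun j => D.io_ne j.prime.ne_zero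
  set x := ∏ j : Comp e, D.io j.f ^ a j with hx
  set y := ∏ j : Comp e, D.io j.f ^ b j with hy
  have hx0 : x ≠ 0 := Finset.prod_ne_zero_iff.2 fun j _ => pow_ne_zero _ (hfne j)
  have hy0 : y ≠ 0 := Finset.prod_ne_zero_iff.2 fun j _ => pow_ne_zero _ (hfne j)
  have hDxy : D.Dv x = D.Dv y := by
    rw [hx, hy, D.Dv_prod he0 _ _ _ hfne, D.Dv_prod he0 _ _ _ hfne, ← sub_eq_zero,
      ← Finset.sum_sub_distrib, ← hg]
    refine Finset.sum_congr rfl fun j _ => ?_
    rw [← sub_smul, hgab]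
    rfl
  have hpr : ∀ (c : Comp e → ℕ) (𝔮 : Ideal A), 𝔮.IsPrime →
      Ideal.span {∏ j : Comp e, D.io j.f ^ c j} ≤ 𝔮 → D.io e ∈ 𝔮 := by
    intro c 𝔮 hq hle
    have h1 : (∏ j : Comp e, D.io j.f ^ c j) ∈ 𝔮 := hle (Ideal.mem_span_singleton_self _)
    obtain ⟨j, -, hj⟩ := (hq.prod_mem_iff).1 h1
    have h2 := hq.mem_of_pow_mem _ hj
    obtain ⟨t, ht⟩ := j.dvd
    have h3 : D.io e = D.io j.f * D.io t := by rw [← map_mul, ← ht]
    rw [h3]
    exact 𝔮.mul_mem_right _ h2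
  have hspan : Ideal.span {x} = Ideal.span {y} := by
    rw [D.ideal_eq he0 (Ideal.span {x}) (span_ne hx0) (hpr a),
      D.ideal_eq he0 (Ideal.span {y}) (span_ne hy0) (hpr b)]
    refine Finset.prod_congr rfl fun i _ => ?_
    have h1 := congrFun hDxy i
    unfold Dv at h1
    rw [show multiplicity i.1 (Ideal.span {x}) = multiplicity i.1 (Ideal.span {y}) by exact_mod_cast h1]
  obtain ⟨u, hu⟩ := Ideal.span_singleton_eq_span_singleton.1 hspan
  obtain ⟨z, hz⟩ := D.units u u.isUnit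
  have hz0 : z ≠ 0 := by
    rintro rfl
    rw [map_zero] at hz
    exact u.ne_zero hz.symm
  obtain ⟨P, Q, hQ0, hPQ⟩ := hL z
  have hP0 : aeval ω P ≠ 0 := by
    rw [← hPQ]
    exact mul_ne_zero hz0 hQ0
  have hP : P ≠ 0 := by rintro rfl; exact hP0 (map_zero _)
  have hQ : Q ≠ 0 := by rintro rfl; exact hQ0 (map_zero _)
  have key : Hq F e P * e ^ Q.natDegree * ∏ j : Comp e, j.f ^ a j =
      Hq F e Q * e ^ P.natDegree * ∏ j : Comp e, j.f ^ b j := by
    apply D.inj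
    rw [map_mul, map_mul, map_mul, map_mul, map_prod, map_prod, D.hq, D.hq]
    simp only [map_pow]
    rw [← hx, ← hy, ← hPQ, map_mul, hz, ← hu]
    ring
  set dP := P.natDegree with hdP
  set dQ := Q.natDegree with hdQ
  obtain ⟨hHP, hHPd⟩ := Hq_deg hF hFm hem hP
  obtain ⟨hHQ, hHQd⟩ := Hq_deg hF hFm hem hQ
  have hfne' : ∀ j : Comp e, j.f ≠ 0 := fun j => j.prime.ne_zero
  have hpne : ∀ c : Comp e → ℕ, (∏ j : Comp e, j.f ^ c j) ≠ 0 := fun c =>
    Finset.prod_ne_zero_iff.2 fun j _ => pow_ne_zero _ (hfne' j)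
  -- the multiplicities
  have hmult : ∀ j : Comp e, dQ * multiplicity j.f e + a j = dP * multiplicity j.f e + b j := by
    intro j
    have h1 := congrArg (multiplicity j.f) key
    have h2 : ∀ (q : M[X]) (d : ℕ) (c : Comp e → ℕ), q ≠ 0 → Hq F e q ≠ 0 →
        multiplicity j.f (Hq F e q * e ^ d * ∏ j : Comp e, j.f ^ c j) =
          d * multiplicity j.f e + c j := by
      intro q d c hq hH
      rw [mult_mul j.prime (mul_ne_zero hH (pow_ne_zero _ he0)) (hpne c),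
        mult_mul j.prime hH (pow_ne_zero _ he0), mult_zero (not_dvd hrel hq j.prime j.dvd), zero_add,
        mult_prod (p := fun j : Comp e => j.f) (fun j => j.prime) (fun i j hij => Comp.inj i j hij)]
      congr 1
      exact mult_pow j.prime he0 d
    rw [h2 P dQ a hP hHP, h2 Q dP b hQ hHQ] at h1
    exact h1
  -- the degrees
  have hEdeg : e.natDegree = ∑ j : Comp e, multiplicity j.f e * j.f.natDegree := by
    have h1 := assoc_prod (p := fun j : Comp e => j.f) (fun j => j.prime)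
      (fun i j hij => Comp.inj i j hij) e he0 (fun q hq hqe => Comp.cover hq hqe)
    rw [natDegree_eq_of_degree_eq (degree_eq_degree_of_associated h1),
      natDegree_prod _ _ fun j _ => pow_ne_zero _ (hfne' j)]
    exact Finset.sum_congr rfl fun j _ => natDegree_pow _ _
  have hdeg : m * dP + dQ * e.natDegree + ∑ j : Comp e, a j * j.f.natDegree =
      m * dQ + dP * e.natDegree + ∑ j : Comp e, b j * j.f.natDegree := by
    have h1 := congrArg natDegree key
    have h2 : ∀ (q : M[X]) (d : ℕ) (c : Comp e → ℕ), Hq F e q ≠ 0 →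
        (Hq F e q * e ^ d * ∏ j : Comp e, j.f ^ c j).natDegree =
          (Hq F e q).natDegree + d * e.natDegree + ∑ j : Comp e, c j * j.f.natDegree := by
      intro q d c hH
      rw [natDegree_mul (mul_ne_zero hH (pow_ne_zero _ he0)) (hpne c),
        natDegree_mul hH (pow_ne_zero _ he0), natDegree_pow,
        natDegree_prod _ _ fun j _ => pow_ne_zero _ (hfne' j)]
      congr 1
      exact Finset.sum_congr rfl fun j _ => natDegree_pow _ _
    rw [h2 P dQ a hHP, h2 Q dP b hHQ, hHPd, hHQd] at h1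
    exact h1
  have hPQd : dP = dQ := by
    have e1 : ∀ j : Comp e, (a j : ℤ) - b j = ((dP : ℤ) - dQ) * multiplicity j.f e := by
      intro j
      have := hmult j
      have h2 : (dQ : ℤ) * multiplicity j.f e + a j = dP * multiplicity j.f e + b j := by exact_mod_cast this
      linear_combination h2
    have e2 : (∑ j : Comp e, (a j : ℤ) * j.f.natDegree) - ∑ j : Comp e, (b j : ℤ) * j.f.natDegree =
        ((dP : ℤ) - dQ) * e.natDegree := by
      rw [← Finset.sum_sub_distrib, hEdeg]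
      push_cast
      rw [Finset.mul_sum]
      refine Finset.sum_congr rfl fun j _ => ?_
      rw [← sub_mul, e1 j]
      ring
    have e3 : (m : ℤ) * dP + dQ * e.natDegree + ∑ j : Comp e, (a j : ℤ) * j.f.natDegree =
        m * dQ + dP * e.natDegree + ∑ j : Comp e, (b j : ℤ) * j.f.natDegree := by exact_mod_cast hdeg
    have e4 : (m : ℤ) * ((dP : ℤ) - dQ) = 0 := by linear_combination e3 - e2
    have hm' : (m : ℤ) ≠ 0 := by exact_mod_cast hm.ne'
    have := (mul_eq_zero.1 e4).resolve_left hm'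
    omega
  intro j
  have h1 := hmult j
  rw [hPQd] at h1
  rw [hgab j]
  omega

/-- **The rank of the class group.** -/
theorem rank_class (hrel : IsRelPrime F e) (hω : Transcendental M ω) (hF : F.Monic)
    (hFm : F.natDegree = m) (hem : e.natDegree < m)
    (he0 : e ≠ 0) (hm : 0 < m) (hL : ∀ z : K, ∃ p q : M[X], aeval ω q ≠ 0 ∧ z * aeval ω q = aeval ω p)
    (hfib : ∀ r : M[X], Irreducible r → ∀ p p' : M[X][X], Prime p → Prime p' → p ∣ Hq F e r →
      p' ∣ Hq F e r → Associated p p') :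
    Nat.card (Comp e) ≤ Nat.card D.Pr ∧
      Module.rank ℤ (Additive (ClassGroup A)) = ((Nat.card D.Pr - Nat.card (Comp e) : ℕ) : Cardinal) := by
  have hf1 : Finite D.Pr := Pr.finite he0
  have hf2 : Finite (Comp e) := Comp.finite he0
  let _ : Fintype D.Pr := Fintype.ofFinite _
  let _ : Fintype (Comp e) := Fintype.ofFinite _
  have h1 := rank_pres (D.phi he0) (D.phi_surj hF hFm hem he0) D.vv (fun j => by
      refine D.phi_dv he0 (D.io_ne j.prime.ne_zero) fun 𝔮 _ h => ?_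
      obtain ⟨t, ht⟩ := j.dvd
      have h3 : D.io e = D.io j.f * D.io t := by rw [← map_mul, ← ht]
      rw [h3]
      exact 𝔮.mul_mem_right _ h)
    (D.vv_indep hrel hF hFm hem he0 hm hL) (fun x hx => D.phi_ker hω hF hFm hem he0 hfib x hx)
  rw [← Nat.card_eq_fintype_card, ← Nat.card_eq_fintype_card] at h1
  exact h1

end

end Pen

end Pool.Agent.H118.CAB
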