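import Pool.Agent.H118.CAB.Mod
import Pool.Agent.H118.CAB.Rank2

/-!
# The coordinate ring of the generic member of a pencil
-/

set_option autoImplicit false
set_option linter.all false
set_option maxHeartbeats 1000000

open Polynomial

namespace Pool.Agent.H118.CAB

open Pool.Agent.R410.NG (phA phA_apply phA_inj phA_frac gen_line)

section
variable {M : Type} [Field M] {m n : ℕ} {c e : M[X][X]}

/-- the coordinate ring of the member with the parameter `s` -/
abbrev CR (m n : ℕ) (c e : M[X][X]) {K : Type} [Field K] [Algebra M K] (s : K) : Type :=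
  AdjoinRoot (cab m n (bi M K c + C (C s) * bi M K e))

section
variable {K : Type} [Field K] [Algebra M K]

/-- the coordinates -/
noncomputable def cio (m n : ℕ) (c e : M[X][X]) (s : K) : M[X][X] →+* CR m n c e s :=
  (AdjoinRoot.mk _).comp (bi M K)

/-- the constants -/
noncomputable def cka (m n : ℕ) (c e : M[X][X]) (s : K) : K →+* CR m n c e s :=
  (AdjoinRoot.mk _).comp (C.comp C)

theorem c_rel (s : K) : cio m n c e s (cab m n c) + cka m n c e s s * cio m n c e s e = 0 := by
  have h1 := gen_eq (m := m) (n := n) c e s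
  unfold gen at h1
  show AdjoinRoot.mk _ (bi M K (cab m n c)) + AdjoinRoot.mk _ (C (C s)) * AdjoinRoot.mk _ (bi M K e) = 0
  rw [← map_mul, ← map_add, h1]
  exact AdjoinRoot.mk_self

theorem c_compat (s : K) (a : M) : cio m n c e s (C (C a)) = cka m n c e s (algebraMap M K a) := by
  show AdjoinRoot.mk _ (bi M K (C (C a))) = AdjoinRoot.mk _ (C (C (algebraMap M K a)))
  rw [bi_CC]

theorem lift_CR {L : Type} [Field L] (κ : K →+* L) (j : M[X][X] →+* L)
    (hκ : ∀ a, κ (algebraMap M K a) = j (C (C a))) (s : K) (h : j (cab m n c) + κ s * j e = 0) :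
    ∃ Ψ : CR m n c e s →+* L, (∀ g, Ψ (cio m n c e s g) = j g) ∧ (∀ z, Ψ (cka m n c e s z) = κ z) := by
  let i : K[X] →+* L := eval₂RingHom κ (j (C X))
  let Ω : K[X][X] →+* L := eval₂RingHom i (j X)
  have hΩC : ∀ z, Ω (C (C z)) = κ z := by
    intro z
    show eval₂ i (j X) (C (C z)) = κ z
    rw [eval₂_C]
    show eval₂ κ (j (C X)) (C z) = κ z
    rw [eval₂_C]
  have hΩ : ∀ g, Ω (bi M K g) = j g := by
    have h1 : Ω.comp (bi M K) = j := by
      apply Polynomial.ringHom_ext
      · intro p
        have h2 : (Ω.comp (bi M K)).comp C = j.comp C := by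
          apply Polynomial.ringHom_ext
          · intro a
            show Ω (bi M K (C (C a))) = j (C (C a))
            rw [bi_CC, hΩC, hκ]
          · show Ω (bi M K (C X)) = j (C X)
            unfold bi
            rw [coe_mapRingHom, Polynomial.map_C, coe_mapRingHom, Polynomial.map_X]
            show eval₂ i (j X) (C X) = _
            rw [eval₂_C]
            show eval₂ κ (j (C X)) X = _
            rw [eval₂_X]
        exact congrArg (fun θ => θ p) h2
      · show Ω (bi M K X) = j X
        unfold bi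
        rw [coe_mapRingHom, Polynomial.map_X]
        show eval₂ i (j X) X = _
        rw [eval₂_X]
    exact fun g => congrArg (fun θ => θ g) h1
  have h0 : (cab m n (bi M K c + C (C s) * bi M K e)).eval₂ i (j X) = 0 := by
    show Ω (cab m n (bi M K c + C (C s) * bi M K e)) = 0
    rw [← gen_eq]
    unfold gen
    rw [map_add, map_mul, hΩ, hΩ, hΩC]
    exact h
  refine ⟨AdjoinRoot.lift i (j X) h0, fun g => ?_, fun z => ?_⟩
  · show AdjoinRoot.lift i (j X) h0 (AdjoinRoot.mk _ (bi M K g)) = _
    rw [AdjoinRoot.lift_mk]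
    exact hΩ g
  · show AdjoinRoot.lift i (j X) h0 (AdjoinRoot.mk _ (C (C z))) = _
    rw [AdjoinRoot.lift_mk]
    exact hΩC z

end

/-- the Hom polynomial at a prime of the base line -/
theorem fib_prime (hm : 0 < m) (hcop : Nat.Coprime m n) (hc : Low m n (m * n) c)
    (he : Low m n (m * n) e) (hrel : IsRelPrime (cab m n c) e) (r : M[X]) (hr : Irreducible r)
    (p p' : M[X][X]) (hp : Prime p) (hp' : Prime p') (h : p ∣ Hq (cab m n c) e r)
    (h' : p' ∣ Hq (cab m n c) e r) : Associated p p' := by
  classical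
  haveI : Fact (Irreducible r) := ⟨hr⟩
  set F := cab m n c with hF
  obtain ⟨hFm, hFd⟩ := cab_monic hm hc
  let K := AdjoinRoot r
  let s : K := AdjoinRoot.root r
  have hlow : Low m n (m * n) (bi M K c + C (C s) * bi M K e) := gen_low hc he s
  have hdom : IsDomain (CR m n c e s) := adj_isDomain hm hcop hlow
  set θ := cio m n c e s with hθ
  have hker : (RingHom.ker θ).IsPrime := RingHom.ker_isPrime θ
  have hHq0 : Hq F e r ≠ 0 := (Hq_deg hFm hFd (by
    have h1 := low_natDegree hm he
    by_cases h0 : e = 0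
    · rw [h0, natDegree_zero]; exact hm
    · exact (natDegree_lt_iff_degree_lt h0).2 h1) hr.ne_zero).1
  have hmem : Hq F e r ∈ RingHom.ker θ := by
    rw [RingHom.mem_ker, Hq_eq θ (cka m n c e s s) (c_rel s) r]
    have h1 : r.eval₂ (θ.comp (C.comp C)) (cka m n c e s s) = cka m n c e s (r.eval₂ (algebraMap M K) s) := by
      rw [hom_eval₂]
      congr 1
      exact RingHom.ext fun a => c_compat s a
    have h2 : r.eval₂ (algebraMap M K) s = 0 := AdjoinRoot.eval₂_root r
    rw [h1, h2, map_zero, zero_mul]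
  -- the kernel is contained in every `(p)`
  have key : ∀ p : M[X][X], Prime p → p ∣ Hq F e r → ∀ g, θ g = 0 → p ∣ g := by
    intro p hp hpH g hg
    haveI hP : (Ideal.span {p}).IsPrime := (Ideal.span_singleton_prime hp.ne_zero).2 hp
    have hz : ∀ x, Th (Ideal.span {p}) x = 0 ↔ p ∣ x := fun x => by
      rw [th_zero, Ideal.mem_span_singleton]
    have hpe : ¬ p ∣ e := fun h1 => not_dvd hrel hr.ne_zero hp h1 hpH
    have hpe' : Th (Ideal.span {p}) e ≠ 0 := fun h1 => hpe ((hz e).1 h1)
    set t := -Th (Ideal.span {p}) F / Th (Ideal.span {p}) e with ht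
    have h1 : Th (Ideal.span {p}) F + t * Th (Ideal.span {p}) e = 0 := by
      rw [ht, div_mul_cancel₀ _ hpe', add_neg_cancel]
    have h2 : r.eval₂ (algebraMap M (FF (Ideal.span {p}))) t = 0 := by
      have h3 := Hq_eq (Th (Ideal.span {p})) t h1 r
      rw [(hz _).2 hpH] at h3
      have h4 := (mul_eq_zero.1 h3.symm).resolve_right (pow_ne_zero _ hpe')
      have h5 : (Th (Ideal.span {p})).comp (C.comp C) = algebraMap M (FF (Ideal.span {p})) :=
        RingHom.ext fun a => th_CC _ a
      rw [h5] at h4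
      exact h4
    let κ : K →+* FF (Ideal.span {p}) := AdjoinRoot.lift (algebraMap M (FF (Ideal.span {p}))) t h2
    obtain ⟨Ψ, hΨ, -⟩ := lift_CR (m := m) (n := n) (c := c) (e := e) κ (Th (Ideal.span {p})) (fun a => by
      rw [th_CC]
      exact AdjoinRoot.lift_of h2) s (by
      have : κ s = t := AdjoinRoot.lift_root h2
      rw [this]
      exact h1)
    rw [← hz, ← hΨ]
    show Ψ (θ g) = 0
    rw [hg, map_zero]
  obtain ⟨v, hv⟩ := (UniqueFactorizationMonoid.factors_prod hHq0).symm
  have h4 : (UniqueFactorizationMonoid.factors (Hq F e r)).prod ∈ RingHom.ker θ := by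
    rw [← hv]
    exact (RingHom.ker θ).mul_mem_right _ hmem
  obtain ⟨π, hπ, hπK⟩ := (hker.multiset_prod_mem_iff_exists_mem _).1 h4
  have hπp := UniqueFactorizationMonoid.prime_of_factor π hπ
  have a1 : Associated p π := (hp.irreducible.dvd_irreducible_iff_associated hπp.irreducible).1
    (key p hp h π hπK)
  have a2 : Associated p' π := (hp'.irreducible.dvd_irreducible_iff_associated hπp.irreducible).1
    (key p' hp' h' π hπK)
  exact a1.trans a2.symm

variable [CharZero M] {K : Type} [Field K] [CharZero K] [Algebra M K] {ω : K}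

theorem lift_K (hω : Transcendental M ω) (htop : IntermediateField.adjoin M {ω} = ⊤) {L : Type}
    [Field L] [Algebra M L] {w : L} (hw : Transcendental M w) :
    ∃ κ : K →+* L, (∀ a : M, κ (algebraMap M K a) = algebraMap M L a) ∧ κ ω = w := by
  letI : Algebra M[X] K := (phA (M := M) M ω).toAlgebra
  haveI : IsFractionRing M[X] K := phA_frac M hω htop
  let φ : M[X] →+* L := ((aeval w : M[X] →ₐ[M] L) : M[X] →+* L)
  have hφ : Function.Injective φ := transcendental_iff_injective.1 hw
  let κ : K →+* L := IsFractionRing.lift hφ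
  have hκ : ∀ p : M[X], κ (phA (M := M) M ω p) = φ p := fun p => IsFractionRing.lift_algebraMap hφ p
  refine ⟨κ, fun a => ?_, ?_⟩
  · have h1 := hκ (C a)
    rw [phA_apply, Polynomial.map_C, aeval_C] at h1
    refine Eq.trans ?_ (h1.trans ?_)
    · rfl
    · show aeval w (C a) = _
      rw [aeval_C]
  · have h1 := hκ X
    rw [phA_apply, Polynomial.map_X, aeval_X] at h1
    refine h1.trans ?_
    show aeval w X = _
    rw [aeval_X]

/-- the elements of the coordinate ring -/
theorem c_gen (hω : Transcendental M ω) (htop : IntermediateField.adjoin M {ω} = ⊤)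
    (a : CR m n c e ω) : ∃ q : M[X], aeval ω q ≠ 0 ∧ ∃ Q : M[X][X][X],
      cka m n c e ω (aeval ω q) * a = Q.eval₂ (cio m n c e ω) (cka m n c e ω ω) := by
  set io := cio m n c e ω with hio
  set ka := cka m n c e ω with hka
  let T : Set (CR m n c e ω) := {a | ∃ q : M[X], aeval ω q ≠ 0 ∧ ∃ Q : M[X][X][X],
      ka (aeval ω q) * a = Q.eval₂ io (ka ω)}
  have hemb : ∀ q : M[X], (emb q).eval₂ io (ka ω) = ka (aeval ω q) := by
    intro q
    rw [emb_eval, aeval_def, hom_eval₂]
    congr 1
    exact RingHom.ext fun a => c_compat ω a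
  have hadd : ∀ a b, a ∈ T → b ∈ T → a + b ∈ T := by
    rintro a b ⟨q1, h1, Q1, e1⟩ ⟨q2, h2, Q2, e2⟩
    refine ⟨q1 * q2, by rw [map_mul]; exact mul_ne_zero h1 h2, emb q2 * Q1 + emb q1 * Q2, ?_⟩
    rw [eval₂_add, eval₂_mul, eval₂_mul, hemb, hemb, ← e1, ← e2, map_mul, map_mul]
    ring
  have hmul : ∀ a b, a ∈ T → b ∈ T → a * b ∈ T := by
    rintro a b ⟨q1, h1, Q1, e1⟩ ⟨q2, h2, Q2, e2⟩
    refine ⟨q1 * q2, by rw [map_mul]; exact mul_ne_zero h1 h2, Q1 * Q2, ?_⟩
    rw [eval₂_mul, ← e1, ← e2, map_mul, map_mul]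
    ring
  have hio' : ∀ g, io g ∈ T := by
    intro g
    refine ⟨1, by rw [map_one]; exact one_ne_zero, C g, ?_⟩
    rw [map_one, map_one, one_mul, eval₂_C]
  have hka' : ∀ z, ka z ∈ T := by
    intro z
    obtain ⟨p, q, hq, hpq⟩ := gen_line htop z hω
    refine ⟨q, hq, emb p, ?_⟩
    rw [hemb, ← hpq, map_mul, mul_comm]
  have hpow : ∀ a, a ∈ T → ∀ k : ℕ, a ^ k ∈ T := by
    intro a ha k
    induction k with
    | zero =>
      rw [pow_zero, ← map_one io]
      exact hio' 1
    | succ k ih =>
      rw [pow_succ]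
      exact hmul _ _ ih ha
  have hX : AdjoinRoot.mk (cab m n (bi M K c + C (C ω) * bi M K e)) (C X) ∈ T := by
    have h1 := hio' (C X)
    have h2 : io (C X) = AdjoinRoot.mk (cab m n (bi M K c + C (C ω) * bi M K e)) (C X) := by
      show AdjoinRoot.mk _ (bi M K (C X)) = _
      unfold bi
      rw [coe_mapRingHom, Polynomial.map_C, coe_mapRingHom, Polynomial.map_X]
    rw [h2] at h1
    exact h1
  have hY : AdjoinRoot.mk (cab m n (bi M K c + C (C ω) * bi M K e)) X ∈ T := by
    have h1 := hio' X
    have h2 : io X = AdjoinRoot.mk (cab m n (bi M K c + C (C ω) * bi M K e)) X := by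
      show AdjoinRoot.mk _ (bi M K X) = _
      unfold bi
      rw [coe_mapRingHom, Polynomial.map_X]
    rw [h2] at h1
    exact h1
  have hC : ∀ g : K[X], AdjoinRoot.mk (cab m n (bi M K c + C (C ω) * bi M K e)) (C g) ∈ T := by
    intro g
    induction g using Polynomial.induction_on' with
    | add p q hp hq => rw [map_add, map_add]; exact hadd _ _ hp hq
    | monomial k z =>
      rw [← C_mul_X_pow_eq_monomial, map_mul, map_mul, map_pow, map_pow]
      exact hmul _ _ (hka' z) (hpow _ hX k)
  obtain ⟨p, rfl⟩ := AdjoinRoot.mk_surjective a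
  show AdjoinRoot.mk _ p ∈ T
  induction p using Polynomial.induction_on' with
  | add p q hp hq => rw [map_add]; exact hadd _ _ hp hq
  | monomial k z =>
    rw [← C_mul_X_pow_eq_monomial, map_mul, map_pow]
    exact hmul _ _ (hC z) (hpow _ hY k)

theorem c_inj (hω : Transcendental M ω) (htop : IntermediateField.adjoin M {ω} = ⊤) (hm : 0 < m)
    (hc : Low m n (m * n) c) (he : Low m n (m * n) e) (he0 : e ≠ 0) :
    Function.Injective (cio m n c e ω) := by
  set F := cab m n c with hF
  obtain ⟨hFm, hFd⟩ := cab_monic hm hc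
  let L := FractionRing M[X][X]
  let j : M[X][X] →+* L := algebraMap M[X][X] L
  have hj : Function.Injective j := IsFractionRing.injective M[X][X] L
  have hje : j e ≠ 0 := fun h => he0 (hj (by rw [h, map_zero]))
  let _ : Algebra M L := (j.comp (C.comp C)).toAlgebra
  set w := -j F / j e with hw
  have h1 : j F + w * j e = 0 := by
    rw [hw, div_mul_cancel₀ _ hje, add_neg_cancel]
  have hed : e.natDegree < m := (natDegree_lt_iff_degree_lt he0).2 (low_natDegree hm he)
  have hwt : Transcendental M w := by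
    rintro ⟨q, hq, hq2⟩
    have h2 := Hq_eq j w h1 q
    have h3 : q.eval₂ (j.comp (C.comp C)) w = 0 := hq2
    rw [h3, zero_mul] at h2
    exact (Hq_deg hFm hFd hed hq).1 (hj (by rw [h2, map_zero]))
  obtain ⟨κ, hκ, hκω⟩ := lift_K hω htop hwt
  obtain ⟨Ψ, hΨ, -⟩ := lift_CR (m := m) (n := n) (c := c) (e := e) κ j hκ ω (by rw [hκω]; exact h1)
  intro g g' hgg
  apply hj
  rw [← hΨ, ← hΨ, hgg]

/-- the data of the pencil -/
noncomputable def pen (hω : Transcendental M ω) (htop : IntermediateField.adjoin M {ω} = ⊤) (hm : 0 < m)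
    (hn : 0 < n) (hcop : Nat.Coprime m n) (hc : Low m n (m * n) c) (he : Low m n (m * n) e)
    (he0 : e ≠ 0) : Pen M K (CR m n c e ω) (cab m n c) e ω where
  io := cio m n c e ω
  ka := cka m n c e ω
  rel := c_rel ω
  compat := c_compat ω
  gen := c_gen hω htop
  inj := c_inj hω htop hm hc he he0
  units := fun u hu => units_const hm hn hcop (gen_low hc he ω) u hu

end

end Pool.Agent.H118.CAB
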