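import Pool.Agent.H118.CAB.Asym
import Pool.Agent.R410.NG.CBr
import Pool.Agent.R410.NG.Nat2

/-!
# The residue and the natural average for a pencil
-/

set_option autoImplicit false
set_option linter.all false
set_option maxHeartbeats 1000000

open Polynomial NumberField IsDedekindDomain Filter Topology

namespace Pool.Agent.H118.CAB

open Pool.Agent.R410.NG
open Pool.Agent.R410.LW (FG frac_of_closure)
open Pool.Agent.R410.BS (cF)
open Pool.Agent.Y707.PR (HasResidue)

section
variable {R S : Type} [CommRing R] [CommRing S] {m n s : ℕ}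

theorem low_of_map {φ : R →+* S} (hφ : Function.Injective φ) {h : R[X][X]}
    (hh : Low m n s (h.map (mapRingHom φ))) : Low m n s h := fun i j hij => by
  refine hh i j fun h0 => hij ?_
  rw [coeff_map, coe_mapRingHom, coeff_map] at h0
  exact hφ (by rw [h0, map_zero])

/-- a polynomial with the image `Y^m - X^n + ...` is of this kind -/
theorem cab_of_map {φ : R →+* S} (hφ : Function.Injective φ) {G : R[X][X]} {c : S[X][X]}
    (hG : G.map (mapRingHom φ) = cab m n c) (hc : Low m n s c) :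
    ∃ c' : R[X][X], Low m n s c' ∧ G = cab m n c' ∧ c'.map (mapRingHom φ) = c := by
  have h1 : (G - X ^ m + C (X ^ n)).map (mapRingHom φ) = c := by
    rw [Polynomial.map_add, Polynomial.map_sub, hG, Polynomial.map_pow, Polynomial.map_X,
      Polynomial.map_C, coe_mapRingHom, Polynomial.map_pow, Polynomial.map_X]
    unfold cab
    ring
  refine ⟨G - X ^ m + C (X ^ n), low_of_map hφ (h1 ▸ hc), ?_, h1⟩
  unfold cab
  ring

end

section
variable {M : Type} [Field M] {k : Type} [Field k] [NumberField k] [Algebra k M]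

theorem exists_model (hM : FG M) (c e : M[X][X]) :
    ∃ A : Subalgebra ℤ M, Algebra.FiniteType ℤ A ∧
    IsFractionRing A M ∧ (∀ z : 𝓞 k, algebraMap k M z ∈ A) ∧
    ∃ cA eA : A[X][X], bi A M cA = c ∧ bi A M eA = e := by
  classical
  obtain ⟨A, hA, hft, hfr, hAk⟩ := exists_ringk (k := k) hM
    (c.coeffs.biUnion (fun g => g.coeffs) ∪ e.coeffs.biUnion (fun g => g.coeffs))
  have key : ∀ p : M[X][X], (∀ t ∈ p.coeffs.biUnion (fun g => g.coeffs), t ∈ A) →
      ∃ q : A[X][X], bi A M q = p := by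
    intro p hp
    have hl : p ∈ lifts (mapRingHom (algebraMap A M)) := by
      rw [lifts_iff_coeff_lifts]
      intro i
      by_cases h0 : p.coeff i = 0
      · exact ⟨0, by rw [map_zero, h0]⟩
      have hl2 : p.coeff i ∈ lifts (algebraMap A M) := by
        rw [lifts_iff_coeff_lifts]
        intro l
        by_cases h : (p.coeff i).coeff l = 0
        · exact ⟨0, by rw [map_zero, h]⟩
        · exact ⟨⟨_, hp _ (Finset.mem_biUnion.2 ⟨_, coeff_mem_coeffs h0, coeff_mem_coeffs h⟩)⟩, rfl⟩
      obtain ⟨q, hq⟩ := (lifts_iff_set_range _).1 hl2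
      exact ⟨q, hq⟩
    obtain ⟨q, hq⟩ := (lifts_iff_set_range _).1 hl
    exact ⟨q, hq⟩
  obtain ⟨cA, hcA⟩ := key c fun t ht => hA t (Finset.mem_union_left _ ht)
  obtain ⟨eA, heA⟩ := key e fun t ht => hA t (Finset.mem_union_right _ ht)
  exact ⟨A, hft, hfr, hAk, cA, eA, hcA, heA⟩

end

section
variable {M K : Type} [Field M] [Field K] [Algebra M K] {m n : ℕ}

/-- the generic member of the pencil -/
noncomputable def gen (m n : ℕ) (c e : M[X][X]) (ω : K) : K[X][X] :=
  bi M K (cab m n c) + C (C ω) * bi M K e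

theorem gen_eq (c e : M[X][X]) (ω : K) : gen m n c e ω = cab m n (bi M K c + C (C ω) * bi M K e) := by
  unfold gen bi
  rw [coe_mapRingHom, cab_map, cab_add]

theorem gen_low {c e : M[X][X]} (hc : Low m n (m * n) c) (he : Low m n (m * n) e) (ω : K) :
    Low m n (m * n) (bi M K c + C (C ω) * bi M K e) := (hc.map _).add ((he.map _).CC_mul _)

variable [CharZero M] [CharZero K] {ω : K}

theorem enc_gen (hω : Transcendental M ω) (htop : IntermediateField.adjoin M {ω} = ⊤)
    {A : Type} [CommRing A] [IsDomain A] [Algebra A M] [IsFractionRing A M] {c e : M[X][X]}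
    {cA eA : A[X][X]} (hcA : bi A M cA = c) (heA : bi A M eA = e)
    {R : Type} [CommRing R] [Algebra R K] {G : R[X][X]} (hG : bi R K G = gen m n c e ω) (j : Fin m) :
    (enc m n G j).map (algebraMap R K) =
      (enc m n (GB (cab m n cA) eA) j).map (phA (M := M) A ω) := by
  have e1 := congrFun (enc_map (m := m) (n := n) (algebraMap R K) G) j
  have e2 := congrFun (enc_map (m := m) (n := n) (phA (M := M) A ω) (GB (cab m n cA) eA)) j
  rw [e1, e2]
  have hφC : (phA (M := M) A ω).comp C = (algebraMap M K).comp (algebraMap A M) := by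
    refine RingHom.ext fun z => ?_
    show phA (M := M) A ω (C z) = _
    rw [phA_apply, Polynomial.map_C, aeval_C]
    rfl
  have hφX : phA (M := M) A ω X = ω := by
    rw [phA_apply, Polynomial.map_X, aeval_X]
  have hmm : ∀ p : A[X][X], p.map (mapRingHom ((algebraMap M K).comp (algebraMap A M))) =
      bi M K (bi A M p) := by
    intro p
    unfold bi
    rw [coe_mapRingHom, coe_mapRingHom, Polynomial.map_map, mapRingHom_comp]
  have h3 : G.map (mapRingHom (algebraMap R K)) = bi R K G := rfl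
  rw [h3, hG, GB_map, hφC, hφX, hmm, hmm, heA]
  have h4 : bi A M (cab m n cA) = cab m n c := by
    unfold bi
    rw [coe_mapRingHom, cab_map]
    congr 1
  rw [h4]
  rfl

open Classical in
/-- **The residue.** -/
theorem residue_cab {k : Type} [Field k] [NumberField k] [Algebra k M] (hM : FG M) {d : ℕ}
    (hd : Algebra.trdeg ℚ M = d) (hω : Transcendental M ω)
    (htop : IntermediateField.adjoin M {ω} = ⊤) (hm : 0 < m) (hcop : Nat.Coprime m n) {c e : M[X][X]}
    (hc : Low m n (m * n) c) (he : Low m n (m * n) e) (he0 : e ≠ 0)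
    (hrel : IsRelPrime (cab m n c) e)
    (R : Type) [CommRing R] [IsDomain R] [Algebra.FiniteType ℤ R] [Algebra R K] [IsFractionRing R K]
    [Algebra (𝓞 k) R] (hk : ∀ z : 𝓞 k, algebraMap R K (algebraMap (𝓞 k) R z) =
      algebraMap M K (algebraMap k M z)) {G : R[X][X]} (hG : bi R K G = gen m n c e ω)
    {N : R} (hN : N ≠ 0) (S : Finset (HeightOneSpectrum (𝓞 k))) :
    HasResidue S (fun v => avg (wc m n) (enc m n G) N (d + 1) v) 1
      (((Nat.card (Bp (cab m n c) e) : ℤ) - Nat.card (Comp e) : ℤ)) ∧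
    Tendsto (Pool.Agent.W353.FB.average S fun v => avg (wc m n) (enc m n G) N (d + 1) v) atTop
      (𝓝 ((((Nat.card (Bp (cab m n c) e) : ℤ) - Nat.card (Comp e) : ℤ)) : ℝ)) := by
  obtain ⟨A, hft, hfr, hAk, cA, eA, hcA, heA⟩ := exists_model (k := k) hM c e
  have hAinj : Function.Injective (algebraMap A M) := IsFractionRing.injective A M
  have hcL : Low m n (m * n) cA := low_of_map hAinj (by
    have : cA.map (mapRingHom (algebraMap A M)) = c := hcA
    rw [this]
    exact hc)
  have heL : Low m n (m * n) eA := low_of_map hAinj (by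
    have : eA.map (mapRingHom (algebraMap A M)) = e := heA
    rw [this]
    exact he)
  have hFA : bi A M (cab m n cA) = cab m n c := by
    unfold bi
    rw [coe_mapRingHom, cab_map]
    congr 1
  -- the ring of the line
  let φ : A[X] →+* K := phA (M := M) A ω
  let _ : Algebra A[X] K := φ.toAlgebra
  have _ : IsFractionRing A[X] K := phA_frac A hω htop
  have htr := trdeg_line hd hω htop
  let ρ : 𝓞 k →+* A[X] := C.comp (rho hAk)
  let _ : Algebra (𝓞 k) A[X] := ρ.toAlgebra
  have hft' : Algebra.FiniteType ℤ A[X] := inferInstance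
  have hft'' := Pool.Agent.R410.LW.ft_int _ hft'
  obtain ⟨u, hu, h0, B0, N1, hB0, hN1, hbd⟩ := asy_sum (A := A) (M := M) hd hm hcL heL
    (by rw [heA]; exact he0) (by rw [hFA, heA]; exact hrel)
  rw [hFA, heA] at h0
  obtain ⟨κ, iκ, L, iL, nL, α, hα, C0, N0, hC0, hN0, hasy⟩ := h0
  have hw : IsWt (wc m n) (fun _ => n + 1) (cst m n) := isWt_wc hm hcop
  have hgB : ∀ j, (enc m n G j).map (algebraMap R K) =
      (enc m n (GB (cab m n cA) eA) j).map (algebraMap A[X] K) := fun j =>
    enc_gen hω htop hcA heA hG j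
  have hg : ∀ j, (enc m n G j).Monic ∧ (enc m n G j).natDegree = n + 1 := by
    obtain ⟨c', hc', rfl, -⟩ := cab_of_map (φ := algebraMap R K) (IsFractionRing.injective R K)
      (hG.trans (gen_eq c e ω)) (gen_low hc he ω)
    exact fun j => enc_spec hm hc' j
  have hrho : (algebraMap R K).comp (algebraMap (𝓞 k) R) =
      (algebraMap A[X] K).comp (algebraMap (𝓞 k) A[X]) := by
    refine RingHom.ext fun z => ?_
    show algebraMap R K (algebraMap (𝓞 k) R z) = phA (M := M) A ω (C (rho hAk z))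
    rw [hk, phA_apply, Polynomial.map_C, aeval_C]
    rfl
  have hα' : ∑ j, α j = (((Nat.card (Bp (cab m n c) e) : ℤ) - Nat.card (Comp e) : ℤ) : ℝ) := by
    rw [hα]
    push_cast
    rfl
  have hu' : (C u : A[X]) ≠ 0 := C_ne_zero.2 hu
  have hb1 : ∃ (C' : ℝ) (m' : ℕ), 0 ≤ C' ∧ m' ≠ 0 ∧ ∀ (F : Type) [Field F] [Finite F],
      ((m' : ℕ) : F) ≠ 0 → ∀ ψ : 𝓞 k →+* F,
        |sR (wc m n) (algebraMap (𝓞 k) A[X]) (enc m n (GB (cab m n cA) eA)) (C u) F ψ| ≤
          C' * (Nat.card F : ℝ) ^ (d + 1) := by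
    refine ⟨B0, N1 * m, hB0, mul_ne_zero hN1 hm.ne', fun F _ _ hF ψ => ?_⟩
    rw [Nat.cast_mul] at hF
    exact (sR_bound hm hcL heL u (right_ne_zero_of_mul hF) (rho hAk) ψ).trans
      (hbd F (left_ne_zero_of_mul hF))
  have hb2 : ∃ (C' : ℝ) (m' : ℕ), 0 ≤ C' ∧ m' ≠ 0 ∧ ∀ (F : Type) [Field F] [Finite F],
      ((m' : ℕ) : F) ≠ 0 →
      |sT (wc m n) (enc m n (GB (cab m n cA) eA)) (C u) F - cF L α F * (Nat.card F : ℝ) ^ (d + 1)| *
        √(Nat.card F : ℝ) ≤ C' * (Nat.card F : ℝ) ^ (d + 1) :=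
    ⟨C0, N0, hC0, hN0, fun F _ _ hF => hasy F hF⟩
  exact ⟨all_models hw (e := d + 1) htr.le hrho hgB hg hN hu' L α hα' hb1 hb2 S,
    natural_models hw (e := d + 1) htr.le hrho hgB hg hN hu' L α hα' hb1 hb2 S⟩

end

end Pool.Agent.H118.CAB
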