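import Pool.Agent.H118.CAB.Hom
import Pool.Agent.H118.CAB.Fac
import Pool.Agent.R410.CB.Dd

/-!
# The class group of the generic member of a pencil
-/

set_option autoImplicit false

open Polynomial

namespace Pool.Agent.H118.CAB

/-- The coordinate ring `A` over `K = M(ω)` of the curve `F + ω e = 0`, `F, e ∈ M[X][Y]`. -/
structure Pen (M K A : Type) [Field M] [Field K] [Algebra M K] [CommRing A] (F e : M[X][X]) (ω : K)
    where
  io : M[X][X] →+* A
  ka : K →+* A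
  rel : io F + ka ω * io e = 0
  compat : ∀ a : M, io (C (C a)) = ka (algebraMap M K a)
  gen : ∀ a : A, ∃ q : M[X], aeval ω q ≠ 0 ∧ ∃ Q : M[X][X][X],
    ka (aeval ω q) * a = Q.eval₂ io (ka ω)
  inj : Function.Injective io
  units : ∀ u : A, IsUnit u → ∃ z : K, ka z = u

namespace Pen

section
variable {M K A : Type} [Field M] [Field K] [Algebra M K] [CommRing A] {F e : M[X][X]} {ω : K}
  (D : Pen M K A F e ω)

theorem ev (q : M[X]) : q.eval₂ (D.io.comp (C.comp C)) (D.ka ω) = D.ka (aeval ω q) := by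
  rw [aeval_def, hom_eval₂]
  congr 1
  ext a
  exact D.compat a

theorem hq (q : M[X]) : D.io (Hq F e q) = D.ka (aeval ω q) * D.io e ^ q.natDegree := by
  rw [Hq_eq D.io (D.ka ω) D.rel, D.ev]

theorem clear (a : A) : ∃ q : M[X], aeval ω q ≠ 0 ∧ ∃ (G : M[X][X]) (d : ℕ),
    D.io G = D.ka (aeval ω q) * a * D.io e ^ d := by
  obtain ⟨q, hq, Q, hQ⟩ := D.gen a
  refine ⟨q, hq, HQ F e Q Q.natDegree, Q.natDegree, ?_⟩
  rw [HQ_eq D.io (D.ka ω) D.rel Q le_rfl, hQ]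

theorem ka_unit {z : K} (hz : z ≠ 0) : IsUnit (D.ka z) := (isUnit_iff_ne_zero.2 hz).map D.ka

theorem io_ne [IsDomain A] {g : M[X][X]} (hg : g ≠ 0) : D.io g ≠ 0 := by
  intro h
  exact hg (D.inj (by rw [h, map_zero]))

end

section
variable {M K A : Type} [Field M] [Field K] [Algebra M K] [CommRing A] [IsDedekindDomain A]
  {F e : M[X][X]} {ω : K} (D : Pen M K A F e ω) {m : ℕ}

/-- the ideal of the elements which are divisible by `π` after inverting `e` -/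
def sat (π : M[X][X]) : Ideal A where
  carrier := {a | ∃ N : ℕ, D.io π ∣ D.io e ^ N * a}
  zero_mem' := ⟨0, by rw [mul_zero]; exact dvd_zero _⟩
  add_mem' := by
    rintro a b ⟨N, hN⟩ ⟨N', hN'⟩
    refine ⟨N + N', ?_⟩
    have e1 : D.io e ^ (N + N') * (a + b) = D.io e ^ N' * (D.io e ^ N * a) +
        D.io e ^ N * (D.io e ^ N' * b) := by
      rw [pow_add]
      ring
    rw [e1]
    exact dvd_add (hN.mul_left _) (hN'.mul_left _)
  smul_mem' := by
    rintro c a ⟨N, hN⟩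
    refine ⟨N, ?_⟩
    have e1 : D.io e ^ N * (c • a) = c * (D.io e ^ N * a) := by
      rw [smul_eq_mul]
      ring
    rw [e1]
    exact hN.mul_left _

theorem sat_fg (π : M[X][X]) (I : Ideal A) (hI : I ≤ D.sat π) :
    ∃ N : ℕ, Ideal.span {D.io e} ^ N * I ≤ Ideal.span {D.io π} := by
  obtain ⟨S, hS⟩ := (isNoetherianRing_iff_ideal_fg A).1 inferInstance I
  have h1 : ∀ x ∈ S, ∃ N : ℕ, D.io π ∣ D.io e ^ N * x := by
    intro x hx
    apply hI
    rw [← hS]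
    exact Ideal.subset_span hx
  choose! N hN using h1
  refine ⟨∑ x ∈ S, N x, ?_⟩
  rw [Ideal.span_singleton_pow, ← hS, Ideal.span_mul_span', Ideal.span_le]
  rintro z ⟨y, hy, x, hx, rfl⟩
  rw [Set.mem_singleton_iff] at hy
  rw [hy]
  have h2 : N x ≤ ∑ x ∈ S, N x := Finset.single_le_sum (f := N) (fun _ _ => Nat.zero_le _) hx
  rw [SetLike.mem_coe, Ideal.mem_span_singleton]
  obtain ⟨k, hk⟩ := Nat.exists_eq_add_of_le h2
  have e1 : D.io e ^ (∑ x ∈ S, N x) * x = D.io e ^ k * (D.io e ^ N x * x) := by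
    rw [hk, pow_add]
    ring
  show D.io π ∣ D.io e ^ (∑ x ∈ S, N x) * x
  rw [e1]
  exact (hN x hx).mul_left _

/-- **The primes outside the base points are principal up to the primes over them.** -/
theorem prime_class (hF : F.Monic) (hFm : F.natDegree = m) (hem : e.natDegree < m) (he0 : e ≠ 0)
    (𝔮 : Ideal A) (hq : 𝔮.IsPrime) (hbot : 𝔮 ≠ ⊥) (he : D.io e ∉ 𝔮) :
    ∃ (π : M[X][X]) (J : Ideal A) (N : ℕ), π ≠ 0 ∧ Ideal.span {D.io π} = 𝔮 * J ∧
      J ∣ Ideal.span {D.io e} ^ N := by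
  obtain ⟨a, ha, ha0⟩ := Submodule.exists_mem_ne_zero_of_ne_bot hbot
  obtain ⟨q, hq0, G, d, hG⟩ := D.clear a
  have hG0 : G ≠ 0 := by
    rintro rfl
    rw [map_zero] at hG
    exact (mul_ne_zero (mul_ne_zero (D.ka_unit hq0).ne_zero ha0) (pow_ne_zero _ (D.io_ne he0))) hG.symm
  have hcp : (𝔮.comap D.io).IsPrime := Ideal.comap_isPrime D.io 𝔮
  have hGm : G ∈ 𝔮.comap D.io := by
    rw [Ideal.mem_comap, hG]
    exact 𝔮.mul_mem_right _ (𝔮.mul_mem_left _ ha)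
  obtain ⟨π, hπm, hπ⟩ := Ideal.IsPrime.exists_mem_prime_of_ne_bot hcp (fun h => hG0 (by
    rw [h] at hGm
    exact hGm))
  rw [Ideal.mem_comap] at hπm
  have hπe : ¬ π ∣ e := by
    rintro ⟨z, hz⟩
    apply he
    have h1 : D.io e = D.io π * D.io z := by rw [← map_mul, ← hz]
    rw [h1]
    exact 𝔮.mul_mem_right _ hπm
  have hπH : ∀ q : M[X], aeval ω q ≠ 0 → ¬ π ∣ Hq F e q := by
    rintro q hq0 ⟨z, hz⟩
    have h1 : D.io (Hq F e q) ∈ 𝔮 := by
      rw [hz, map_mul]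
      exact 𝔮.mul_mem_right _ hπm
    rw [D.hq] at h1
    rcases hq.mem_or_mem h1 with h2 | h2
    · exact hq.ne_top (Ideal.eq_top_of_isUnit_mem _ h2 (D.ka_unit hq0))
    · exact he (hq.mem_of_pow_mem _ h2)
  have hsle : D.sat π ≤ 𝔮 := by
    rintro x ⟨N, z, hz⟩
    have h1 : D.io e ^ N * x ∈ 𝔮 := by
      rw [hz]
      exact 𝔮.mul_mem_right _ hπm
    rcases hq.mem_or_mem h1 with h2 | h2
    · exact absurd (hq.mem_of_pow_mem _ h2) he
    · exact h2
  have hsp : (D.sat π).IsPrime := by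
    refine ⟨fun h => hq.ne_top (top_le_iff.1 (h ▸ hsle)), ?_⟩
    rintro x y ⟨N, z, hz⟩
    obtain ⟨q1, hq1, G1, d1, hG1⟩ := D.clear x
    obtain ⟨q2, hq2, G2, d2, hG2⟩ := D.clear y
    obtain ⟨q3, hq3, G3, d3, hG3⟩ := D.clear z
    have key : G1 * G2 * Hq F e q3 * e ^ (N + d3 + q1.natDegree + q2.natDegree) =
        π * (G3 * Hq F e q1 * Hq F e q2 * e ^ (d1 + d2 + q3.natDegree)) := by
      apply D.inj
      simp only [map_mul, map_pow, hG1, hG2, hG3, D.hq]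
      have e1 : D.io e ^ (N + d3 + q1.natDegree + q2.natDegree) =
          D.io e ^ N * D.io e ^ d3 * D.io e ^ q1.natDegree * D.io e ^ q2.natDegree := by
        rw [pow_add, pow_add, pow_add]
      have e2 : D.io e ^ (d1 + d2 + q3.natDegree) =
          D.io e ^ d1 * D.io e ^ d2 * D.io e ^ q3.natDegree := by
        rw [pow_add, pow_add]
      rw [e1, e2]
      linear_combination (D.ka (aeval ω q1) * D.ka (aeval ω q2) * D.ka (aeval ω q3) *
        D.io e ^ d1 * D.io e ^ d2 * D.io e ^ d3 * D.io e ^ q1.natDegree * D.io e ^ q2.natDegree *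
        D.io e ^ q3.natDegree) * hz
    have h1 : π ∣ G1 * G2 * Hq F e q3 * e ^ (N + d3 + q1.natDegree + q2.natDegree) := ⟨_, key⟩
    have hback : ∀ (x : A) (q : M[X]) (G : M[X][X]) (d : ℕ), aeval ω q ≠ 0 →
        D.io G = D.ka (aeval ω q) * x * D.io e ^ d → π ∣ G → x ∈ D.sat π := by
      rintro x q G d hq hG ⟨t, ht⟩
      refine ⟨d, ?_⟩
      obtain ⟨u, hu⟩ := D.ka_unit hq
      refine ⟨↑u⁻¹ * D.io t, ?_⟩
      have h2 : D.io π * D.io t = ↑u * x * D.io e ^ d := by rw [hu, ← hG, ht, map_mul]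
      have h3 : (↑u⁻¹ : A) * ↑u = 1 := u.inv_mul
      linear_combination (-(↑u⁻¹ : A)) * h2 - (x * D.io e ^ d) * h3
    rcases hπ.dvd_or_dvd h1 with h2 | h2
    · rcases hπ.dvd_or_dvd h2 with h3 | h3
      · rcases hπ.dvd_or_dvd h3 with h4 | h4
        · exact Or.inl (hback x q1 G1 d1 hq1 hG1 h4)
        · exact Or.inr (hback y q2 G2 d2 hq2 hG2 h4)
      · exact absurd h3 (hπH q3 hq3)
    · exact absurd (hπ.dvd_of_dvd_pow h2) hπe
  have hsbot : D.sat π ≠ ⊥ := by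
    intro h
    have h1 : D.io π ∈ D.sat π := ⟨0, by rw [pow_zero, one_mul]⟩
    rw [h] at h1
    exact D.io_ne hπ.ne_zero h1
  have hseq : D.sat π = 𝔮 := (hsp.isMaximal hsbot).eq_of_le hq.ne_top hsle
  obtain ⟨N, hN⟩ := D.sat_fg π 𝔮 hseq.ge
  have h1 : 𝔮 ∣ Ideal.span {D.io π} := by
    rw [Ideal.dvd_iff_le, Ideal.span_le]
    rintro z hz
    rw [Set.mem_singleton_iff] at hz
    rw [hz]
    exact hπm
  obtain ⟨J, hJ⟩ := h1
  refine ⟨π, J, N, hπ.ne_zero, hJ, ?_⟩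
  rw [hJ] at hN
  have h2 : 𝔮 * J ∣ Ideal.span {D.io e} ^ N * 𝔮 := Ideal.dvd_iff_le.2 hN
  rw [mul_comm _ 𝔮] at h2
  exact (mul_dvd_mul_iff_left hbot).1 h2

end

end Pen

end Pool.Agent.H118.CAB
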