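import Pool.Agent.H118.CAB.Pen

/-!
# The rank of the class group of the generic member of a pencil
-/

set_option autoImplicit false

open Polynomial

namespace Pool.Agent.H118.CAB

/-- the elements with a nonzero multiple in the submodule -/
def satZ {G : Type} [AddCommGroup G] (N : Submodule ℤ G) : Submodule ℤ G where
  carrier := {x | ∃ n : ℕ, n ≠ 0 ∧ (n : ℤ) • x ∈ N}
  zero_mem' := ⟨1, one_ne_zero, by rw [smul_zero]; exact N.zero_mem⟩
  add_mem' := by
    rintro x y ⟨n, hn, hx⟩ ⟨k, hk, hy⟩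
    refine ⟨n * k, mul_ne_zero hn hk, ?_⟩
    rw [smul_add]
    push_cast
    refine N.add_mem ?_ ?_
    · rw [mul_comm, mul_smul]
      exact N.smul_mem _ hx
    · rw [mul_smul]
      exact N.smul_mem _ hy
  smul_mem' := by
    rintro c x ⟨n, hn, hx⟩
    refine ⟨n, hn, ?_⟩
    rw [smul_comm]
    exact N.smul_mem _ hx

theorem le_satZ {G : Type} [AddCommGroup G] (N : Submodule ℤ G) : N ≤ satZ N := fun x hx =>
  ⟨1, one_ne_zero, by rw [Nat.cast_one, one_smul]; exact hx⟩

theorem satZ_sat {G : Type} [AddCommGroup G] (N : Submodule ℤ G) {x : G} {n : ℕ} (hn : n ≠ 0)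
    (h : (n : ℤ) • x ∈ satZ N) : x ∈ satZ N := by
  obtain ⟨k, hk, h1⟩ := h
  refine ⟨k * n, mul_ne_zero hk hn, ?_⟩
  push_cast
  rw [mul_smul]
  exact h1

/-- the components of `e = 0` -/
def Comp {M : Type} [Field M] (e : M[X][X]) : Type :=
  {𝔮 : Ideal M[X][X] // ∃ f, Irreducible f ∧ f ∣ e ∧ 𝔮 = Ideal.span {f}}

section
variable {M : Type} [Field M] {e : M[X][X]}

noncomputable def Comp.f (j : Comp e) : M[X][X] := j.2.choose

theorem Comp.irr (j : Comp e) : Irreducible j.f := j.2.choose_spec.1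
theorem Comp.dvd (j : Comp e) : j.f ∣ e := j.2.choose_spec.2.1
theorem Comp.eq (j : Comp e) : j.1 = Ideal.span {j.f} := j.2.choose_spec.2.2
theorem Comp.prime (j : Comp e) : Prime j.f := j.irr.prime

theorem Comp.inj (i j : Comp e) (h : i.f ∣ j.f) : i = j := by
  have h1 : Associated i.f j.f := (i.irr.dvd_irreducible_iff_associated j.irr).1 h
  apply Subtype.ext
  rw [i.eq, j.eq]
  exact Ideal.span_singleton_eq_span_singleton.2 h1

theorem Comp.cover {g : M[X][X]} (hg : Prime g) (h : g ∣ e) : ∃ j : Comp e, Associated g j.f := by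
  refine ⟨⟨Ideal.span {g}, g, hg.irreducible, h, rfl⟩, ?_⟩
  have h1 := Comp.eq (⟨Ideal.span {g}, g, hg.irreducible, h, rfl⟩ : Comp e)
  exact Ideal.span_singleton_eq_span_singleton.1 h1

theorem Comp.finite (he : e ≠ 0) : Finite (Comp e) := by
  classical
  have h1 : ∀ j : Comp e, ∃ g ∈ UniqueFactorizationMonoid.factors e, Associated j.f g := fun j =>
    UniqueFactorizationMonoid.exists_mem_factors_of_dvd he j.irr j.dvd
  choose g hg hgj using h1
  refine Finite.of_injective (β := (UniqueFactorizationMonoid.factors e).toFinset)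
    (fun j => ⟨g j, Multiset.mem_toFinset.2 (hg j)⟩) ?_
  intro i j hij
  have h2 : g i = g j := congrArg Subtype.val hij
  refine Comp.inj i j ?_
  have h3 : Associated i.f j.f := (hgj i).trans (h2 ▸ (hgj j).symm)
  exact h3.dvd

end

namespace Pen

section
variable {M K A : Type} [Field M] [Field K] [Algebra M K] [CommRing A] [IsDedekindDomain A]
  {F e : M[X][X]} {ω : K} (D : Pen M K A F e ω) {m : ℕ}

/-- the primes over the base points -/
def Pr : Type := {𝔭 : Ideal A // 𝔭.IsPrime ∧ D.io e ∈ 𝔭}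

variable {D}

theorem Pr.ne (he0 : e ≠ 0) (i : D.Pr) : i.1 ≠ ⊥ := by
  intro h
  have h1 := i.2.2
  rw [h] at h1
  exact D.io_ne he0 h1

theorem Pr.prime (he0 : e ≠ 0) (i : D.Pr) : Prime i.1 := Ideal.prime_of_isPrime (i.ne he0) i.2.1

theorem Pr.inj (he0 : e ≠ 0) (i j : D.Pr) (h : i.1 ∣ j.1) : i = j := by
  apply Subtype.ext
  rw [Ideal.dvd_iff_le] at h
  exact ((j.2.1.isMaximal (j.ne he0)).eq_of_le i.2.1.ne_top h).symm

theorem Pr.finite (he0 : e ≠ 0) : Finite D.Pr := by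
  have h1 : (Ideal.span {D.io e} : Ideal A) ≠ 0 := by
    rw [Ideal.zero_eq_bot, Ne, Ideal.span_singleton_eq_bot]
    exact D.io_ne he0
  have h2 := Ideal.finite_factors h1
  have h3 : Finite {v : IsDedekindDomain.HeightOneSpectrum A | v.asIdeal ∣ Ideal.span {D.io e}} := h2
  refine Finite.of_injective (β := {v : IsDedekindDomain.HeightOneSpectrum A |
    v.asIdeal ∣ Ideal.span {D.io e}}) (fun i => ⟨⟨i.1, i.2.1, i.ne he0⟩, ?_⟩) ?_
  · rw [Set.mem_ofPred_eq]
    exact Ideal.dvd_span_singleton.2 i.2.2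
  · intro i j hij
    apply Subtype.ext
    exact congrArg (fun v => v.1.asIdeal) hij

variable (D)

/-- the multiplicities of the primes over the base points -/
noncomputable def Dv (a : A) : D.Pr → ℤ := fun i => (multiplicity i.1 (Ideal.span {a}) : ℤ)

theorem span_ne {a : A} (ha : a ≠ 0) : (Ideal.span {a} : Ideal A) ≠ 0 := by
  rw [Ideal.zero_eq_bot, Ne, Ideal.span_singleton_eq_bot]
  exact ha

theorem Dv_mul (he0 : e ≠ 0) {a b : A} (ha : a ≠ 0) (hb : b ≠ 0) : D.Dv (a * b) = D.Dv a + D.Dv b := by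
  funext i
  unfold Dv
  rw [← Ideal.span_singleton_mul_span_singleton, mult_mul (i.prime he0) (span_ne ha) (span_ne hb)]
  push_cast
  rfl

theorem Dv_unit (he0 : e ≠ 0) {a : A} (ha : IsUnit a) : D.Dv a = 0 := by
  funext i
  unfold Dv
  rw [mult_zero, Nat.cast_zero]
  · rfl
  · intro h
    rw [Ideal.span_singleton_eq_top.2 ha] at h
    exact (i.prime he0).not_unit (isUnit_of_dvd_one (by rwa [Ideal.one_eq_top]))

theorem Dv_pow (he0 : e ≠ 0) {a : A} (ha : a ≠ 0) (k : ℕ) : D.Dv (a ^ k) = (k : ℤ) • D.Dv a := by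
  induction k with
  | zero => rw [pow_zero, D.Dv_unit he0 isUnit_one, Nat.cast_zero, zero_smul]
  | succ k ih =>
    rw [pow_succ, D.Dv_mul he0 (pow_ne_zero _ ha) ha, ih]
    push_cast
    rw [add_smul, one_smul]

theorem Dv_assoc (he0 : e ≠ 0) {a b : A} (ha : a ≠ 0) (h : Associated a b) : D.Dv a = D.Dv b := by
  obtain ⟨u, rfl⟩ := h
  rw [D.Dv_mul he0 ha u.ne_zero, D.Dv_unit he0 u.isUnit, add_zero]

theorem Dv_prod (he0 : e ≠ 0) {J : Type} (s : Finset J) (f : J → A) (k : J → ℕ) (hf : ∀ j, f j ≠ 0) :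
    D.Dv (∏ j ∈ s, f j ^ k j) = ∑ j ∈ s, (k j : ℤ) • D.Dv (f j) := by
  classical
  induction s using Finset.induction_on with
  | empty => rw [Finset.prod_empty, Finset.sum_empty, D.Dv_unit he0 isUnit_one]
  | insert j s hj ih =>
    rw [Finset.prod_insert hj, Finset.sum_insert hj, D.Dv_mul he0 (pow_ne_zero _ (hf j))
      (Finset.prod_ne_zero_iff.2 fun i _ => pow_ne_zero _ (hf i)), D.Dv_pow he0 (hf j), ih]

/-- the relations -/
noncomputable def vv (j : Comp e) : D.Pr → ℤ := D.Dv (D.io j.f)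

/-- the saturation of the relations -/
def NN : Submodule ℤ (D.Pr → ℤ) := satZ (Submodule.span ℤ (Set.range D.vv))

theorem dv_of_dvd_e (he0 : e ≠ 0) {g : M[X][X]} (hg : Prime g) (h : g ∣ e) : D.Dv (D.io g) ∈ D.NN := by
  obtain ⟨j, hj⟩ := Comp.cover hg h
  rw [D.Dv_assoc he0 (D.io_ne hg.ne_zero) (hj.map D.io)]
  exact le_satZ _ (Submodule.subset_span ⟨j, rfl⟩)

theorem dv_prod (he0 : e ≠ 0) (G : M[X][X]) (hG : G ≠ 0)
    (h : ∀ p, Prime p → p ∣ G → D.Dv (D.io p) ∈ D.NN) : D.Dv (D.io G) ∈ D.NN := by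
  induction G using UniqueFactorizationMonoid.induction_on_prime with
  | h₁ => exact absurd rfl hG
  | h₂ x hx =>
    rw [D.Dv_unit he0 (hx.map D.io)]
    exact Submodule.zero_mem _
  | h₃ a p ha hp ih =>
    rw [map_mul, D.Dv_mul he0 (D.io_ne hp.ne_zero) (D.io_ne ha)]
    exact Submodule.add_mem _ (h p hp (dvd_mul_right p a)) (ih ha fun q hq hqa => h q hq (hqa.mul_left p))

theorem dv_e (he0 : e ≠ 0) : D.Dv (D.io e) ∈ D.NN :=
  D.dv_prod he0 e he0 fun _ hp h => D.dv_of_dvd_e he0 hp h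

include D in
theorem Hq_mul {q r : M[X]} (hq : q ≠ 0) (hr : r ≠ 0) :
    Hq F e (q * r) = Hq F e q * Hq F e r := by
  apply D.inj
  rw [map_mul, D.hq, D.hq, D.hq, map_mul, map_mul, natDegree_mul hq hr, pow_add]
  ring

theorem dv_fibre (hω : Transcendental M ω) (hF : F.Monic) (hFm : F.natDegree = m) (hem : e.natDegree < m)
    (he0 : e ≠ 0)
    (hfib : ∀ r : M[X], Irreducible r → ∀ p p' : M[X][X], Prime p → Prime p' → p ∣ Hq F e r →
      p' ∣ Hq F e r → Associated p p') (q : M[X]) (hq : q ≠ 0) :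
    ∀ p : M[X][X], Prime p → p ∣ Hq F e q → D.Dv (D.io p) ∈ D.NN := by
  have hne : ∀ q : M[X], q ≠ 0 → aeval ω q ≠ 0 := fun q hq h =>
    hω ⟨q, hq, h⟩
  induction q using UniqueFactorizationMonoid.induction_on_prime with
  | h₁ => exact absurd rfl hq
  | h₂ x hx =>
    intro p hp h
    exfalso
    have h1 : x.natDegree = 0 := natDegree_eq_zero_of_isUnit hx
    have h2 : IsUnit (D.io (Hq F e x)) := by
      rw [D.hq, h1, pow_zero, mul_one]
      exact D.ka_unit (hne x hx.ne_zero)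
    obtain ⟨c, hc⟩ : ∃ c : M, x = C c := ⟨x.coeff 0, eq_C_of_natDegree_eq_zero h1⟩
    have h3 : Hq F e x = C (C c) := by
      apply D.inj
      rw [D.hq, h1, pow_zero, mul_one, hc, aeval_C, D.compat]
    have h4 : IsUnit (Hq F e x) := by
      rw [h3, isUnit_C, isUnit_C]
      refine isUnit_iff_ne_zero.2 ?_
      rintro rfl
      rw [C_0] at hc
      exact hq hc
    exact hp.not_unit (isUnit_of_dvd_unit h h4)
  | h₃ a r ha hr ih =>
    intro p hp h
    rw [D.Hq_mul hr.ne_zero ha] at h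
    rcases hp.dvd_or_dvd h with h1 | h1
    · have hH0 := (Hq_deg hF hFm hem hr.ne_zero).1
      have h2 := assoc_prod (I := Unit) (p := fun _ => p) (fun _ => hp) (fun _ _ _ => rfl) (Hq F e r) hH0
        (fun s hs hsd => ⟨(), hfib r hr.irreducible s p hs hp hsd h1⟩)
      rw [Fintype.prod_unique] at h2
      set k := multiplicity p (Hq F e r) with hk
      have hk0 : k ≠ 0 := mult_pos hp hH0 h1
      have h3 := D.Dv_assoc he0 (D.io_ne hH0) (h2.map D.io)
      rw [map_pow, D.Dv_pow he0 (D.io_ne hp.ne_zero), D.hq,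
        D.Dv_mul he0 (D.ka_unit (hne r hr.ne_zero)).ne_zero (pow_ne_zero _ (D.io_ne he0)),
        D.Dv_unit he0 (D.ka_unit (hne r hr.ne_zero)), zero_add, D.Dv_pow he0 (D.io_ne he0)] at h3
      refine satZ_sat _ hk0 ?_
      rw [← h3]
      exact Submodule.smul_mem _ _ (D.dv_e he0)
    · exact ih ha p hp h1

end

end Pen

end Pool.Agent.H118.CAB
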