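import Mathlib

/-!
# The coordinate rings of the curves `Y^m - X^n + (terms of lower weight) = 0`
-/

set_option autoImplicit false

open Polynomial

namespace Pool.Agent.H118.CAB

/-- All the monomials `X^j Y^i` of `h` have the weight `m j + n i < s`. -/
def Low {R : Type} [CommRing R] (m n s : ℕ) (h : R[X][X]) : Prop :=
  ∀ i j, (h.coeff i).coeff j ≠ 0 → m * j + n * i < s

/-- The polynomial `Y^m - X^n + h`. -/
noncomputable def cab {R : Type} [CommRing R] (m n : ℕ) (h : R[X][X]) : R[X][X] :=
  X ^ m - C (X ^ n) + h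

section
variable {R : Type} [CommRing R] {m n s t : ℕ} {g h : R[X][X]}

theorem Low.mono (hg : Low m n s g) (hst : s ≤ t) : Low m n t g := fun i j hij => by
  have := hg i j hij
  omega

theorem Low.add (hg : Low m n s g) (hh : Low m n s h) : Low m n s (g + h) := fun i j hij => by
  by_cases h1 : (g.coeff i).coeff j = 0
  · by_cases h2 : (h.coeff i).coeff j = 0
    · exact absurd (by rw [coeff_add, coeff_add, h1, h2, add_zero]) hij
    · exact hh i j h2
  · exact hg i j h1

theorem Low.neg (hg : Low m n s g) : Low m n s (-g) := fun i j hij => by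
  refine hg i j fun h1 => hij ?_
  rw [coeff_neg, coeff_neg, h1, neg_zero]

theorem Low.sub (hg : Low m n s g) (hh : Low m n s h) : Low m n s (g - h) := by
  rw [sub_eq_add_neg]
  exact hg.add hh.neg

theorem Low.zero : Low m n s (0 : R[X][X]) := fun i j hij => by
  rw [coeff_zero, coeff_zero] at hij
  exact absurd rfl hij

theorem Low.mul (hg : Low m n (s + 1) g) (hh : Low m n t h) : Low m n (s + t) (g * h) := by
  intro i j hij
  rw [coeff_mul, finsetSum_coeff] at hij
  obtain ⟨x, hx, hx1⟩ := Finset.exists_ne_zero_of_sum_ne_zero hij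
  rw [coeff_mul] at hx1
  obtain ⟨y, hy, hy1⟩ := Finset.exists_ne_zero_of_sum_ne_zero hx1
  rw [Finset.HasAntidiagonal.mem_antidiagonal] at hx hy
  have h1 := hg x.1 y.1 (left_ne_zero_of_mul hy1)
  have h2 := hh x.2 y.2 (right_ne_zero_of_mul hy1)
  have e1 : m * j = m * y.1 + m * y.2 := by rw [← hy, mul_add]
  have e2 : n * i = n * x.1 + n * x.2 := by rw [← hx, mul_add]
  omega

theorem Low.mul' (hg : Low m n s g) (hh : Low m n t h) : Low m n (s + t) (g * h) :=
  Low.mul (hg.mono (Nat.le_succ s)) hh

theorem Low.map {R' : Type} [CommRing R'] (hg : Low m n s g) (φ : R →+* R') :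
    Low m n s (g.map (mapRingHom φ)) := fun i j hij => by
  refine hg i j fun h1 => hij ?_
  rw [coeff_map, coe_mapRingHom, coeff_map, h1, map_zero]

theorem coeff_mono (α : R) (i j k l : ℕ) : ((C (C α * X ^ j) * X ^ i : R[X][X]).coeff k).coeff l =
    if k = i ∧ l = j then α else 0 := by
  rw [coeff_C_mul_X_pow]
  by_cases h1 : k = i
  · rw [if_pos h1, coeff_C_mul_X_pow]
    by_cases h2 : l = j
    · rw [if_pos h2, if_pos ⟨h1, h2⟩]
    · rw [if_neg h2, if_neg fun h => h2 h.2]
  · rw [if_neg h1, coeff_zero, if_neg fun h => h1 h.1]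

theorem Low.monom (α : R) (i j : ℕ) (hs : m * j + n * i < s) :
    Low m n s (C (C α * X ^ j) * X ^ i) := fun k l hkl => by
  rw [coeff_mono] at hkl
  by_cases h : k = i ∧ l = j
  · rw [h.1, h.2]
    exact hs
  · exact absurd (if_neg h) hkl

theorem exists_low (m n : ℕ) (g : R[X][X]) : ∃ s, Low m n s g := by
  refine ⟨∑ i ∈ g.support, (m * (g.coeff i).natDegree + n * i) + 1, fun i j hij => ?_⟩
  have h1 : g.coeff i ≠ 0 := fun h => hij (by rw [h, coeff_zero])
  have h2 : j ≤ (g.coeff i).natDegree := le_natDegree_of_ne_zero hij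
  have h3 : m * (g.coeff i).natDegree + n * i ≤
      ∑ i ∈ g.support, (m * (g.coeff i).natDegree + n * i) :=
    Finset.single_le_sum (f := fun i => m * (g.coeff i).natDegree + n * i)
      (fun _ _ => Nat.zero_le _) (mem_support_iff.2 h1)
  have h4 : m * j ≤ m * (g.coeff i).natDegree := Nat.mul_le_mul_left _ h2
  omega

theorem low_zero (hg : Low m n 0 g) : g = 0 := by
  ext i j
  rw [coeff_zero, coeff_zero]
  by_contra h
  exact absurd (hg i j h) (Nat.not_lt_zero _)

/-- the largest weight is `s` -/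
def IsTop (m n : ℕ) (g : R[X][X]) (s : ℕ) : Prop :=
  Low m n (s + 1) g ∧ ∃ i j, (g.coeff i).coeff j ≠ 0 ∧ m * j + n * i = s

theorem exists_top (m n : ℕ) (hg : g ≠ 0) : ∃ s, IsTop m n g s := by
  classical
  have h1 := exists_low m n g
  set s := Nat.find h1 with hs
  have h2 : Low m n s g := Nat.find_spec h1
  have h3 : s ≠ 0 := by
    intro h
    rw [h] at h2
    exact hg (low_zero h2)
  obtain ⟨s', hs'⟩ := Nat.exists_eq_succ_of_ne_zero h3
  refine ⟨s', by rw [hs'] at h2; exact h2, ?_⟩
  have h4 : ¬ Low m n s' g := Nat.find_min h1 (by omega)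
  unfold Low at h4
  push Not at h4
  obtain ⟨i, j, h5, h6⟩ := h4
  have h7 := h2 i j h5
  exact ⟨i, j, h5, by omega⟩

theorem IsTop.unique (h1 : IsTop m n g s) (h2 : IsTop m n g t) : s = t := by
  obtain ⟨i, j, h3, h4⟩ := h1.2
  obtain ⟨i', j', h5, h6⟩ := h2.2
  have h7 := h2.1 i j h3
  have h8 := h1.1 i' j' h5
  omega

theorem IsTop.add_low (h1 : IsTop m n g s) (h2 : Low m n s h) : IsTop m n (g + h) s := by
  refine ⟨h1.1.add (h2.mono (Nat.le_succ s)), ?_⟩
  obtain ⟨i, j, h3, h4⟩ := h1.2
  refine ⟨i, j, ?_, h4⟩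
  rw [coeff_add, coeff_add]
  have h5 : (h.coeff i).coeff j = 0 := by
    by_contra h5
    have := h2 i j h5
    omega
  rw [h5, add_zero]
  exact h3

/-- the leading monomial -/
theorem IsTop.split (hcop : Nat.Coprime m n) (h1 : IsTop m n g s) (hd : g.degree < m) :
    ∃ (α : R) (i j : ℕ), α ≠ 0 ∧ i < m ∧ m * j + n * i = s ∧
      Low m n s (g - C (C α * X ^ j) * X ^ i) := by
  obtain ⟨i, j, h3, h4⟩ := h1.2
  have him : ∀ i j, (g.coeff i).coeff j ≠ 0 → i < m := by
    intro i j hij
    have h5 : g.coeff i ≠ 0 := fun h => hij (by rw [h, coeff_zero])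
    by_contra h6
    exact h5 (coeff_eq_zero_of_degree_lt (hd.trans_le (by exact_mod_cast Nat.le_of_not_lt h6)))
  refine ⟨(g.coeff i).coeff j, i, j, h3, him i j h3, h4, fun k l hkl => ?_⟩
  rw [coeff_sub, coeff_sub, coeff_mono] at hkl
  by_cases h5 : k = i ∧ l = j
  · rw [if_pos h5, h5.1, h5.2, sub_self] at hkl
    exact absurd rfl hkl
  · rw [if_neg h5, sub_zero] at hkl
    have h6 := h1.1 k l hkl
    by_contra h7
    have h8 : m * l + n * k = m * j + n * i := by omega
    have hk := him k l hkl
    have hi := him i j h3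
    have h9 : k = i := by
      have e1 : (n * k) % m = (n * i) % m := by
        have := congrArg (· % m) h8
        simpa [Nat.add_mod, Nat.mul_mod_right] using this
      have e2 : n * k ≡ n * i [MOD m] := e1
      have e3 : k ≡ i [MOD m] := Nat.ModEq.cancel_left_of_coprime hcop e2
      have e4 : k % m = i % m := e3
      rwa [Nat.mod_eq_of_lt hk, Nat.mod_eq_of_lt hi] at e4
    apply h5
    refine ⟨h9, ?_⟩
    rw [h9] at h8
    have hm : 0 < m := by omega
    exact Nat.eq_of_mul_eq_mul_left hm (by omega)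

end

section
variable {R : Type} [CommRing R] [Nontrivial R] {m n s t : ℕ} {h : R[X][X]}

theorem cab_monic (hm : 0 < m) (hh : Low m n (m * n) h) : (cab m n h).Monic ∧
    (cab m n h).natDegree = m := by
  have h1 : (h - C (X ^ n)).degree < (m : WithBot ℕ) := by
    rw [degree_lt_iff_coeff_zero]
    intro i hi
    have h2 : (C (X ^ n) : R[X][X]).coeff i = 0 := by
      rw [coeff_C, if_neg (by omega)]
    have h3 : h.coeff i = 0 := by
      ext j
      rw [coeff_zero]
      by_contra h4
      have h5 := hh i j h4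
      have h6 : n * m ≤ n * i := Nat.mul_le_mul_left _ hi
      rw [mul_comm m n] at h5
      omega
    rw [coeff_sub, h2, h3, sub_zero]
  have h2 : cab m n h = X ^ m + (h - C (X ^ n)) := by
    unfold cab
    ring
  rw [h2]
  exact ⟨monic_X_pow_add h1,
    (natDegree_add_eq_left_of_degree_lt (by rwa [degree_X_pow])).trans (natDegree_X_pow m)⟩

theorem low_mod (hm : 0 < m) (hh : Low m n (m * n) h) : ∀ (N : ℕ) (r : R[X][X]), r.natDegree ≤ N →
    Low m n s r → Low m n s (r %ₘ cab m n h) := by
  obtain ⟨hf, hfd⟩ := cab_monic hm hh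
  set f := cab m n h with hfdef
  intro N
  induction N using Nat.strong_induction_on with
  | _ N ih =>
    intro r hr hs
    by_cases hlt : r.degree < f.degree
    · rw [(modByMonic_eq_self_iff hf).2 hlt]
      exact hs
    · rw [not_lt] at hlt
      have hr0 : r ≠ 0 := by
        rintro rfl
        rw [degree_zero, le_bot_iff, degree_eq_bot] at hlt
        exact hf.ne_zero hlt
      have hi : m ≤ r.natDegree := by
        rw [← hfd]
        exact natDegree_le_natDegree hlt
      set i := r.natDegree with hidef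
      set c := r.leadingCoeff with hc
      have h1 := div_wf_lemma ⟨hlt, hr0⟩ hf
      rw [← hidef, ← hc, hfd] at h1
      set r' := r - f * (C c * X ^ (i - m)) with hr'
      have h2 : r' %ₘ f = r %ₘ f := by
        rw [hr', sub_modByMonic, self_mul_modByMonic hf, sub_zero]
      have h3 : Low m n s r' := by
        have e1 : r' = (r - C c * X ^ i) + (C (c * X ^ n) * X ^ (i - m) - C c * X ^ (i - m) * h) := by
          rw [hr', hfdef, cab]
          have e2 : (X : R[X][X]) ^ i = X ^ (i - m) * X ^ m := by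
            rw [← pow_add, Nat.sub_add_cancel hi]
          rw [e2, C_mul]
          ring
        rw [e1]
        have hcj : ∀ j, c.coeff j ≠ 0 → m * j + n * i < s := fun j hj => hs i j hj
        refine Low.add ?_ (Low.sub ?_ ?_)
        · intro k l hkl
          rw [coeff_sub, coeff_sub, coeff_C_mul_X_pow] at hkl
          by_cases hk : k = i
          · rw [if_pos hk, hk] at hkl
            exact absurd (sub_self _) hkl
          · rw [if_neg hk, coeff_zero, sub_zero] at hkl
            exact hs k l hkl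
        · intro k l hkl
          rw [coeff_C_mul_X_pow] at hkl
          by_cases hk : k = i - m
          · rw [if_pos hk, coeff_mul_X_pow'] at hkl
            by_cases hl : n ≤ l
            · rw [if_pos hl] at hkl
              have h4 := hcj _ hkl
              obtain ⟨l', rfl⟩ := Nat.exists_eq_add_of_le hl
              obtain ⟨i', hi'⟩ := Nat.exists_eq_add_of_le hi
              rw [hk, hi', Nat.add_sub_cancel_left]
              rw [hi', Nat.add_sub_cancel_left] at h4
              nlinarith
            · rw [if_neg hl] at hkl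
              exact absurd rfl hkl
          · rw [if_neg hk, coeff_zero] at hkl
            exact absurd rfl hkl
        · by_cases hc0 : c = 0
          · rw [hc0, C_0, zero_mul, zero_mul]
            exact Low.zero
          · obtain ⟨j0, hj0⟩ : ∃ j, c.coeff j ≠ 0 := by
              by_contra h5
              push Not at h5
              exact hc0 (by ext j; rw [h5 j, coeff_zero])
            have h4 := hcj j0 hj0
            have h5 : m * n ≤ n * i := by
              rw [mul_comm m n]
              exact Nat.mul_le_mul_left _ hi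
            have h6 : s = (s - m * n) + m * n := by omega
            rw [h6]
            refine Low.mul' (fun k l hkl => ?_) hh
            rw [coeff_C_mul_X_pow] at hkl
            by_cases hk : k = i - m
            · rw [if_pos hk] at hkl
              have h7 := hcj _ hkl
              obtain ⟨i', hi'⟩ := Nat.exists_eq_add_of_le hi
              rw [hk, hi', Nat.add_sub_cancel_left]
              rw [hi', mul_add] at h7
              rw [mul_comm m n]
              omega
            · rw [if_neg hk, coeff_zero] at hkl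
              exact absurd rfl hkl
      rw [← h2]
      by_cases hi0 : r' = 0
      · rw [hi0, zero_modByMonic]
        exact Low.zero
      · have h4 : r'.natDegree < i := natDegree_lt_natDegree hi0 h1
        exact ih r'.natDegree (by omega) r' le_rfl h3

end

section
variable {R : Type} [CommRing R] [IsDomain R] {m n s t : ℕ} {h g g' : R[X][X]}

/-- **The weights add up.** -/
theorem top_mul (hm : 0 < m) (hcop : Nat.Coprime m n) (hh : Low m n (m * n) h)
    (hg : IsTop m n g s) (hgd : g.degree < m) (hg' : IsTop m n g' t) (hgd' : g'.degree < m) :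
    IsTop m n ((g * g') %ₘ cab m n h) (s + t) := by
  obtain ⟨hf, hfd⟩ := cab_monic hm hh
  obtain ⟨α, i, j, hα, hi, hij, hl⟩ := hg.split hcop hgd
  obtain ⟨α', i', j', hα', hi', hij', hl'⟩ := hg'.split hcop hgd'
  set f := cab m n h with hfdef
  set u := C (C α * X ^ j) * X ^ i with hu
  set u' := C (C α' * X ^ j') * X ^ i' with hu'
  have e1 : g * g' = u * u' + (u * (g' - u') + (g - u) * u' + (g - u) * (g' - u')) := by ring
  have hul : Low m n (s + 1) u := Low.monom _ _ _ (by omega)
  have hul' : Low m n (t + 1) u' := Low.monom _ _ _ (by omega)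
  have hrest : Low m n (s + t) (u * (g' - u') + (g - u) * u' + (g - u) * (g' - u')) := by
    refine Low.add (Low.add (Low.mul hul hl') ?_) (Low.mul' hl hl')
    rw [mul_comm, add_comm s t]
    exact Low.mul hul' hl
  have huu : u * u' = C (C (α * α') * X ^ (j + j')) * X ^ (i + i') := by
    rw [hu, hu', C_mul, C_mul, C_mul, C_mul, C_mul, pow_add, pow_add, C_mul]
    ring
  have hαα : α * α' ≠ 0 := mul_ne_zero hα hα'
  -- a monomial of degree less than `m`
  have key : ∀ (I J : ℕ) (r Q : R[X][X]), I < m → m * J + n * I = s + t → Low m n (s + t) r →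
      g * g' = C (C (α * α') * X ^ J) * X ^ I + r + f * Q → IsTop m n ((g * g') %ₘ f) (s + t) := by
    intro I J r Q hI hIJ hr he
    have hself : (C (C (α * α') * X ^ J) * X ^ I : R[X][X]) %ₘ f = C (C (α * α') * X ^ J) * X ^ I := by
      rw [modByMonic_eq_self_iff hf]
      refine lt_of_le_of_lt (degree_C_mul_X_pow_le _ _) ?_
      rw [degree_eq_natDegree hf.ne_zero, hfd]
      exact_mod_cast hI
    rw [he, add_modByMonic, add_modByMonic, self_mul_modByMonic hf, add_zero, hself]
    refine IsTop.add_low ⟨Low.monom _ _ _ (by omega), I, J, ?_, hIJ⟩ (low_mod hm hh _ _ le_rfl hr)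
    rw [coeff_mono, if_pos ⟨rfl, rfl⟩]
    exact hαα
  have hj1 : m * (j + j') + n * (i + i') = s + t := by rw [← hij, ← hij']; ring
  by_cases hii : i + i' < m
  · refine key (i + i') (j + j') _ 0 hii hj1 hrest ?_
    rw [mul_zero, add_zero, ← huu]
    exact e1
  · obtain ⟨I, hI⟩ := Nat.exists_eq_add_of_le (Nat.le_of_not_lt hii)
    have hI' : I < m := by omega
    have hJ : m * (j + j' + n) + n * I = s + t := by
      rw [← hj1, hI]
      ring
    refine key I (j + j' + n) ((u * (g' - u') + (g - u) * u' + (g - u) * (g' - u')) -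
      C (C (α * α') * X ^ (j + j')) * X ^ I * h) (C (C (α * α') * X ^ (j + j')) * X ^ I) hI' hJ
      (hrest.sub ?_) ?_
    · have h5 : s + t = (m * (j + j') + n * I) + m * n := by
        rw [← hJ]
        ring
      rw [h5]
      exact Low.mul (Low.monom _ _ _ (by omega)) hh
    · have e3 : (C (C (α * α') * X ^ (j + j' + n)) : R[X][X]) =
          C (C (α * α') * X ^ (j + j')) * C (X ^ n) := by
        rw [← C_mul, pow_add _ (j + j') n]
        congr 1
        ring
      rw [e1, huu, e3, hI, pow_add _ m I, hfdef, cab]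
      ring

theorem rep (hm : 0 < m) (hh : Low m n (m * n) h) (u : AdjoinRoot (cab m n h)) (hu : u ≠ 0) :
    ∃ (g : R[X][X]) (s : ℕ), AdjoinRoot.mk _ g = u ∧ g.degree < m ∧ IsTop m n g s := by
  obtain ⟨hf, hfd⟩ := cab_monic hm hh
  have hdeg : (cab m n h).degree = m := by rw [degree_eq_natDegree hf.ne_zero, hfd]
  obtain ⟨g₀, rfl⟩ := AdjoinRoot.mk_surjective u
  have h1 : AdjoinRoot.mk (cab m n h) (g₀ %ₘ cab m n h) = AdjoinRoot.mk _ g₀ := by
    rw [AdjoinRoot.mk_eq_mk]
    refine ⟨-(g₀ /ₘ cab m n h), ?_⟩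
    have h2 := modByMonic_add_div g₀ (cab m n h)
    linear_combination h2
  have h2 : g₀ %ₘ cab m n h ≠ 0 := by
    intro h3
    rw [h3, map_zero] at h1
    exact hu h1.symm
  obtain ⟨s, hs⟩ := exists_top m n h2
  exact ⟨_, s, h1, by rw [← hdeg]; exact degree_modByMonic_lt _ hf, hs⟩

theorem red_eq (hm : 0 < m) (hh : Low m n (m * n) h) (hg : g.degree < m) (hg' : g'.degree < m)
    (he : AdjoinRoot.mk (cab m n h) g = AdjoinRoot.mk _ g') : g = g' := by
  obtain ⟨hf, hfd⟩ := cab_monic hm hh
  have hdeg : (cab m n h).degree = m := by rw [degree_eq_natDegree hf.ne_zero, hfd]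
  rw [AdjoinRoot.mk_eq_mk] at he
  by_contra h1
  have h2 := degree_le_of_dvd he (sub_ne_zero.2 h1)
  rw [hdeg] at h2
  exact absurd h2 (not_le.2 ((degree_sub_le _ _).trans_lt (max_lt hg hg')))

theorem mul_rep (hm : 0 < m) (hcop : Nat.Coprime m n) (hh : Low m n (m * n) h)
    (hg : IsTop m n g s) (hgd : g.degree < m) (hg' : IsTop m n g' t) (hgd' : g'.degree < m) :
    ∃ g'' : R[X][X], AdjoinRoot.mk (cab m n h) g'' = AdjoinRoot.mk _ g * AdjoinRoot.mk _ g' ∧
      g''.degree < m ∧ IsTop m n g'' (s + t) := by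
  obtain ⟨hf, hfd⟩ := cab_monic hm hh
  have hdeg : (cab m n h).degree = m := by rw [degree_eq_natDegree hf.ne_zero, hfd]
  refine ⟨(g * g') %ₘ cab m n h, ?_, by rw [← hdeg]; exact degree_modByMonic_lt _ hf,
    top_mul hm hcop hh hg hgd hg' hgd'⟩
  rw [← map_mul, AdjoinRoot.mk_eq_mk]
  refine ⟨-((g * g') /ₘ cab m n h), ?_⟩
  have h2 := modByMonic_add_div (g * g') (cab m n h)
  linear_combination h2

theorem top_ne (hg : IsTop m n g s) : g ≠ 0 := by
  rintro rfl
  obtain ⟨i, j, h1, _⟩ := hg.2
  rw [coeff_zero, coeff_zero] at h1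
  exact h1 rfl

theorem adj_isDomain (hm : 0 < m) (hcop : Nat.Coprime m n) (hh : Low m n (m * n) h) :
    IsDomain (AdjoinRoot (cab m n h)) := by
  obtain ⟨hf, hfd⟩ := cab_monic hm hh
  have hdeg : (cab m n h).degree = m := by rw [degree_eq_natDegree hf.ne_zero, hfd]
  have hnt : Nontrivial (AdjoinRoot (cab m n h)) := AdjoinRoot.nontrivial _ (by
    rw [hdeg]
    exact_mod_cast hm.ne')
  have hz : NoZeroDivisors (AdjoinRoot (cab m n h)) := by
    refine ⟨fun {u v} huv => ?_⟩
    by_contra hne
    push Not at hne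
    obtain ⟨g, s, hg1, hg2, hg3⟩ := rep hm hh u hne.1
    obtain ⟨g', t, hg1', hg2', hg3'⟩ := rep hm hh v hne.2
    obtain ⟨g'', h1, h2, h3⟩ := mul_rep hm hcop hh hg3 hg2 hg3' hg2'
    rw [hg1, hg1', huv, ← map_zero (AdjoinRoot.mk (cab m n h))] at h1
    refine top_ne h3 (red_eq hm hh h2 ?_ h1)
    rw [degree_zero]
    exact WithBot.bot_lt_coe _
  exact NoZeroDivisors.to_isDomain _

/-- **The units are constants.** -/
theorem units_const (hm : 0 < m) (hn : 0 < n) (hcop : Nat.Coprime m n) (hh : Low m n (m * n) h)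
    (u : AdjoinRoot (cab m n h)) (hu : IsUnit u) : ∃ c : R, AdjoinRoot.mk _ (C (C c)) = u := by
  have hd := adj_isDomain hm hcop hh
  obtain ⟨v, hv⟩ := hu.exists_right_inv
  have hu0 : u ≠ 0 := hu.ne_zero
  have hv0 : v ≠ 0 := by
    rintro rfl
    rw [mul_zero] at hv
    exact zero_ne_one hv
  obtain ⟨g, s, hg1, hg2, hg3⟩ := rep hm hh u hu0
  obtain ⟨g', t, hg1', hg2', hg3'⟩ := rep hm hh v hv0
  obtain ⟨g'', h1, h2, h3⟩ := mul_rep hm hcop hh hg3 hg2 hg3' hg2'
  rw [hg1, hg1', hv, ← map_one (AdjoinRoot.mk (cab m n h))] at h1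
  have h4 : g'' = 1 := red_eq hm hh h2 (by
    rw [degree_one]
    exact_mod_cast hm) h1
  have h5 : s + t = 0 := by
    obtain ⟨i, j, h6, h7⟩ := h3.2
    rw [h4, coeff_one] at h6
    by_cases hi : i = 0
    · rw [if_pos hi, coeff_one] at h6
      by_cases hj : j = 0
      · rw [hi, hj] at h7
        omega
      · rw [if_neg hj] at h6
        exact absurd rfl h6
    · rw [if_neg hi, coeff_zero] at h6
      exact absurd rfl h6
  have h6 : s = 0 := by omega
  rw [h6] at hg3
  refine ⟨(g.coeff 0).coeff 0, ?_⟩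
  rw [← hg1]
  congr 1
  ext i j
  rw [coeff_C]
  by_cases hi : i = 0
  · rw [if_pos hi, coeff_C, hi]
    by_cases hj : j = 0
    · rw [if_pos hj, hj]
    · rw [if_neg hj]
      by_contra h7
      have h8 := hg3.1 0 j (Ne.symm h7)
      have h9 : 0 < m * j := Nat.mul_pos hm (Nat.pos_of_ne_zero hj)
      omega
  · rw [if_neg hi, coeff_zero]
    by_contra h7
    have h8 := hg3.1 i j (Ne.symm h7)
    have h9 : 0 < n * i := Nat.mul_pos hn (Nat.pos_of_ne_zero hi)
    omega

end

end Pool.Agent.H118.CAB
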