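import Pool.Agent.H118.CAB.Wt
import Pool.Agent.H118.CAB.Geo
import Pool.Agent.R410.NG.CBs

/-!
# The sum of the traces over the points of a pencil
-/

set_option autoImplicit false
set_option linter.all false

open Polynomial NumberField

namespace Pool.Agent.H118.CAB

open Pool.Agent.R410.NG (Wt IsWt sT sR sT_eq sR_eq polyEquiv Asy Ff)

section
variable {A : Type} [CommRing A] {F : Type} [Field F]

/-- the points of the plane -/
noncomputable def triEquiv : (A[X][X] →+* F) ≃ (A →+* F) × (F × F) where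
  toFun φ := (φ.comp (C.comp C), (φ (C X), φ X))
  invFun w := eval₂RingHom (eval₂RingHom w.1 w.2.1) w.2.2
  left_inv φ := by
    apply Polynomial.ringHom_ext
    · intro g
      rw [coe_eval₂RingHom, eval₂_C]
      have h : eval₂RingHom (φ.comp (C.comp C)) (φ (C X)) = φ.comp C := by
        apply Polynomial.ringHom_ext
        · intro a
          rw [coe_eval₂RingHom, eval₂_C]
          rfl
        · rw [coe_eval₂RingHom, eval₂_X]
          rfl
      exact congrArg (fun θ => θ g) h
    · rw [coe_eval₂RingHom, eval₂_X]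
  right_inv w := by
    refine Prod.ext ?_ (Prod.ext ?_ ?_)
    · refine RingHom.ext fun a => ?_
      show eval₂ (eval₂RingHom w.1 w.2.1) w.2.2 (C (C a)) = _
      rw [eval₂_C, coe_eval₂RingHom, eval₂_C]
    · show eval₂ (eval₂RingHom w.1 w.2.1) w.2.2 (C X) = _
      rw [eval₂_C, coe_eval₂RingHom, eval₂_X]
    · show eval₂ (eval₂RingHom w.1 w.2.1) w.2.2 X = _
      rw [eval₂_X]

theorem tri_eval (φ : A[X][X] →+* F) (g : A[X][X]) :
    evalEval (φ (C X)) (φ X) (g.map (mapRingHom (φ.comp (C.comp C)))) = φ g := by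
  have h : (evalEvalRingHom (φ (C X)) (φ X)).comp (mapRingHom (mapRingHom (φ.comp (C.comp C)))) = φ := by
    apply Polynomial.ringHom_ext
    · intro p
      have h2 : ((evalEvalRingHom (φ (C X)) (φ X)).comp
          (mapRingHom (mapRingHom (φ.comp (C.comp C))))).comp C = φ.comp C := by
        apply Polynomial.ringHom_ext
        · intro a
          show evalEval _ _ ((C (C a) : A[X][X]).map _) = _
          rw [Polynomial.map_C, coe_mapRingHom, Polynomial.map_C, evalEval_C, eval_C]
          rfl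
        · show evalEval _ _ ((C X : A[X][X]).map _) = _
          rw [Polynomial.map_C, coe_mapRingHom, Polynomial.map_X, evalEval_C, eval_X]
          rfl
      exact congrArg (fun θ => θ p) h2
    · show evalEval _ _ ((X : A[X][X]).map _) = _
      rw [Polynomial.map_X, evalEval_X]
  exact congrArg (fun θ => θ g) h

open Classical in
theorem tri_card [Fintype F] [Fintype (A →+* F)] (Q : (A →+* F) → F × F → Prop) (u : A) :
    (Nat.card {φ : A[X][X] →+* F // Q (φ.comp (C.comp C)) (φ (C X), φ X) ∧ φ (C (C u)) ≠ 0} : ℝ) =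
      ∑ ψ : A →+* F, if ψ u ≠ 0 then (Nat.card {z : F × F // Q ψ z} : ℝ) else 0 := by
  have e1 : {φ : A[X][X] →+* F // Q (φ.comp (C.comp C)) (φ (C X), φ X) ∧ φ (C (C u)) ≠ 0} ≃
      Σ ψ : A →+* F, {z : F × F // Q ψ z ∧ ψ u ≠ 0} :=
    { toFun := fun φ => ⟨φ.1.comp (C.comp C), (φ.1 (C X), φ.1 X), φ.2⟩
      invFun := fun w => ⟨triEquiv.symm (w.1, w.2.1), by
        have h1 : ((triEquiv.symm (w.1, w.2.1)).comp (C.comp C),
          ((triEquiv.symm (w.1, w.2.1)) (C X), (triEquiv.symm (w.1, w.2.1)) X)) = (w.1, w.2.1) :=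
          (triEquiv (A := A) (F := F)).apply_symm_apply (w.1, w.2.1)
        have h2 := congrArg Prod.fst h1
        have h3 := congrArg Prod.snd h1
        simp only at h2 h3
        refine ⟨?_, ?_⟩
        · rw [h2, h3]
          exact w.2.2.1
        · have h4 : (triEquiv.symm (w.1, w.2.1)) (C (C u)) =
              ((triEquiv.symm (w.1, w.2.1)).comp (C.comp C)) u := rfl
          rw [h4, h2]
          exact w.2.2.2⟩
      left_inv := fun φ => Subtype.ext ((triEquiv (A := A) (F := F)).symm_apply_apply φ.1)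
      right_inv := fun w => by
        obtain ⟨ψ, z, hz⟩ := w
        have h1 : ((triEquiv.symm (ψ, z)).comp (C.comp C),
          ((triEquiv.symm (ψ, z)) (C X), (triEquiv.symm (ψ, z)) X)) = (ψ, z) :=
          (triEquiv (A := A) (F := F)).apply_symm_apply (ψ, z)
        have h2 := congrArg Prod.fst h1
        have h3 := congrArg Prod.snd h1
        simp only at h2 h3
        refine Sigma.ext h2 ?_
        refine (Subtype.heq_iff_coe_eq ?_).2 h3
        intro z'
        simp only
        rw [h2] }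
  rw [Nat.card_congr e1, Nat.card_sigma]
  push_cast
  refine Finset.sum_congr rfl fun ψ _ => ?_
  by_cases h : ψ u ≠ 0
  · rw [if_pos h]
    congr 1
    exact Nat.card_congr (Equiv.subtypeEquivRight fun z => ⟨fun h' => h'.1, fun h' => ⟨h', h⟩⟩)
  · rw [if_neg h]
    have : IsEmpty {z : F × F // Q ψ z ∧ ψ u ≠ 0} := ⟨fun z => h z.2.2⟩
    rw [Nat.card_of_isEmpty, Nat.cast_zero]

open Classical in
theorem card_ind [Fintype F] (p : F × F → Prop) :
    (Nat.card {z : F × F // p z} : ℝ) = ∑ z : F × F, if p z then (1 : ℝ) else 0 := by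
  rw [Nat.card_eq_fintype_card, Fintype.card_subtype, ← Finset.sum_filter, Finset.sum_const,
    nsmul_eq_mul, mul_one]

open Classical in
/-- the sum over a pencil -/
theorem pencil_sum [Fintype F] (a b : F × F → F) :
    ∑ w : F, ((Nat.card {z : F × F // a z + w * b z = 0} : ℝ) - Nat.card F) =
      (Nat.card F : ℝ) * Nat.card {z : F × F // a z = 0 ∧ b z = 0} - Nat.card {z : F × F // b z = 0} := by
  set q : ℝ := (Nat.card F : ℝ) with hq
  have hqF : (Fintype.card F : ℝ) = q := by rw [hq, Nat.card_eq_fintype_card]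
  rw [Finset.sum_sub_distrib, Finset.sum_const, Finset.card_univ, nsmul_eq_mul, hqF]
  have e1 : ∑ w : F, (Nat.card {z : F × F // a z + w * b z = 0} : ℝ) =
      ∑ z : F × F, (1 - (if b z = 0 then (1 : ℝ) else 0) +
        q * (if a z = 0 ∧ b z = 0 then (1 : ℝ) else 0)) := by
    simp only [card_ind]
    rw [Finset.sum_comm]
    refine Finset.sum_congr rfl fun z _ => ?_
    by_cases hb : b z = 0
    · by_cases ha : a z = 0
      · rw [if_pos hb, if_pos ⟨ha, hb⟩]
        have : ∀ w : F, (if a z + w * b z = 0 then (1 : ℝ) else 0) = 1 := fun w => by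
          rw [if_pos]
          rw [ha, hb, mul_zero, add_zero]
        rw [Finset.sum_congr rfl fun w _ => this w, Finset.sum_const, Finset.card_univ, nsmul_eq_mul, hqF]
        ring
      · rw [if_pos hb, if_neg fun h => ha h.1]
        have : ∀ w : F, (if a z + w * b z = 0 then (1 : ℝ) else 0) = 0 := fun w => by
          rw [if_neg]
          rw [hb, mul_zero, add_zero]
          exact ha
        rw [Finset.sum_congr rfl fun w _ => this w, Finset.sum_const_zero]
        ring
    · rw [if_neg hb, if_neg fun h => hb h.2]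
      have : ∀ w : F, (if a z + w * b z = 0 then (1 : ℝ) else 0) = if w = -a z / b z then 1 else 0 := by
        intro w
        congr 1
        rw [eq_iff_iff, eq_div_iff hb]
        constructor
        · intro h; linear_combination h
        · intro h; linear_combination h
      rw [Finset.sum_congr rfl fun w _ => this w, Finset.sum_ite_eq' Finset.univ,
        if_pos (Finset.mem_univ _)]
      ring
  have e2 : (Nat.card {z : F × F // a z = 0 ∧ b z = 0} : ℝ) =
      ∑ z : F × F, if a z = 0 ∧ b z = 0 then (1 : ℝ) else 0 := by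
    convert card_ind (fun z : F × F => a z = 0 ∧ b z = 0)
  rw [e1, Finset.sum_add_distrib, Finset.sum_sub_distrib, ← Finset.mul_sum,
    ← card_ind (fun z => b z = 0), e2,
    Finset.sum_const, Finset.card_univ, nsmul_eq_mul, Fintype.card_prod, Nat.cast_mul, hqF]
  ring

end

section
variable {A : Type} [CommRing A] {m n : ℕ}

/-- the pencil over the line -/
noncomputable def GB (F e : A[X][X]) : (A[X])[X][X] :=
  F.map (mapRingHom C) + C (C X) * e.map (mapRingHom C)

theorem GB_map {S : Type} [CommRing S] (F e : A[X][X]) (φ : A[X] →+* S) :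
    (GB F e).map (mapRingHom φ) = F.map (mapRingHom (φ.comp C)) +
      C (C (φ X)) * e.map (mapRingHom (φ.comp C)) := by
  unfold GB
  rw [Polynomial.map_add, Polynomial.map_mul, Polynomial.map_map, Polynomial.map_map, mapRingHom_comp,
    Polynomial.map_C, coe_mapRingHom, Polynomial.map_C]

theorem Low.CC_mul {R : Type} [CommRing R] {s : ℕ} {g : R[X][X]} (hg : Low m n s g) (a : R) :
    Low m n s (C (C a) * g) := fun i j hij => by
  refine hg i j fun h => hij ?_
  rw [coeff_C_mul, coeff_C_mul, h, mul_zero]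

theorem cab_add {R : Type} [CommRing R] (c e : R[X][X]) : cab m n c + e = cab m n (c + e) := by
  unfold cab
  ring

open Classical in
theorem wc_GB (hm : 0 < m) {c e : A[X][X]} (hc : Low m n (m * n) c) (he : Low m n (m * n) e)
    {F : Type} [Field F] (hmF : ((m : ℕ) : F) ≠ 0) (φ : A[X] →+* F) :
    wc m n F (fun j => (enc m n (GB (cab m n c) e) j).map φ) =
      (Nat.card {z : F × F // evalEval z.1 z.2 ((cab m n c).map (mapRingHom (φ.comp C))) +
        φ X * evalEval z.1 z.2 (e.map (mapRingHom (φ.comp C))) = 0} : ℝ) - Nat.card F := by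
  have h1 : (GB (cab m n c) e).map (mapRingHom φ) =
      cab m n (c.map (mapRingHom (φ.comp C)) + C (C (φ X)) * e.map (mapRingHom (φ.comp C))) := by
    rw [GB_map, cab_map, cab_add]
  have h2 : Low m n (m * n) (c.map (mapRingHom (φ.comp C)) +
      C (C (φ X)) * e.map (mapRingHom (φ.comp C))) := (hc.map _).add ((he.map _).CC_mul _)
  have h3 := cab_monic hm h2
  rw [enc_map, h1]
  unfold wc
  rw [dec_enc h3.1 h3.2, if_pos ⟨hmF, _, h2, rfl⟩, ← h1, GB_map]
  unfold pts
  congr 2
  refine Nat.card_congr (Equiv.subtypeEquivRight fun z => ?_)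
  rw [evalEval_add, evalEval_mul, evalEval_C, eval_C]

variable [Algebra.FiniteType ℤ A]

/-- the numbers of the points -/
noncomputable def Na (J : Ideal A[X][X]) (u : A) (F : Type) [Field F] : ℝ :=
  (Nat.card {φ : A[X][X] →+* F // (∀ g ∈ J, φ g = 0) ∧ φ (C (C u)) ≠ 0} : ℝ)

open Classical in
theorem Na_pair (f e : A[X][X]) (u : A) {F : Type} [Field F] [Fintype F] [Fintype (A →+* F)] :
    Na (Ideal.span {f, e}) u F = ∑ ψ : A →+* F, if ψ u ≠ 0 then
      (Nat.card {z : F × F // evalEval z.1 z.2 (f.map (mapRingHom ψ)) = 0 ∧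
        evalEval z.1 z.2 (e.map (mapRingHom ψ)) = 0} : ℝ) else 0 := by
  rw [← tri_card (fun ψ z => evalEval z.1 z.2 (f.map (mapRingHom ψ)) = 0 ∧
        evalEval z.1 z.2 (e.map (mapRingHom ψ)) = 0) u]
  unfold Na
  congr 1
  refine Nat.card_congr (Equiv.subtypeEquivRight fun φ => ?_)
  rw [tri_eval, tri_eval]
  constructor
  · rintro ⟨h1, h2⟩
    exact ⟨⟨h1 _ (Ideal.subset_span (Or.inl rfl)), h1 _ (Ideal.subset_span (Or.inr rfl))⟩, h2⟩
  · rintro ⟨⟨h1, h2⟩, h3⟩
    refine ⟨fun g hg => ?_, h3⟩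
    have h4 : Ideal.span ({f, e} : Set A[X][X]) ≤ RingHom.ker φ := by
      rw [Ideal.span_le]
      rintro z (rfl | rfl)
      · exact h1
      · exact h2
    exact h4 hg

open Classical in
theorem Na_one (e : A[X][X]) (u : A) {F : Type} [Field F] [Fintype F] [Fintype (A →+* F)] :
    Na (Ideal.span {e}) u F = ∑ ψ : A →+* F, if ψ u ≠ 0 then
      (Nat.card {z : F × F // evalEval z.1 z.2 (e.map (mapRingHom ψ)) = 0} : ℝ) else 0 := by
  rw [← tri_card (fun ψ z => evalEval z.1 z.2 (e.map (mapRingHom ψ)) = 0) u]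
  unfold Na
  congr 1
  refine Nat.card_congr (Equiv.subtypeEquivRight fun φ => ?_)
  rw [tri_eval]
  constructor
  · rintro ⟨h1, h2⟩
    exact ⟨h1 _ (Ideal.subset_span rfl), h2⟩
  · rintro ⟨h1, h3⟩
    refine ⟨fun g hg => ?_, h3⟩
    have h4 : Ideal.span ({e} : Set A[X][X]) ≤ RingHom.ker φ := by
      rw [Ideal.span_le]
      rintro z rfl
      exact h1
    exact h4 hg

/-- the sum over a fibre of the projection to the base -/
noncomputable def fb (c e : A[X][X]) (m n : ℕ) (F : Type) [Field F] (ψ : A →+* F) : ℝ :=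
  (Nat.card F : ℝ) * Nat.card {z : F × F // evalEval z.1 z.2 ((cab m n c).map (mapRingHom ψ)) = 0 ∧
    evalEval z.1 z.2 (e.map (mapRingHom ψ)) = 0} -
    Nat.card {z : F × F // evalEval z.1 z.2 (e.map (mapRingHom ψ)) = 0}

open Classical in
theorem sR_GB (hm : 0 < m) {c e : A[X][X]} (hc : Low m n (m * n) c) (he : Low m n (m * n) e) (u : A)
    {O : Type} [CommRing O] {F : Type} [Field F] [Fintype F] [Fintype (A →+* F)]
    [Finite (A[X] →+* F)] (hmF : ((m : ℕ) : F) ≠ 0) (ρ₀ : O →+* A) (ψ₀ : O →+* F) :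
    sR (wc m n) (C.comp ρ₀) (enc m n (GB (cab m n c) e)) (C u) F ψ₀ =
      ∑ ψ : A →+* F, if ψ.comp ρ₀ = ψ₀ then (if ψ u ≠ 0 then fb c e m n F ψ else 0) else 0 := by
  let _ := Fintype.ofFinite (A[X] →+* F)
  rw [sR_eq]
  have e1 : ∀ φ : A[X] →+* F, (if φ.comp ((C : A →+* A[X]).comp ρ₀) = ψ₀ ∧ φ (C u) ≠ 0 then
      wc m n F (fun j => (enc m n (GB (cab m n c) e) j).map φ) else 0) =
      if (φ.comp C).comp ρ₀ = ψ₀ then (if (φ.comp C) u ≠ 0 then
        (Nat.card {z : F × F // evalEval z.1 z.2 ((cab m n c).map (mapRingHom (φ.comp C))) +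
        φ X * evalEval z.1 z.2 (e.map (mapRingHom (φ.comp C))) = 0} : ℝ) - Nat.card F else 0) else 0 := by
    intro φ
    rw [wc_GB hm hc he hmF, RingHom.comp_assoc]
    by_cases h : φ.comp ((C : A →+* A[X]).comp ρ₀) = ψ₀
    · by_cases h2 : φ (C u) ≠ 0
      · have h3 : (φ.comp C) u ≠ 0 := h2
        rw [if_pos ⟨h, h2⟩, if_pos h, if_pos h3]
      · have h3 : ¬ (φ.comp C) u ≠ 0 := h2
        rw [if_neg fun h' => h2 h'.2, if_pos h, if_neg h3]
    · rw [if_neg fun h' => h h'.1, if_neg h]
  rw [Finset.sum_congr rfl fun φ _ => e1 φ]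
  refine (Fintype.sum_equiv (polyEquiv (A := A) (F := F)) _ (fun w => if w.1.comp ρ₀ = ψ₀ then
      (if w.1 u ≠ 0 then
        (Nat.card {z : F × F // evalEval z.1 z.2 ((cab m n c).map (mapRingHom w.1)) +
        w.2 * evalEval z.1 z.2 (e.map (mapRingHom w.1)) = 0} : ℝ) - Nat.card F else 0) else 0)
      fun φ => rfl).trans ?_
  rw [Fintype.sum_prod_type]
  refine Finset.sum_congr rfl fun ψ _ => ?_
  by_cases h : ψ.comp ρ₀ = ψ₀
  · simp only [if_pos h]
    by_cases h2 : ψ u ≠ 0
    · simp only [if_pos h2]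
      exact pencil_sum _ _
    · simp only [if_neg h2, Finset.sum_const_zero]
  · simp only [if_neg h, Finset.sum_const_zero]

open Classical in
theorem sT_GB (hm : 0 < m) {c e : A[X][X]} (hc : Low m n (m * n) c) (he : Low m n (m * n) e) (u : A)
    {F : Type} [Field F] [Finite F] [Finite (A →+* F)]
    [Finite (A[X] →+* F)] (hmF : ((m : ℕ) : F) ≠ 0) :
    sT (wc m n) (enc m n (GB (cab m n c) e)) (C u) F =
      (Nat.card F : ℝ) * Na (Ideal.span {cab m n c, e}) u F - Na (Ideal.span {e}) u F := by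
  let _ := Fintype.ofFinite F
  let _ := Fintype.ofFinite (A →+* F)
  let _ := Fintype.ofFinite (A[X] →+* F)
  rw [sT_eq, Na_pair, Na_one, Finset.mul_sum, ← Finset.sum_sub_distrib]
  have e1 : ∀ φ : A[X] →+* F, (if φ (C u) ≠ 0 then
      wc m n F (fun j => (enc m n (GB (cab m n c) e) j).map φ) else 0) =
      if (φ.comp C) u ≠ 0 then
        (Nat.card {z : F × F // evalEval z.1 z.2 ((cab m n c).map (mapRingHom (φ.comp C))) +
        φ X * evalEval z.1 z.2 (e.map (mapRingHom (φ.comp C))) = 0} : ℝ) - Nat.card F else 0 := by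
    intro φ
    rw [wc_GB hm hc he hmF]
    rfl
  rw [Finset.sum_congr rfl fun φ _ => e1 φ]
  refine (Fintype.sum_equiv (polyEquiv (A := A) (F := F)) _ (fun w =>
      if w.1 u ≠ 0 then
        (Nat.card {z : F × F // evalEval z.1 z.2 ((cab m n c).map (mapRingHom w.1)) +
        w.2 * evalEval z.1 z.2 (e.map (mapRingHom w.1)) = 0} : ℝ) - Nat.card F else 0)
      fun φ => rfl).trans ?_
  rw [Fintype.sum_prod_type]
  refine Finset.sum_congr rfl fun ψ _ => ?_
  by_cases h2 : ψ u ≠ 0
  · simp only [if_pos h2]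
    exact pencil_sum _ _
  · simp only [if_neg h2, Finset.sum_const_zero, mul_zero, sub_zero]

end

end Pool.Agent.H118.CAB
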