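import Pool.Agent.H118.CAB.Bz
import Pool.Agent.H118.CAB.Ring
import Pool.Agent.R410.PW.Weil
import Pool.Agent.R410.NG.Tr2

/-!
# The traces of the curves `Y^m = X^n + ...` as a function of families of polynomials
-/

set_option autoImplicit false
set_option linter.all false

open Polynomial

namespace Pool.Agent.H118.CAB

open Pool.Agent.R410.NG (Wt IsWt)

section
variable {R : Type} [CommRing R] {m n : ℕ}

/-- the polynomial `Y^m + ∑ (p_j - X^(n+1)) Y^j` -/
noncomputable def dec (m n : ℕ) (p : Fin m → R[X]) : R[X][X] :=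
  X ^ m + ∑ j : Fin m, C (p j - X ^ (n + 1)) * X ^ (j : ℕ)

/-- the family -/
noncomputable def enc (m n : ℕ) (G : R[X][X]) : Fin m → R[X] := fun j => X ^ (n + 1) + G.coeff j

theorem dec_map {S : Type} [CommRing S] (φ : R →+* S) (p : Fin m → R[X]) :
    dec m n (fun j => (p j).map φ) = (dec m n p).map (mapRingHom φ) := by
  unfold dec
  rw [Polynomial.map_add, Polynomial.map_pow, Polynomial.map_X, Polynomial.map_sum]
  congr 1
  refine Finset.sum_congr rfl fun j _ => ?_
  rw [Polynomial.map_mul, Polynomial.map_pow, Polynomial.map_X, Polynomial.map_C, coe_mapRingHom,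
    Polynomial.map_sub, Polynomial.map_pow, Polynomial.map_X]

theorem enc_map {S : Type} [CommRing S] (φ : R →+* S) (G : R[X][X]) :
    (fun j => (enc m n G j).map φ) = enc m n (G.map (mapRingHom φ)) := by
  funext j
  unfold enc
  rw [Polynomial.map_add, Polynomial.map_pow, Polynomial.map_X, coeff_map, coe_mapRingHom]

theorem dec_enc {G : R[X][X]} (hG : G.Monic) (hd : G.natDegree = m) : dec m n (enc m n G) = G := by
  have h1 : ∀ j : Fin m, C (enc m n G j - X ^ (n + 1)) * X ^ (j : ℕ) =
      C (G.coeff (j : ℕ)) * X ^ (j : ℕ) := by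
    intro j
    unfold enc
    rw [add_sub_cancel_left]
  unfold dec
  rw [Finset.sum_congr rfl fun j _ => h1 j, Fin.sum_univ_eq_sum_range (fun j => C (G.coeff j) * X ^ j) m]
  conv_rhs => rw [hG.as_sum, hd]

variable [Nontrivial R]

theorem enc_spec (hm : 0 < m) {c : R[X][X]} (hc : Low m n (m * n) c) (j : Fin m) :
    (enc m n (cab m n c) j).Monic ∧ (enc m n (cab m n c) j).natDegree = n + 1 := by
  have h1 : ((cab m n c).coeff (j : ℕ)).natDegree ≤ n := by
    have h2 : (cab m n c).coeff (j : ℕ) = (if (j : ℕ) = 0 then -X ^ n else 0) + c.coeff j := by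
      unfold cab
      rw [coeff_add, coeff_sub, coeff_X_pow, if_neg (by omega), coeff_C]
      split_ifs <;> simp
    rw [h2]
    refine (natDegree_add_le _ _).trans (max_le ?_ ?_)
    · split_ifs
      · rw [natDegree_neg]
        exact natDegree_X_pow_le n
      · rw [natDegree_zero]
        exact Nat.zero_le _
    · rw [natDegree_le_iff_coeff_eq_zero]
      intro N hN
      by_contra h
      have h3 := hc _ _ h
      have h4 : m * n < m * N := Nat.mul_lt_mul_of_pos_left hN hm
      omega
  have h2 : (enc m n (cab m n c) j) = X ^ (n + 1) + (cab m n c).coeff j := rfl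
  have h3 : ((cab m n c).coeff (j : ℕ)).degree < ((n + 1 : ℕ) : WithBot ℕ) :=
    lt_of_le_of_lt degree_le_natDegree (by exact_mod_cast Nat.lt_succ_of_le h1)
  rw [h2]
  refine ⟨monic_X_pow_add h3, ?_⟩
  rw [natDegree_add_eq_left_of_degree_lt (by rw [degree_X_pow]; exact h3), natDegree_X_pow]

end

section
variable {F : Type} [Field F] {m n : ℕ}

/-- the number of the points of `G = 0` minus the order of the field -/
noncomputable def pts (F : Type) [Field F] (G : F[X][X]) : ℝ :=
  (Nat.card {z : F × F // evalEval z.1 z.2 G = 0} : ℝ) - Nat.card F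

/-- the polynomial is `Y^m - X^n + ...`, and the characteristic does not divide `m` -/
def Good (m n : ℕ) (F : Type) [Field F] (G : F[X][X]) : Prop :=
  ((m : ℕ) : F) ≠ 0 ∧ ∃ c : F[X][X], Low m n (m * n) c ∧ G = cab m n c

open Classical in
/-- minus the trace of the Frobenius -/
noncomputable def wc (m n : ℕ) : Wt (Fin m) := fun F _ p =>
  if Good m n F (dec m n p) then pts F (dec m n p) else 0

theorem cab_map {R S : Type} [CommRing R] [CommRing S] (φ : R →+* S) (c : R[X][X]) :
    (cab m n c).map (mapRingHom φ) = cab m n (c.map (mapRingHom φ)) := by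
  unfold cab
  rw [Polynomial.map_add, Polynomial.map_sub, Polynomial.map_pow, Polynomial.map_X, Polynomial.map_C,
    coe_mapRingHom, Polynomial.map_pow, Polynomial.map_X]

theorem good_map {F' : Type} [Field F'] (φ : F →+* F') {G : F[X][X]} (h : Good m n F G) :
    Good m n F' (G.map (mapRingHom φ)) := by
  obtain ⟨h1, c, hc, rfl⟩ := h
  refine ⟨?_, _, hc.map φ, cab_map φ c⟩
  rw [← map_natCast φ]
  exact (map_ne_zero φ).2 h1

theorem pts_iso {F' : Type} [Field F'] (e : F ≃+* F') (G : F[X][X]) :
    pts F' (G.map (mapRingHom (e : F →+* F'))) = pts F G := by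
  unfold pts
  rw [Nat.card_congr e.toEquiv]
  congr 2
  refine (Nat.card_congr ((Equiv.prodCongr e.toEquiv e.toEquiv).subtypeEquiv fun z => ?_)).symm
  show evalEval z.1 z.2 G = 0 ↔ evalEval (e z.1) (e z.2) (G.map (mapRingHom (e : F →+* F'))) = 0
  have h1 : evalEval (e z.1) (e z.2) (G.map (mapRingHom (e : F →+* F'))) = e (evalEval z.1 z.2 G) :=
    map_mapRingHom_evalEval (e : F →+* F') G z.1 z.2
  rw [h1]
  exact (map_eq_zero_iff e e.injective).symm

theorem separable_of_char {F : Type} [Field F] {G : F[X][X]} (hG : G.Monic) (hd : G.natDegree = m)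
    (hm : ((m : ℕ) : F) ≠ 0) (hirr : Irreducible (G.map (algebraMap F[X] (RatFunc F)))) :
    (G.map (algebraMap F[X] (RatFunc F))).Separable := by
  rw [separable_iff_derivative_ne_zero hirr]
  intro h0
  have hm0 : m ≠ 0 := by
    rintro rfl
    exact hm Nat.cast_zero
  have h1 := congrArg (fun p => p.coeff (m - 1)) h0
  simp only [coeff_zero] at h1
  rw [coeff_derivative, Nat.sub_add_cancel (Nat.one_le_iff_ne_zero.2 hm0), coeff_map, ← hd,
    hG.coeff_natDegree, map_one, one_mul, hd] at h1
  have h2 : ((m - 1 : ℕ) : RatFunc F) + 1 = ((m : ℕ) : RatFunc F) := by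
    rw [← Nat.cast_succ, Nat.succ_eq_add_one, Nat.sub_add_cancel (Nat.one_le_iff_ne_zero.2 hm0)]
  rw [h2, ← map_natCast (algebraMap F (RatFunc F)), map_eq_zero] at h1
  exact hm h1

/-- the constant -/
noncomputable def cst (m n : ℕ) : ℝ := (Pool.Agent.R410.PW.WC m n (2 * m * n) : ℕ)

theorem weil_cab (hm : 0 < m) (hcop : Nat.Coprime m n) {F : Type} [Field F] [Finite F]
    (hmF : ((m : ℕ) : F) ≠ 0) {c : F[X][X]} (hc : Low m n (m * n) c) :
    |pts F (cab m n c)| ≤ cst m n * √(Nat.card F : ℝ) := by
  classical
  obtain ⟨hG, hd⟩ := cab_monic hm hc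
  let k := AlgebraicClosure F
  have hirr : ∀ {k : Type} [Field k] (φ : F →+* k), Irreducible ((cab m n c).map (mapRingHom φ)) := by
    intro k _ φ
    rw [cab_map]
    have h1 := hc.map φ
    have h2 := adj_isDomain hm hcop h1
    have h3 := (cab_monic hm h1).1.ne_zero
    have h4 : (Ideal.span {cab m n (c.map (mapRingHom φ))}).IsPrime :=
      (Ideal.Quotient.isDomain_iff_prime _).1 h2
    exact ((Ideal.span_singleton_prime h3).1 h4).irreducible
  have hirrF : Irreducible (cab m n c) := by
    have h1 := hirr (RingHom.id F)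
    have h2 : (cab m n c).map (mapRingHom (RingHom.id F)) = cab m n c := by
      rw [mapRingHom_id, Polynomial.map_id]
    rwa [h2] at h1
  have hirr2 : Irreducible ((cab m n c).map (algebraMap F[X] (RatFunc F))) :=
    (hG.irreducible_iff_irreducible_map_fraction_map (K := RatFunc F)).1 hirrF
  have hsep := separable_of_char hG hd hmF hirr2
  have hco : ∀ i, ((cab m n c).coeff i).natDegree ≤ n := by
    intro i
    have h2 : (cab m n c).coeff i = (if i = m then 1 else 0) - (if i = 0 then X ^ n else 0) + c.coeff i := by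
      unfold cab
      rw [coeff_add, coeff_sub, coeff_X_pow, coeff_C]
    rw [h2]
    refine (natDegree_add_le _ _).trans (max_le ((natDegree_sub_le _ _).trans (max_le ?_ ?_)) ?_)
    · split_ifs
      · rw [natDegree_one]; exact Nat.zero_le _
      · rw [natDegree_zero]; exact Nat.zero_le _
    · split_ifs
      · exact natDegree_X_pow_le n
      · rw [natDegree_zero]; exact Nat.zero_le _
    · rw [natDegree_le_iff_coeff_eq_zero]
      intro N hN
      by_contra h
      have h3 := hc _ _ h
      have h4 : m * n < m * N := Nat.mul_lt_mul_of_pos_left hN hm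
      omega
  obtain ⟨A, B, D, hAB, hD, hDd⟩ := exists_bezout (algebraMap F[X] (RatFunc F))
    (IsFractionRing.injective F[X] (RatFunc F)) (cab m n c) hG (by rw [hd]; exact hm) n hco hsep
  rw [hd] at hDd
  have h := Pool.Agent.R410.PW.weil (F := F) k hG (by rw [hd]; exact hm) hAB hD hDd hco
    (hirr (algebraMap F k))
  rw [hd] at h
  exact h

theorem isWt_wc (hm : 0 < m) (hcop : Nat.Coprime m n) : IsWt (wc m n) (fun _ => n + 1) (cst m n) where
  c0 := Nat.cast_nonneg _
  iso F F' _ _ e p := by
    have h1 : dec m n (fun j => (p j).map (e : F →+* F')) = (dec m n p).map (mapRingHom (e : F →+* F')) :=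
      dec_map _ _
    unfold wc
    rw [h1]
    by_cases h : Good m n F (dec m n p)
    · rw [if_pos h, if_pos (good_map _ h), pts_iso]
    · rw [if_neg h, if_neg]
      intro h2
      apply h
      have h3 := good_map (e.symm : F' →+* F) h2
      rw [Polynomial.map_map] at h3
      have h4 : (mapRingHom (e.symm : F' →+* F)).comp (mapRingHom (e : F →+* F')) = RingHom.id F[X] := by
        rw [mapRingHom_comp]
        have : (e.symm : F' →+* F).comp (e : F →+* F') = RingHom.id F := by
          ext x
          exact e.symm_apply_apply x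
        rw [this, mapRingHom_id]
      rw [h4, Polynomial.map_id] at h3
      exact h3
  bound F _ _ p hp := by
    unfold wc
    by_cases h : Good m n F (dec m n p)
    · rw [if_pos h]
      obtain ⟨h1, c, hc, h2⟩ := h
      rw [h2]
      exact weil_cab hm hcop h1 hc
    · rw [if_neg h, abs_zero]
      exact mul_nonneg (Nat.cast_nonneg _) (Real.sqrt_nonneg _)

end

end Pool.Agent.H118.CAB
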